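import Pool.Agent.Q155.KT.Box

/-!
# Tuples of different split primes with given labels and given symbols
-/

set_option autoImplicit false

namespace Q155.KT

open Finset Filter Topology
open Pool.Agent.Y703.CQ (nr sg prs)
open Q283.TW
open scoped Classical

/-- the tuples of split primes up to `X` -/
noncomputable def tup (k X : ℕ) : Finset (Fin k → ℕ) := Fintype.piFinset fun _ : Fin k => spl X

theorem card_tup (k X : ℕ) : (tup k X).card = (spl X).card ^ k := by
  unfold tup
  rw [Fintype.card_piFinset, Finset.prod_const, Finset.card_univ, Fintype.card_fin]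

theorem mem_tup {k X : ℕ} {p : Fin k → ℕ} : p ∈ tup k X ↔ ∀ i, p i ≤ X ∧ Spl (p i) := by
  unfold tup
  rw [Fintype.mem_piFinset]
  exact forall_congr' fun i => mem_spl

theorem count_all (k : ℕ) (R : Finset ℕ) (hR : ∀ r ∈ R, r.Prime ∧ r ≠ 2 ∧ r ≠ 7)
    (Q : (Fin k → Lb R) → (Pr k → ZMod 2) → Prop) :
    Tendsto (fun X : ℕ => (((tup k X).filter fun p => (∀ i, p i ∉ R) ∧
        Q (fun i => lab R (p i)) (fun e => nr (p e.1.1) (p e.1.2))).card : ℝ) /
      ((spl X).card : ℝ) ^ k) atTop
      (𝓝 ((Nat.card {x : (Fin k → Lb R) × (Pr k → ZMod 2) // Q x.1 x.2} : ℝ) /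
        2 ^ (k * (R.card + 1) + (Pr k).card))) := by
  have h1 : ∀ X, ((tup k X).filter fun p => (∀ i, p i ∉ R) ∧
        Q (fun i => lab R (p i)) (fun e => nr (p e.1.1) (p e.1.2))).card =
      ∑ l : Fin k → Lb R, cntL k R (Q l) l X := by
    intro X
    rw [Finset.card_eq_sum_card_fiberwise (f := fun (p : Fin k → ℕ) (i : Fin k) => lab R (p i))
      (t := univ) (fun _ _ => Finset.mem_coe.2 (Finset.mem_univ _))]
    refine Finset.sum_congr rfl fun l _ => ?_
    unfold cntL
    congr 1
    ext p
    simp only [Finset.mem_filter, Fintype.mem_piFinset]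
    unfold tup
    rw [Fintype.mem_piFinset]
    constructor
    · rintro ⟨⟨a1, a2, a3⟩, a4⟩
      refine ⟨fun i => mem_splL.2 ⟨a1 i, a2 i, congrFun a4 i⟩, ?_⟩
      rw [a4] at a3
      exact a3
    · rintro ⟨a1, a2⟩
      have a4 : (fun i => lab R (p i)) = l := funext fun i => (mem_splL.1 (a1 i)).2.2
      refine ⟨⟨fun i => (mem_splL.1 (a1 i)).1, fun i => (mem_splL.1 (a1 i)).2.1, ?_⟩, a4⟩
      rw [a4]
      exact a2
  have h2 : Tendsto (fun X : ℕ => ∑ l : Fin k → Lb R,
      ((cntL k R (Q l) l X : ℝ) / ((spl X).card : ℝ) ^ k)) atTop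
      (𝓝 (∑ l : Fin k → Lb R, (((univ.filter (Q l)).card : ℝ) / 2 ^ (Pr k).card *
        ∏ _i : Fin k, (1 / 2 ^ (R.card + 1))))) :=
    tendsto_finset_sum _ fun l _ => one_label k R hR (Q l) l
  have h3 : (∑ l : Fin k → Lb R, (((univ.filter (Q l)).card : ℝ) / 2 ^ (Pr k).card *
        ∏ _i : Fin k, (1 / 2 ^ (R.card + 1) : ℝ))) =
      (Nat.card {x : (Fin k → Lb R) × (Pr k → ZMod 2) // Q x.1 x.2} : ℝ) /
        2 ^ (k * (R.card + 1) + (Pr k).card) := by
    have e1 : Nat.card {x : (Fin k → Lb R) × (Pr k → ZMod 2) // Q x.1 x.2} =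
        ∑ l : Fin k → Lb R, (univ.filter (Q l)).card := by
      rw [Nat.card_congr (Equiv.subtypeProdEquivSigmaSubtype Q), Nat.card_sigma]
      refine Finset.sum_congr rfl fun l _ => ?_
      rw [Nat.card_eq_fintype_card, Fintype.card_subtype]
    rw [e1, Finset.prod_const, Finset.card_univ, Fintype.card_fin, ← Finset.sum_mul,
      ← Finset.sum_div]
    push_cast
    rw [one_div, inv_pow, ← pow_mul, pow_add, mul_comm (R.card + 1) k]
    field_simp
  rw [h3] at h2
  refine h2.congr fun X => ?_
  rw [h1 X, ← Finset.sum_div]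
  push_cast
  rfl

theorem eq_coord {k : ℕ} (X : ℕ) {i j : Fin k} (hij : i ≠ j) :
    ((tup k X).filter fun p => p i = p j).card ≤ (spl X).card ^ (k - 1) := by
  have h1 : (Fintype.piFinset fun _ : {x : Fin k // x ≠ i} => spl X).card =
      (spl X).card ^ (k - 1) := by
    rw [Fintype.card_piFinset, Finset.prod_const, Finset.card_univ]
    congr 1
    rw [Fintype.card_subtype_compl, Fintype.card_fin, Fintype.card_subtype_eq]
  rw [← h1]
  refine Finset.card_le_card_of_injOn (fun p (x : {x : Fin k // x ≠ i}) => p x) ?_ ?_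
  · intro p hp
    rw [Finset.mem_coe, Finset.mem_filter] at hp
    rw [Finset.mem_coe, Fintype.mem_piFinset]
    intro x
    have := hp.1
    unfold tup at this
    rw [Fintype.mem_piFinset] at this
    exact this x
  · intro p hp q hq h
    rw [Finset.mem_coe, Finset.mem_filter] at hp hq
    have hx : ∀ x : Fin k, x ≠ i → p x = q x := fun x hxi => congrFun h ⟨x, hxi⟩
    funext x
    by_cases hxi : x = i
    · subst hxi
      rw [hp.2, hq.2]
      exact hx j hij.symm
    · exact hx x hxi

theorem nonInj_card (k X : ℕ) : ((tup k X).filter fun p => ¬ Function.Injective p).card ≤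
    k ^ 2 * (spl X).card ^ (k - 1) := by
  have h1 : ((tup k X).filter fun p => ¬ Function.Injective p) ⊆
      ((univ : Finset (Fin k × Fin k)).filter fun e => e.1 ≠ e.2).biUnion fun e =>
        (tup k X).filter fun p => p e.1 = p e.2 := by
    intro p hp
    rw [Finset.mem_filter] at hp
    obtain ⟨hp1, hp2⟩ := hp
    unfold Function.Injective at hp2
    push Not at hp2
    obtain ⟨a, b, hab, hne⟩ := hp2
    rw [Finset.mem_biUnion]
    exact ⟨(a, b), Finset.mem_filter.2 ⟨Finset.mem_univ _, hne⟩, Finset.mem_filter.2 ⟨hp1, hab⟩⟩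
  refine (Finset.card_le_card h1).trans (Finset.card_biUnion_le.trans ?_)
  refine (Finset.sum_le_card_nsmul _ _ ((spl X).card ^ (k - 1)) ?_).trans ?_
  · intro e he
    exact eq_coord X (Finset.mem_filter.1 he).2
  · rw [smul_eq_mul]
    refine Nat.mul_le_mul_right _ ?_
    refine (Finset.card_filter_le _ _).trans ?_
    rw [Finset.card_univ, Fintype.card_prod, Fintype.card_fin, sq]

theorem nonInj_small (k : ℕ) : Tendsto (fun X : ℕ =>
    (((tup k X).filter fun p => ¬ Function.Injective p).card : ℝ) / ((spl X).card : ℝ) ^ k)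
    atTop (𝓝 0) := by
  rcases Nat.eq_zero_or_pos k with rfl | hk
  · refine tendsto_const_nhds.congr fun X => ?_
    have : ((tup 0 X).filter fun p => ¬ Function.Injective p) = ∅ := by
      rw [Finset.filter_eq_empty_iff]
      intro p _
      rw [not_not]
      exact fun a => a.elim0
    rw [this]
    simp
  · have h : Tendsto (fun X : ℕ => (k : ℝ) ^ 2 / ((spl X).card : ℝ)) atTop (𝓝 0) :=
      Tendsto.div_atTop tendsto_const_nhds spl_tendsto
    refine squeeze_zero' (Filter.Eventually.of_forall fun X => by positivity) ?_ h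
    filter_upwards [spl_tendsto.eventually_gt_atTop 0] with X hX
    rw [div_le_div_iff₀ (by positivity) hX]
    have h1 : (((tup k X).filter fun p => ¬ Function.Injective p).card : ℝ) ≤
        (k : ℝ) ^ 2 * ((spl X).card : ℝ) ^ (k - 1) := by
      exact_mod_cast nonInj_card k X
    calc (((tup k X).filter fun p => ¬ Function.Injective p).card : ℝ) * ((spl X).card : ℝ) ≤
        ((k : ℝ) ^ 2 * ((spl X).card : ℝ) ^ (k - 1)) * ((spl X).card : ℝ) := by gcongr
      _ = (k : ℝ) ^ 2 * ((spl X).card : ℝ) ^ k := by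
        rw [mul_assoc, ← pow_succ, Nat.sub_add_cancel hk]

/-- **The proportion of the tuples of different primes with given labels and symbols.** -/
theorem count_inj (k : ℕ) (R : Finset ℕ) (hR : ∀ r ∈ R, r.Prime ∧ r ≠ 2 ∧ r ≠ 7)
    (Q : (Fin k → Lb R) → (Pr k → ZMod 2) → Prop) (T : (Fin k → ℕ) → Prop)
    (hT : ∀ p : Fin k → ℕ, (∀ i, Spl (p i)) → (T p ↔ Function.Injective p ∧ (∀ i, p i ∉ R) ∧
        Q (fun i => lab R (p i)) (fun e => nrp (p e.1.1) (p e.1.2)))) :
    Tendsto (fun X : ℕ => (((tup k X).filter fun p => T p).card : ℝ) / ((tup k X).card : ℝ)) atTop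
      (𝓝 ((Nat.card {x : (Fin k → Lb R) × (Pr k → ZMod 2) // Q x.1 x.2} : ℝ) /
        2 ^ (k * (R.card + 1) + (Pr k).card))) := by
  have h1 := count_all k R hR Q
  have h2 := nonInj_small k
  have hd : Tendsto (fun X : ℕ => (((tup k X).filter fun p => (∀ i, p i ∉ R) ∧
        Q (fun i => lab R (p i)) (fun e => nr (p e.1.1) (p e.1.2))).card : ℝ) /
      ((spl X).card : ℝ) ^ k - (((tup k X).filter fun p => T p).card : ℝ) /
      ((spl X).card : ℝ) ^ k) atTop (𝓝 0) := by
    refine squeeze_zero (fun X => ?_) (fun X => ?_) h2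
    · rw [← sub_div]
      refine div_nonneg ?_ (by positivity)
      rw [sub_nonneg, Nat.cast_le]
      refine Finset.card_le_card fun p hp => ?_
      obtain ⟨a1, a2⟩ := Finset.mem_filter.1 hp
      refine Finset.mem_filter.2 ⟨a1, ?_⟩
      have := ((hT p fun i => (mem_tup.1 a1 i).2).1 a2).2
      simp only [nr_eq]
      exact this
    · rw [← sub_div]
      refine div_le_div_of_nonneg_right ?_ (by positivity)
      rw [sub_le_iff_le_add]
      have : ((tup k X).filter fun p => (∀ i, p i ∉ R) ∧
          Q (fun i => lab R (p i)) (fun e => nr (p e.1.1) (p e.1.2))) ⊆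
          ((tup k X).filter fun p => ¬ Function.Injective p) ∪ ((tup k X).filter fun p => T p) := by
        intro p hp
        obtain ⟨a1, a2⟩ := Finset.mem_filter.1 hp
        rw [Finset.mem_union, Finset.mem_filter, Finset.mem_filter]
        by_cases hi : Function.Injective p
        · right
          refine ⟨a1, (hT p fun i => (mem_tup.1 a1 i).2).2 ⟨hi, ?_⟩⟩
          simp only [nr_eq] at a2
          exact a2
        · left
          exact ⟨a1, hi⟩
      exact_mod_cast (Finset.card_le_card this).trans (Finset.card_union_le _ _)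
  have h3 := h1.sub hd
  rw [sub_zero] at h3
  refine h3.congr fun X => ?_
  rw [card_tup]
  push_cast
  ring

end Q155.KT
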