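import Pool.Agent.Q155.KT.Seq

/-!
# The tree of the prime twists of `X_0(14)`: matchings and branching numbers
-/

set_option autoImplicit false

namespace Q155.KT

open Finset Filter Topology
open Pool.Agent.Y687.MQ (matD SP IP AdmD)
open Q283.TW
open scoped Classical

section
variable {k : ℕ}

/-- each `p i` has at most one non-residue among the others -/
def Mt (p : Fin k → ℕ) : Prop :=
  ∀ i j l, nrp (p i) (p j) ≠ 0 → nrp (p i) (p l) ≠ 0 → j = l

/-- all products are good -/
def AG (p : Fin k → ℕ) : Prop :=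
  ∀ U : Finset (Fin k), (matD (1 * ∏ j ∈ U, ((p j : ℕ) : ℤ))).det ≠ 0

theorem adm_one : AdmD 1 := by
  refine ⟨squarefree_one, by norm_num, by norm_num, ?_⟩
  intro p hp hd
  have h1 : (p : ℤ).natAbs ∣ (1 : ℤ).natAbs := Int.natAbs_dvd_natAbs.2 hd
  rw [Int.natAbs_natCast, Int.natAbs_one, Nat.dvd_one] at h1
  exact absurd h1 hp.one_lt.ne'

theorem ag_iff {p : Fin k → ℕ} (hp : ∀ i, Spl (p i)) (hinj : Function.Injective p) :
    AG p ↔ (∀ i, xp1 (p i) = 1) ∧ Mt p := by
  have hD : ∀ i, p i ∉ (1 : ℤ).natAbs.primeFactors := by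
    intro i
    simp
  have h := lap_iff (e := fun i => xp1 (p i)) (a := fun i j => nrp (p i) (p j))
    (fun i j => nrp_symm (hp i) (hp j)) (fun i => nrp_self _)
  unfold AG Mt
  unfold IsMat at h
  rw [← h]
  refine forall_congr' fun U => ?_
  rw [det_big adm_one hp hinj hD U, big_one]

/-- the indices without partner -/
noncomputable def Fr (p : Fin k → ℕ) : Finset (Fin k) :=
  univ.filter fun i => ∀ j, nrp (p i) (p j) = 0

theorem mem_Fr {p : Fin k → ℕ} {i : Fin k} : i ∈ Fr p ↔ ∀ j, nrp (p i) (p j) = 0 := by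
  unfold Fr
  rw [Finset.mem_filter]
  exact ⟨fun h => h.2, fun h => ⟨Finset.mem_univ _, h⟩⟩

theorem mt_snoc {p : Fin k → ℕ} {q : ℕ} (hp : ∀ i, Spl (p i)) (hq : Spl q) :
    Mt (Fin.snoc p q : Fin (k + 1) → ℕ) ↔ Mt p ∧
      (∀ i j, nrp q (p i) ≠ 0 → nrp q (p j) ≠ 0 → i = j) ∧ ∀ i, nrp q (p i) ≠ 0 → i ∈ Fr p := by
  have hc : ∀ i : Fin k, (Fin.snoc p q : Fin (k + 1) → ℕ) i.castSucc = p i :=
    fun i => Fin.snoc_castSucc (α := fun _ => ℕ) q p i
  have hl : (Fin.snoc p q : Fin (k + 1) → ℕ) (Fin.last k) = q := Fin.snoc_last (α := fun _ => ℕ) q p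
  constructor
  · intro h
    refine ⟨?_, ?_, ?_⟩
    · intro i j l h1 h2
      have h3 := h i.castSucc j.castSucc l.castSucc
      rw [hc, hc, hc] at h3
      exact Fin.castSucc_injective k (h3 h1 h2)
    · intro i j h1 h2
      have h3 := h (Fin.last k) i.castSucc j.castSucc
      rw [hl, hc, hc] at h3
      exact Fin.castSucc_injective k (h3 h1 h2)
    · intro i h1
      rw [mem_Fr]
      intro j
      by_contra h2
      have h3 := h i.castSucc (Fin.last k) j.castSucc
      rw [hl, hc, hc, nrp_symm (hp i) hq] at h3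
      exact absurd (h3 h1 h2) (Fin.castSucc_lt_last j).ne'
  · rintro ⟨h1, h2, h3⟩ i j l
    refine Fin.lastCases ?_ (fun i => ?_) i
    · rw [hl]
      refine Fin.lastCases ?_ (fun j => ?_) j
      · intro h4
        rw [hl, nrp_self] at h4
        exact absurd rfl h4
      · refine Fin.lastCases ?_ (fun l => ?_) l
        · intro _ h4
          rw [hl, nrp_self] at h4
          exact absurd rfl h4
        · rw [hc, hc]
          intro h4 h5
          rw [h2 j l h4 h5]
    · rw [hc]
      refine Fin.lastCases ?_ (fun j => ?_) j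
      · refine Fin.lastCases ?_ (fun l => ?_) l
        · intro _ _
          rfl
        · rw [hl, hc, nrp_symm (hp i) hq]
          intro h4 h5
          exact absurd (mem_Fr.1 (h3 i h4) l) h5
      · refine Fin.lastCases ?_ (fun l => ?_) l
        · rw [hl, hc, nrp_symm (hp i) hq]
          intro h4 h5
          exact absurd (mem_Fr.1 (h3 i h5) j) h4
        · rw [hc, hc]
          intro h4 h5
          rw [h1 i j l h4 h5]

theorem card_labels {R : Finset ℕ} (p : Fin k → ℕ) (hinj : Function.Injective p)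
    (hR : R = univ.image p) (hm : ∀ i, p i ∈ R) (F : Finset (Fin k)) :
    Nat.card {x : (R → ZMod 2) × ZMod 2 // x.2 + ∑ r : R, x.1 r = 1 ∧
      (∀ i j, x.1 ⟨p i, hm i⟩ ≠ 0 → x.1 ⟨p j, hm j⟩ ≠ 0 → i = j) ∧
      ∀ i, x.1 ⟨p i, hm i⟩ ≠ 0 → i ∈ F} = F.card + 1 := by
  have h1 : Nat.card (Option F) = F.card + 1 := by
    rw [Nat.card_eq_fintype_card, Fintype.card_option, Fintype.card_coe]
  rw [← h1]
  symm
  let f : Option F → (R → ZMod 2) := fun o =>
    o.elim 0 (fun i => fun r => if (r : ℕ) = p i then 1 else 0)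
  have f0 : f none = 0 := rfl
  have f1 : ∀ (i : F) (r : R), f (some i) r = if (r : ℕ) = p i then 1 else 0 := fun i r => rfl
  have f2 : ∀ (i : F) (j : Fin k), f (some i) ⟨p j, hm j⟩ ≠ 0 ↔ j = i := by
    intro i j
    rw [f1]
    by_cases h : p j = p i
    · rw [if_pos h]
      exact ⟨fun _ => hinj h, fun _ => one_ne_zero⟩
    · rw [if_neg h]
      exact ⟨fun h' => absurd rfl h', fun h' => absurd (h' ▸ rfl) h⟩
  refine Nat.card_eq_of_bijective (fun o => (⟨(f o, 1 - ∑ r : R, f o r), ?_⟩ :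
    {x : (R → ZMod 2) × ZMod 2 // x.2 + ∑ r : R, x.1 r = 1 ∧
      (∀ i j, x.1 ⟨p i, hm i⟩ ≠ 0 → x.1 ⟨p j, hm j⟩ ≠ 0 → i = j) ∧
      ∀ i, x.1 ⟨p i, hm i⟩ ≠ 0 → i ∈ F})) ⟨?_, ?_⟩
  · refine ⟨sub_add_cancel _ _, ?_, ?_⟩
    · intro i j h2 h3
      rcases o with _ | o
      · exact absurd rfl h2
      · rw [(f2 o i).1 h2, (f2 o j).1 h3]
    · intro i h2
      rcases o with _ | o
      · exact absurd rfl h2
      · rw [(f2 o i).1 h2]
        exact o.2
  · intro o o' h
    have h2 : f o = f o' := congrArg (fun x => x.1.1) h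
    rcases o with _ | o <;> rcases o' with _ | o'
    · rfl
    · exfalso
      have h3 := (f2 o' o').2 rfl
      rw [← h2] at h3
      exact h3 rfl
    · exfalso
      have h3 := (f2 o o).2 rfl
      rw [h2] at h3
      exact h3 rfl
    · have h3 := (f2 o o).2 rfl
      rw [h2] at h3
      rw [Subtype.ext ((f2 o' o).1 h3)]
  · rintro ⟨⟨v, e⟩, h2, h3, h4⟩
    simp only at h2 h3 h4
    by_cases hex : ∃ i, v ⟨p i, hm i⟩ ≠ 0
    · obtain ⟨i, hi⟩ := hex
      have h5 : f (some ⟨i, h4 i hi⟩) = v := by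
        funext r
        obtain ⟨r, hr⟩ := r
        have hr' := hr
        rw [hR] at hr'
        obtain ⟨j, -, rfl⟩ := Finset.mem_image.1 hr'
        by_cases hj : v ⟨p j, hm j⟩ = 0
        · rw [f1, if_neg]
          · exact hj.symm
          · intro h6
            rw [hinj h6] at hj
            exact hi hj
        · rw [f1, if_pos, z2_eq_one hj]
          exact congrArg p (h3 j i hj hi)
      refine ⟨some ⟨i, h4 i hi⟩, Subtype.ext (Prod.ext h5 ?_)⟩
      show 1 - ∑ r : R, f (some ⟨i, h4 i hi⟩) r = e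
      rw [h5, ← h2, add_sub_cancel_right]
    · push Not at hex
      have h5 : f none = v := by
        funext r
        obtain ⟨r, hr⟩ := r
        have hr' := hr
        rw [hR] at hr'
        obtain ⟨j, -, rfl⟩ := Finset.mem_image.1 hr'
        exact (hex j).symm
      refine ⟨none, Subtype.ext (Prod.ext h5 ?_)⟩
      show 1 - ∑ r : R, f none r = e
      rw [h5, ← h2, add_sub_cancel_right]

/-- **The branching numbers.** -/
theorem branch (p : Fin k → ℕ) (hp : ∀ i, Spl (p i)) (hinj : Function.Injective p) (hA : AG p)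
    (T : ℕ → Prop) (hT : ∀ q, Spl q → (∀ i, p i ≠ q) →
      (T q ↔ AG (Fin.snoc p q : Fin (k + 1) → ℕ))) :
    Tendsto (fun X : ℕ => (((range (X + 1)).filter fun q => Spl q ∧ T q).card : ℝ) /
      (((range (X + 1)).filter fun q => Spl q).card : ℝ)) atTop
      (𝓝 (((Fr p).card + 1 : ℝ) / 2 ^ (k + 1))) := by
  have hm : ∀ i, p i ∈ univ.image p := fun i => Finset.mem_image_of_mem p (Finset.mem_univ i)
  have hA' := (ag_iff hp hinj).1 hA
  have h := gen_density (univ.image p) (by
    intro r hr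
    obtain ⟨i, -, rfl⟩ := Finset.mem_image.1 hr
    have h1 := (hp i).2
    exact ⟨(hp i).1, by omega, by omega⟩)
    (fun x => x.2 + ∑ r : (univ.image p : Finset ℕ), x.1 r = 1 ∧
      (∀ i j, x.1 ⟨p i, hm i⟩ ≠ 0 → x.1 ⟨p j, hm j⟩ ≠ 0 → i = j) ∧
      ∀ i, x.1 ⟨p i, hm i⟩ ≠ 0 → i ∈ Fr p) T (by
    intro q hq hqR
    have hne : ∀ i, p i ≠ q := by
      rintro i rfl
      exact hqR (hm i)
    have hc : ∀ i : Fin k, (Fin.snoc p q : Fin (k + 1) → ℕ) i.castSucc = p i :=
      fun i => Fin.snoc_castSucc (α := fun _ => ℕ) q p i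
    have hl : (Fin.snoc p q : Fin (k + 1) → ℕ) (Fin.last k) = q :=
      Fin.snoc_last (α := fun _ => ℕ) q p
    have hinj' : Function.Injective (Fin.snoc p q : Fin (k + 1) → ℕ) := by
      intro a b
      refine Fin.lastCases ?_ (fun a => ?_) a
      · refine Fin.lastCases ?_ (fun b => ?_) b
        · intro _; rfl
        · rw [hl, hc]
          intro h'
          exact absurd h'.symm (hne b)
      · refine Fin.lastCases ?_ (fun b => ?_) b
        · rw [hl, hc]
          intro h'
          exact absurd h' (hne a)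
        · rw [hc, hc]
          intro h'
          rw [hinj h']
    have hp' : ∀ i, Spl ((Fin.snoc p q : Fin (k + 1) → ℕ) i) := by
      intro i
      refine Fin.lastCases ?_ (fun i => ?_) i
      · rw [hl]; exact hq
      · rw [hc]; exact hp i
    rw [hT q hq hne, ag_iff hp' hinj', mt_snoc hp hq]
    have hx : (∀ i, xp1 ((Fin.snoc p q : Fin (k + 1) → ℕ) i) = 1) ↔ xp1 q = 1 := by
      constructor
      · intro h'
        have := h' (Fin.last k)
        rwa [hl] at this
      · intro h' i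
        refine Fin.lastCases ?_ (fun i => ?_) i
        · rw [hl]; exact h'
        · rw [hc]; exact hA'.1 i
    rw [hx]
    have hs : ∑ r ∈ univ.image p, nrp q r + xp1 q +
        ∑ r : (univ.image p : Finset ℕ), nrp q r = xp1 q := by
      rw [Finset.sum_coe_sort (univ.image p) (fun r => nrp q r)]
      linear_combination z2_add_self (∑ r ∈ univ.image p, nrp q r)
    constructor
    · rintro ⟨a1, -, a2, a3⟩
      refine ⟨?_, a2, a3⟩
      show ∑ r ∈ univ.image p, nrp q r + xp1 q + ∑ r : (univ.image p : Finset ℕ), nrp q r = 1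
      rw [hs, a1]
    · rintro ⟨a1, a2, a3⟩
      refine ⟨?_, hA'.2, a2, a3⟩
      rw [← hs]
      exact a1)
  rw [card_labels p hinj rfl hm (Fr p), Fintype.card_coe, Finset.card_image_of_injective _ hinj,
    Finset.card_univ, Fintype.card_fin] at h
  push_cast at h
  exact h

end

end Q155.KT
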