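import Pool.Agent.Y839.CQ.SYM
import Pool.Agent.Q155.KT.Bra

/-!
# The joint law of the determinants of all the twists by divisors of `p_1 ⋯ p_k`
-/

set_option autoImplicit false

namespace Q155.KT

open Finset Filter Topology
open Pool.Agent.Y703.CQ (nr sg prs)
open Pool.Agent.Y687.MQ (matD SP IP AdmD)
open Q283.TW
open scoped Classical

/-- the table of a tuple -/
noncomputable def tab (R : Finset ℕ) {k : ℕ} (p : Fin k → ℕ) : Dta R k :=
  (fun i => lab R (p i), sy fun e : Pr k => nrp (p e.1.1) (p e.1.2))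

theorem tab_snd {R : Finset ℕ} {k : ℕ} {p : Fin k → ℕ} (hp : ∀ i, Spl (p i)) :
    (tab R p).2.1 = fun i j => nrp (p i) (p j) :=
  sy_of (fun i j => nrp (p i) (p j)) (fun i j => nrp_symm (hp i) (hp j)) fun i => nrp_self _

/-- the determinant of `D ∏_{i ∈ U} p_i` from the table -/
noncomputable def bdet (D : ℤ) {R : Finset ℕ} {k : ℕ} (x : Dta R k) (U : Finset (Fin k)) : ZMod 2 :=
  (big D U (fun i => val (x.1 i).1) (fun i => (x.1 i).2) x.2.1).det

theorem det_tab {𝒟 : Finset ℤ} (h : ∀ D ∈ 𝒟, AdmD D) {k : ℕ} {p : Fin k → ℕ}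
    (hp : ∀ i, Spl (p i)) (hinj : Function.Injective p) (hpR : ∀ i, p i ∉ prm 𝒟) {D : ℤ}
    (hD : D ∈ 𝒟) (U : Finset (Fin k)) :
    (matD (D * ∏ j ∈ U, ((p j : ℕ) : ℤ))).det = bdet D (tab (prm 𝒟) p) U := by
  have hpD : ∀ i, p i ∉ D.natAbs.primeFactors := fun i hi =>
    hpR i (Finset.mem_biUnion.2 ⟨D, hD, hi⟩)
  rw [det_big (h D hD) hp hinj hpD U]
  unfold bdet
  rw [tab_snd hp]
  rw [big_congr (v' := fun i => val (lab (prm 𝒟) (p i)).1) (fun i r hr => by
    have hrp : r ∈ prm 𝒟 := Finset.mem_biUnion.2 ⟨D, hD, hr⟩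
    unfold val lab
    rw [dif_pos hrp])]
  rfl

/-- **The law of the table.** -/
theorem table_law (𝒟 : Finset ℤ) (h : ∀ D ∈ 𝒟, AdmD D) (k : ℕ) (W : Dta (prm 𝒟) k → Prop)
    (T : (Fin k → ℕ) → Prop)
    (hT : ∀ p : Fin k → ℕ, (∀ i, Spl (p i)) → (T p ↔ Function.Injective p ∧
      (∀ i, p i ∉ prm 𝒟) ∧ W (tab (prm 𝒟) p))) :
    Tendsto (fun X : ℕ => (((tup k X).filter fun p => T p).card : ℝ) / ((tup k X).card : ℝ)) atTop
      (𝓝 ((Nat.card {x : Dta (prm 𝒟) k // W x} : ℝ) / (Nat.card (Dta (prm 𝒟) k) : ℝ))) := by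
  have h1 := count_inj k (prm 𝒟) (prm_primes h) (fun l α => W (l, sy α)) T (fun p hp => hT p hp)
  have h2 : (Nat.card {x : (Fin k → Lb (prm 𝒟)) × (Pr k → ZMod 2) // W (x.1, sy x.2)} : ℝ) =
      (Nat.card {x : Dta (prm 𝒟) k // W x} : ℝ) := by
    congr 1
    refine Nat.card_congr (Equiv.subtypeEquiv ((Equiv.refl _).prodCongr (syEquiv k)) ?_)
    intro x
    rfl
  rw [h2] at h1
  have h3 : (Nat.card (Dta (prm 𝒟) k) : ℝ) = 2 ^ (k * ((prm 𝒟).card + 1) + (Pr k).card) := by
    rw [card_dta]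
    push_cast
    rfl
  rw [h3]
  exact h1

/-! ### the full product -/

section
variable {k : ℕ}

/-- the symmetric matrix of a diagonal bit vector and a symmetric function -/
noncomputable def lapM (e : Fin k → ZMod 2) (a : Fin k → Fin k → ZMod 2) :
    Matrix (Fin k) (Fin k) (ZMod 2) :=
  Matrix.of fun i j => if i = j then ∑ l ∈ univ.erase i, a i l + e i else a i j

theorem lap_univ (e : Fin k → ZMod 2) (a : Fin k → Fin k → ZMod 2) :
    (lap univ e a).det = (lapM e a).det := by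
  let f : ((univ : Finset (Fin k)) : Type) ≃ Fin k :=
    ⟨fun x => x.1, fun i => ⟨i, Finset.mem_univ i⟩, fun _ => rfl, fun _ => rfl⟩
  rw [← Matrix.det_submatrix_equiv_self f (lapM e a)]
  congr 1
  ext i j
  rw [Matrix.submatrix_apply]
  unfold lap lapM
  rw [Matrix.of_apply, Matrix.of_apply]
  by_cases hij : i = j
  · rw [if_pos hij, if_pos (congrArg f hij)]
    rfl
  · rw [if_neg hij, if_neg (fun h => hij (f.injective h))]
    rfl

theorem card_full (k : ℕ) : Nat.card {x : (Fin k → ZMod 2) × Sy k // (lapM x.1 x.2.1).det ≠ 0} =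
    Nat.card {M : Matrix (Fin k) (Fin k) (ZMod 2) // M.IsSymm ∧ M.det ≠ 0} := by
  refine Nat.card_eq_of_bijective (fun x => (⟨lapM x.1.1 x.1.2.1, ?_, x.2⟩ :
    {M : Matrix (Fin k) (Fin k) (ZMod 2) // M.IsSymm ∧ M.det ≠ 0})) ⟨?_, ?_⟩
  · refine Matrix.IsSymm.ext fun i j => ?_
    unfold lapM
    rw [Matrix.of_apply, Matrix.of_apply]
    by_cases hij : i = j
    · subst hij
      rfl
    · rw [if_neg hij, if_neg (fun h => hij h.symm)]
      exact x.1.2.2.1 j i
  · rintro ⟨⟨e, a⟩, hx⟩ ⟨⟨e', a'⟩, hx'⟩ h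
    have h1 : lapM e a.1 = lapM e' a'.1 := congrArg Subtype.val h
    have ha : a.1 = a'.1 := by
      funext i j
      by_cases hij : i = j
      · subst hij
        rw [a.2.2, a'.2.2]
      · have h2 := congrFun (congrFun h1 i) j
        unfold lapM at h2
        rw [Matrix.of_apply, Matrix.of_apply, if_neg hij, if_neg hij] at h2
        exact h2
    have he : e = e' := by
      funext i
      have h2 := congrFun (congrFun h1 i) i
      unfold lapM at h2
      rw [Matrix.of_apply, Matrix.of_apply, if_pos rfl, if_pos rfl, ha] at h2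
      exact add_left_cancel h2
    refine Subtype.ext (Prod.ext he (Subtype.ext ha))
  · rintro ⟨M, hs, hM⟩
    let a : Sy k := ⟨fun i j => if i = j then 0 else M i j, by
      refine ⟨fun i j => ?_, fun i => ?_⟩
      · show (if i = j then 0 else M i j) = if j = i then 0 else M j i
        by_cases hij : i = j
        · rw [if_pos hij, if_pos hij.symm]
        · rw [if_neg hij, if_neg (fun h => hij h.symm)]
          exact (hs.apply i j).symm
      · show (if i = i then 0 else M i i) = 0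
        rw [if_pos rfl]⟩
    let e : Fin k → ZMod 2 := fun i => M i i - ∑ l ∈ univ.erase i, a.1 i l
    have hL : lapM e a.1 = M := by
      ext i j
      unfold lapM
      rw [Matrix.of_apply]
      by_cases hij : i = j
      · subst hij
        rw [if_pos rfl]
        exact add_sub_cancel _ _
      · rw [if_neg hij]
        exact if_neg hij
    exact ⟨⟨(e, a), by rw [hL]; exact hM⟩, Subtype.ext hL⟩

theorem card_dta_one (k : ℕ) (R : Finset ℕ) (hR : R = ∅) : Nat.card (Dta R k) =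
    2 ^ (k * (k + 1) / 2) := by
  subst hR
  have e2 : k * (0 + 1) + k * (k - 1) / 2 = k * (k + 1) / 2 := by
    rcases Nat.eq_zero_or_pos k with rfl | hk
    · rfl
    · obtain ⟨m, rfl⟩ : ∃ m, k = m + 1 := ⟨k - 1, by omega⟩
      have h1 : (m + 1) * (m + 1 - 1) = m * (m + 1) := by
        rw [Nat.add_sub_cancel, mul_comm]
      have h2 : (m + 1) * (m + 1 + 1) = m * (m + 1) + 2 * (m + 1) := by ring
      rw [h1, h2]
      omega
  rw [card_dta, card_Pr, Finset.card_empty, e2]

/-- the number of the tables over `1` for which the full product is good -/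
theorem card_full_one (k : ℕ) (R : Finset ℕ) (hR : R = ∅) :
    (Nat.card {x : Dta R k // bdet 1 x univ ≠ 0} : ℝ) / (Nat.card (Dta R k) : ℝ) =
      ∏ i ∈ range ((k + 1) / 2), (1 - (1 / 2 : ℝ) ^ (2 * i + 1)) := by
  have e1 : Nat.card {x : Dta R k // bdet 1 x univ ≠ 0} =
      Nat.card {x : (Fin k → ZMod 2) × Sy k // (lapM x.1 x.2.1).det ≠ 0} := by
    subst hR
    refine Nat.card_eq_of_bijective (fun x => (⟨(fun i => (x.1.1 i).2, x.1.2), ?_⟩ :
      {x : (Fin k → ZMod 2) × Sy k // (lapM x.1 x.2.1).det ≠ 0})) ⟨?_, ?_⟩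
    · have h := x.2
      unfold bdet at h
      rw [big_one, lap_univ] at h
      exact h
    · rintro ⟨⟨l, a⟩, hx⟩ ⟨⟨l', a'⟩, hx'⟩ h
      have h1 := congrArg Subtype.val h
      have h2 : (fun i => (l i).2) = fun i => (l' i).2 := congrArg Prod.fst h1
      have h3 : a = a' := congrArg Prod.snd h1
      refine Subtype.ext (Prod.ext ?_ h3)
      funext i
      refine Prod.ext ?_ (congrFun h2 i)
      funext r
      exact absurd r.2 (Finset.notMem_empty _)
    · rintro ⟨⟨e, a⟩, hx⟩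
      refine ⟨⟨(fun i => (0, e i), a), ?_⟩, rfl⟩
      unfold bdet
      rw [big_one, lap_univ]
      exact hx
  have hs := Pool.Agent.Y839.CQ.t_SYM k
  rw [e1, card_full, hs, card_dta_one k R hR]
  have h0 : (2 : ℝ) ^ (k * (k + 1) / 2) ≠ 0 := by positivity
  push_cast
  field_simp

end

end Q155.KT
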