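import Pool.Agent.Q155.KT.Law
import Pool.Agent.Q155.KT.Pat

/-!
# The law of large numbers over the divisors of `p_1 ⋯ p_k`
-/

set_option autoImplicit false
set_option linter.unusedSectionVars false

namespace Q155.KT

open Finset Matrix Q283.TW
open Pool.Agent.Q1.PT (avg avg_equiv avg_prod avg_mono avg_const avg_add avg_sub abs_avg avg_hom)
open Pool.Agent.Y703.CQ (c2)
open Pool.Agent.Y687.MQ (matD SP IP AdmD)
open scoped Classical

theorem kz_submatrix {m n : Type} [Fintype m] [DecidableEq m] [Fintype n] [DecidableEq n]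
    (e : m ≃ n) (M : Matrix n n (ZMod 2)) : kz (M.submatrix e e) = kz M := by
  unfold kz
  refine Nat.card_congr (Equiv.subtypeEquiv (e.arrowCongr (Equiv.refl _)) ?_)
  intro x
  rw [Matrix.submatrix_mulVec_equiv]
  have h1 : (e.arrowCongr (Equiv.refl (ZMod 2))) x = x ∘ e.symm := rfl
  rw [h1]
  constructor
  · intro h
    funext j
    have := congrFun h (e.symm j)
    simpa using this
  · intro h
    rw [h]
    rfl

theorem ap_submatrix (F : ℕ → ℝ) (k : ℕ) : ∀ {m n : Type} [Fintype m] [DecidableEq m] [Fintype n]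
    [DecidableEq n] (e : m ≃ n) (M : Matrix n n (ZMod 2)),
    ap k F (M.submatrix e e) = ap k F M := by
  induction k with
  | zero =>
    intro m n _ _ _ _ e M
    rw [ap_zero, ap_zero, kz_submatrix]
  | succ k ih =>
    intro m n _ _ _ _ e M
    rw [ap_succ, ap_succ]
    have h1 : ∀ x : (m → ZMod 2) × ZMod 2, ap k F (bord (M.submatrix e e) x.1 x.2) =
        ap k F (bord M (x.1 ∘ e.symm) x.2) := by
      intro x
      rw [← ih (e.sumCongr (Equiv.refl Unit)) (bord M (x.1 ∘ e.symm) x.2)]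
      congr 1
      ext i j
      rcases i with i | i <;> rcases j with j | j
      · simp only [bord, Matrix.submatrix_apply, Equiv.sumCongr_apply, Sum.map_inl,
          Matrix.fromBlocks_apply₁₁, Matrix.add_apply, Matrix.diagonal_apply,
          Function.comp_apply, Equiv.symm_apply_apply, e.injective.eq_iff]
      · simp [bord]
      · simp [bord]
      · simp [bord]
    simp_rw [h1]
    exact avg_equiv ((e.arrowCongr (Equiv.refl (ZMod 2))).prodCongr (Equiv.refl (ZMod 2)))
      (fun x => ap k F (bord M x.1 x.2))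

/-- the parameters -/
abbrev Par (R : Finset ℕ) (k : ℕ) : Type := (Fin k → Lb R) × (Fin k → Fin k → ZMod 2)

/-- the change of the data of the `i`-th prime -/
noncomputable def sh (R : Finset ℕ) {k : ℕ} (i : Fin k) : (Lb R × (Fin k → ZMod 2)) →+ Par R k where
  toFun y := (Pi.single i y.1, Pi.single i y.2)
  map_zero' := by
    show ((Pi.single i (0 : Lb R), Pi.single i (0 : Fin k → ZMod 2)) : Par R k) = 0
    rw [Pi.single_zero, Pi.single_zero]
    rfl
  map_add' y z := by
    show ((Pi.single i (y.1 + z.1), Pi.single i (y.2 + z.2)) : Par R k) = _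
    rw [Pi.single_add, Pi.single_add]
    rfl

/-- the matrix -/
noncomputable def bg (D : ℤ) {R : Finset ℕ} {k : ℕ} (U : Finset (Fin k)) (x : Par R k) :
    Matrix (SP D ⊕ U) (SP D ⊕ U) (ZMod 2) :=
  big D U (fun i => val (x.1 i).1) (fun i => (x.1 i).2) fun i j => x.2 i j + x.2 j i

section
variable {D : ℤ} {R : Finset ℕ} {k : ℕ}

theorem sh_one (i : Fin k) (x : Par R k) (y : Lb R × (Fin k → ZMod 2)) (j : Fin k) :
    (x + sh R i y).1 j = if j = i then x.1 j + y.1 else x.1 j := by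
  show x.1 j + (Pi.single i y.1 : Fin k → Lb R) j = _
  by_cases h : j = i
  · subst h
    rw [if_pos rfl, Pi.single_eq_same]
  · rw [if_neg h, Pi.single_eq_of_ne h, add_zero]

theorem sh_two (i : Fin k) (x : Par R k) (y : Lb R × (Fin k → ZMod 2)) (j l : Fin k) :
    (x + sh R i y).2 j l = if j = i then x.2 j l + y.2 l else x.2 j l := by
  show x.2 j l + (Pi.single i y.2 : Fin k → Fin k → ZMod 2) j l = _
  by_cases h : j = i
  · subst h
    rw [if_pos rfl, Pi.single_eq_same]
  · rw [if_neg h, Pi.single_eq_of_ne h, Pi.zero_apply, add_zero]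

theorem big_congr2 {U : Finset (Fin k)} {v v' : Fin k → ℕ → ZMod 2}
    {e e' : Fin k → ZMod 2} {a a' : Fin k → Fin k → ZMod 2}
    (hv : ∀ i ∈ U, v i = v' i) (he : ∀ i ∈ U, e i = e' i)
    (ha : ∀ i ∈ U, ∀ j ∈ U, a i j = a' i j) : big D U v e a = big D U v' e' a' := by
  unfold big
  congr 1
  · congr 2
    funext r
    exact Finset.sum_congr rfl fun i hi => by rw [hv i hi]
  · ext r i
    show v i r = v' i r
    rw [hv i i.2]
  · ext i r
    show v i r = v' i r
    rw [hv i i.2]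
  · ext i j
    rw [Matrix.of_apply, Matrix.of_apply, hv i i.2, he i i.2, ha i i.2 j j.2]
    congr 3
    exact Finset.sum_congr rfl fun l hl => ha i i.2 l (Finset.mem_of_mem_erase hl)

theorem bg_sh {W : Finset (Fin k)} {i : Fin k} (hi : i ∉ W) (x : Par R k)
    (y : Lb R × (Fin k → ZMod 2)) : bg D W (x + sh R i y) = bg D W x := by
  have h : ∀ j ∈ W, j ≠ i := fun j hj e => hi (e ▸ hj)
  refine big_congr2 (fun j hj => ?_) (fun j hj => ?_) fun j hj l hl => ?_
  · show val ((x + sh R i y).1 j).1 = _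
    rw [sh_one, if_neg (h j hj)]
  · show ((x + sh R i y).1 j).2 = _
    rw [sh_one, if_neg (h j hj)]
  · show (x + sh R i y).2 j l + (x + sh R i y).2 l j = _
    rw [sh_two, sh_two, if_neg (h j hj), if_neg (h l hl)]

/-- the index sets -/
noncomputable def eqi (D : ℤ) {W : Finset (Fin k)} {i : Fin k} (hi : i ∉ W) :
    (SP D ⊕ W) ⊕ Unit ≃ SP D ⊕ ↥(insert i W) := by
  refine (Equiv.sumAssoc _ _ _).trans ((Equiv.refl _).sumCongr (Equiv.ofBijective
    (Sum.elim (fun j : W => (⟨j, Finset.mem_insert_of_mem j.2⟩ : ↥(insert i W)))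
      fun _ : Unit => ⟨i, Finset.mem_insert_self i W⟩) ⟨?_, ?_⟩))
  · rintro (j | j) (j' | j') h
    · simp only [Sum.elim_inl, Subtype.mk.injEq] at h
      rw [Subtype.ext h]
    · simp only [Sum.elim_inl, Sum.elim_inr, Subtype.mk.injEq] at h
      exact absurd (h ▸ j.2) hi
    · simp only [Sum.elim_inl, Sum.elim_inr, Subtype.mk.injEq] at h
      exact absurd (h ▸ j'.2) hi
    · rfl
  · rintro ⟨j, hj⟩
    rcases Finset.mem_insert.1 hj with h | h
    · subst h
      exact ⟨Sum.inr (), rfl⟩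
    · exact ⟨Sum.inl ⟨j, h⟩, rfl⟩

theorem eqi_1 {W : Finset (Fin k)} {i : Fin k} (hi : i ∉ W) (r : SP D) :
    eqi D hi (Sum.inl (Sum.inl r)) = Sum.inl r := rfl

theorem eqi_2 {W : Finset (Fin k)} {i : Fin k} (hi : i ∉ W) (j : W) :
    eqi D hi (Sum.inl (Sum.inr j)) = Sum.inr ⟨j, Finset.mem_insert_of_mem j.2⟩ := rfl

theorem eqi_3 {W : Finset (Fin k)} {i : Fin k} (hi : i ∉ W) (u : Unit) :
    eqi D hi (Sum.inr u) = Sum.inr ⟨i, Finset.mem_insert_self i W⟩ := rfl

/-- **The bordering.** -/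
theorem big_insert {W : Finset (Fin k)} {i : Fin k} (hi : i ∉ W) (v : Fin k → ℕ → ZMod 2)
    (e : Fin k → ZMod 2) (a : Fin k → Fin k → ZMod 2) (ha : ∀ i j, a i j = a j i) :
    (big D (insert i W) v e a).submatrix (eqi D hi) (eqi D hi) =
      bord (big D W v e a) (Sum.elim (fun r : SP D => v i r) fun j : W => a i j)
        (∑ r ∈ D.natAbs.primeFactors, v i r + ∑ l ∈ W, a i l + e i) := by
  have hne : ∀ j : W, (j : Fin k) ≠ i := fun j h => hi (h ▸ j.2)
  ext p q
  rw [Matrix.submatrix_apply]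
  unfold big bord
  rcases p with (p | p) | p <;> rcases q with (q | q) | q
  · rw [eqi_1, eqi_1, Matrix.fromBlocks_apply₁₁, Matrix.fromBlocks_apply₁₁, Matrix.add_apply,
      Matrix.add_apply, Matrix.fromBlocks_apply₁₁, Matrix.add_apply, Matrix.diagonal_apply,
      Matrix.diagonal_apply, Matrix.diagonal_apply]
    by_cases h : p = q
    · subst h
      rw [if_pos rfl, if_pos rfl, if_pos rfl, Finset.sum_insert hi, Sum.elim_inl]
      ring
    · rw [if_neg h, if_neg h, if_neg (fun h' => h (Sum.inl_injective h'))]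
      ring
  · rw [eqi_1, eqi_2, Matrix.fromBlocks_apply₁₂, Matrix.fromBlocks_apply₁₁, Matrix.add_apply,
      Matrix.fromBlocks_apply₁₂, Matrix.diagonal_apply, if_neg Sum.inl_ne_inr, add_zero]
    rfl
  · rw [eqi_1, eqi_3, Matrix.fromBlocks_apply₁₂, Matrix.fromBlocks_apply₁₂]
    rfl
  · rw [eqi_1, eqi_2, Matrix.fromBlocks_apply₂₁, Matrix.fromBlocks_apply₁₁, Matrix.add_apply,
      Matrix.fromBlocks_apply₂₁, Matrix.diagonal_apply, if_neg Sum.inr_ne_inl, add_zero]
    rfl
  · rw [eqi_2, eqi_2, Matrix.fromBlocks_apply₂₂, Matrix.fromBlocks_apply₁₁, Matrix.add_apply,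
      Matrix.fromBlocks_apply₂₂, Matrix.diagonal_apply, Matrix.of_apply, Matrix.of_apply]
    by_cases h : p = q
    · subst h
      have h1 : (insert i W).erase (p : Fin k) = insert i (W.erase p) := by
        rw [Finset.erase_insert_of_ne (hne p).symm]
      rw [if_pos rfl, if_pos rfl, if_pos rfl]
      show _ + ∑ l ∈ (insert i W).erase (p : Fin k), a p l + e p = _ + a i p
      rw [h1, Finset.sum_insert (fun h' => hi (Finset.mem_of_mem_erase h')), ha i p]
      ring
    · rw [if_neg h, if_neg (fun h' => h (Sum.inr_injective h')), if_neg, add_zero]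
      intro h'
      exact h (Subtype.ext (Subtype.mk.injEq _ _ _ _ ▸ h'))
  · rw [eqi_2, eqi_3, Matrix.fromBlocks_apply₂₂, Matrix.fromBlocks_apply₁₂, Matrix.of_apply,
      Matrix.of_apply, if_neg]
    · exact ha _ _
    · intro h'
      exact hne p (congrArg Subtype.val h')
  · rw [eqi_1, eqi_3, Matrix.fromBlocks_apply₂₁, Matrix.fromBlocks_apply₂₁]
    rfl
  · rw [eqi_2, eqi_3, Matrix.fromBlocks_apply₂₂, Matrix.fromBlocks_apply₂₁, Matrix.of_apply,
      Matrix.of_apply, if_neg]
    · rfl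
    · intro h'
      exact hne q (congrArg Subtype.val h').symm
  · rw [eqi_3, Matrix.fromBlocks_apply₂₂, Matrix.fromBlocks_apply₂₂, Matrix.of_apply,
      Matrix.of_apply, if_pos rfl]
    show _ + ∑ l ∈ (insert i W).erase i, a i l + e i = _
    rw [Finset.erase_insert hi]

theorem val_add (v w : R → ZMod 2) (r : ℕ) : val (v + w) r = val v r + val w r := by
  unfold val
  by_cases h : r ∈ R
  · rw [dif_pos h, dif_pos h, dif_pos h]
    rfl
  · rw [dif_neg h, dif_neg h, dif_neg h, add_zero]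

/-- the data of the bordering -/
noncomputable def th (D : ℤ) (R : Finset ℕ) (W : Finset (Fin k)) :
    (Lb R × (Fin k → ZMod 2)) →+ ((SP D ⊕ W → ZMod 2) × ZMod 2) where
  toFun y := (Sum.elim (fun r : SP D => val y.1.1 r) fun j : W => y.2 j,
    ∑ r ∈ D.natAbs.primeFactors, val y.1.1 r + ∑ l ∈ W, y.2 l + y.1.2)
  map_zero' := by
    have h0 : ∀ r, val (0 : R → ZMod 2) r = 0 := by
      intro r
      unfold val
      split_ifs <;> rfl
    refine Prod.ext ?_ ?_
    · funext w
      rcases w with w | w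
      · exact h0 _
      · rfl
    · show ∑ r ∈ D.natAbs.primeFactors, val (0 : R → ZMod 2) r + ∑ l ∈ W, (0 : ZMod 2) + 0 = 0
      rw [Finset.sum_congr rfl fun r _ => h0 r]
      simp
  map_add' y z := by
    refine Prod.ext ?_ ?_
    · funext w
      rcases w with w | w
      · exact val_add _ _ _
      · rfl
    · show ∑ r ∈ D.natAbs.primeFactors, val (y.1.1 + z.1.1) r + ∑ l ∈ W, (y.2 l + z.2 l) +
        (y.1.2 + z.1.2) = (∑ r ∈ D.natAbs.primeFactors, val y.1.1 r + ∑ l ∈ W, y.2 l + y.1.2) +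
        (∑ r ∈ D.natAbs.primeFactors, val z.1.1 r + ∑ l ∈ W, z.2 l + z.1.2)
      rw [Finset.sum_congr rfl fun r _ => val_add y.1.1 z.1.1 r, Finset.sum_add_distrib,
        Finset.sum_add_distrib]
      ring

theorem th_surj (W : Finset (Fin k)) (hR : D.natAbs.primeFactors ⊆ R) :
    Function.Surjective (th D R W) := by
  rintro ⟨v, d⟩
  have hS : ∀ r ∈ SP D, r ∈ R := fun r hr => hR (Finset.mem_filter.1 hr).1
  let y1 : R → ZMod 2 := fun r => if h : (r : ℕ) ∈ SP D then v (Sum.inl ⟨r, h⟩) else 0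
  let y2 : Fin k → ZMod 2 := fun j => if h : j ∈ W then v (Sum.inr ⟨j, h⟩) else 0
  refine ⟨((y1, d - (∑ r ∈ D.natAbs.primeFactors, val y1 r + ∑ l ∈ W, y2 l)), y2), ?_⟩
  refine Prod.ext ?_ ?_
  · funext w
    rcases w with w | w
    · show val y1 w = v (Sum.inl w)
      unfold val
      rw [dif_pos (hS w w.2)]
      exact dif_pos w.2
    · exact dif_pos w.2
  · show ∑ r ∈ D.natAbs.primeFactors, val y1 r + ∑ l ∈ W, y2 l +
      (d - (∑ r ∈ D.natAbs.primeFactors, val y1 r + ∑ l ∈ W, y2 l)) = d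
    ring

/-- **One step.** -/
theorem ap_step (hR : D.natAbs.primeFactors ⊆ R) {W : Finset (Fin k)} {i : Fin k} (hi : i ∉ W)
    (F : ℕ → ℝ) (j : ℕ) (x : Par R k) :
    avg (fun y : Lb R × (Fin k → ZMod 2) => ap j F (bg D (insert i W) (x + sh R i y))) =
      ap (j + 1) F (bg D W x) := by
  set z0 : (SP D ⊕ W → ZMod 2) × ZMod 2 :=
    (Sum.elim (fun r : SP D => val (x.1 i).1 r) fun l : W => x.2 i l + x.2 l i,
      ∑ r ∈ D.natAbs.primeFactors, val (x.1 i).1 r + ∑ l ∈ W, (x.2 i l + x.2 l i) + (x.1 i).2)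
    with hz0
  set ψ : (SP D ⊕ W → ZMod 2) × ZMod 2 → ℝ := fun z => ap j F (bord (bg D W x) z.1 z.2) with hψ
  have h1 : ∀ y : Lb R × (Fin k → ZMod 2), ap j F (bg D (insert i W) (x + sh R i y)) =
      ψ (z0 + th D R W y) := by
    intro y
    have hne : ∀ l ∈ W, l ≠ i := fun l hl e => hi (e ▸ hl)
    rw [← ap_submatrix F j (eqi D hi)]
    unfold bg
    rw [big_insert hi _ _ _ (fun _ _ => add_comm _ _)]
    have e1 : big D W (fun i_1 => val ((x + sh R i y).1 i_1).1)
        (fun i_1 => ((x + sh R i y).1 i_1).2)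
        (fun i_1 j => (x + sh R i y).2 i_1 j + (x + sh R i y).2 j i_1) = bg D W x := bg_sh hi x y
    rw [e1]
    show ap j F (bord (bg D W x) _ _) = ap j F (bord (bg D W x) (z0 + th D R W y).1
      (z0 + th D R W y).2)
    have hl : ∀ l ∈ W, (x + sh R i y).2 i l + (x + sh R i y).2 l i =
        (x.2 i l + x.2 l i) + y.2 l := by
      intro l hl
      rw [sh_two, sh_two, if_pos rfl, if_neg (hne l hl)]
      ring
    have hx : (x + sh R i y).1 i = x.1 i + y.1 := by
      rw [sh_one, if_pos rfl]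
    congr 2
    · funext w
      rcases w with w | w
      · show val ((x + sh R i y).1 i).1 w = val (x.1 i).1 w + val y.1.1 w
        rw [hx]
        exact val_add _ _ _
      · exact hl w w.2
    · show ∑ r ∈ D.natAbs.primeFactors, val ((x + sh R i y).1 i).1 r +
        ∑ l ∈ W, ((x + sh R i y).2 i l + (x + sh R i y).2 l i) + ((x + sh R i y).1 i).2 =
        (∑ r ∈ D.natAbs.primeFactors, val (x.1 i).1 r + ∑ l ∈ W, (x.2 i l + x.2 l i) + (x.1 i).2) +
        (∑ r ∈ D.natAbs.primeFactors, val y.1.1 r + ∑ l ∈ W, y.2 l + y.1.2)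
      rw [hx, Finset.sum_congr rfl hl, Finset.sum_add_distrib]
      have : ∀ r, val (x.1 i + y.1).1 r = val (x.1 i).1 r + val y.1.1 r := fun r => val_add _ _ _
      rw [Finset.sum_congr rfl fun r _ => this r, Finset.sum_add_distrib]
      show _ + (_ + _) + ((x.1 i).2 + y.1.2) = _
      ring
  simp_rw [h1]
  rw [avg_hom (th D R W) (th_surj W hR) (fun z => ψ (z0 + z)), ap_succ]
  exact avg_equiv (Equiv.addLeft z0) ψ

end

end Q155.KT
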