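import Pool.Agent.Q283.TW.Main

/-!
# The density of the split primes with a given label

The label of a split prime `p` consists of its symbols with the primes of a finite set and of the
symbol `xp1 p`. The labels are equidistributed (after `Q283.TW.main_density`).
-/

set_option autoImplicit false
set_option linter.style.haveILetI false

namespace Q155.KT

open NumberField Filter Topology Finset Pool.Agent.W401.Cheb
open Q283.TW

/-- the labels -/
abbrev Lb (R : Finset ℕ) : Type := (R → ZMod 2) × ZMod 2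

/-- the label of `p` -/
noncomputable def lab (R : Finset ℕ) (p : ℕ) : Lb R := (fun q => nrp p q, xp1 p)

theorem card_lb (R : Finset ℕ) : Nat.card (Lb R) = 2 ^ (R.card + 1) := by
  have h := card_pairs (n := R)
  rw [Fintype.card_coe] at h
  exact h

open scoped Classical in
/-- **Equidistribution**, general predicate. -/
theorem gen_density (R : Finset ℕ) (hR : ∀ r ∈ R, r.Prime ∧ r ≠ 2 ∧ r ≠ 7)
    (P : (R → ZMod 2) × ZMod 2 → Prop) (T : ℕ → Prop)
    (hT : ∀ p, Spl p → p ∉ R → (T p ↔ P (fun q : R => nrp p q,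
      ∑ r ∈ R, nrp p r + xp1 p))) :
    Tendsto (fun X : ℕ => (((range (X + 1)).filter fun p => Spl p ∧ T p).card : ℝ) /
      (((range (X + 1)).filter fun p => Spl p).card : ℝ)) atTop
      (𝓝 ((Nat.card {x : (R → ZMod 2) × ZMod 2 // P x} : ℝ) / 2 ^ (Fintype.card R + 1))) := by
  have hS : R ⊆ R := subset_rfl
  obtain ⟨L, hL, hN, hG, s, θ, hθ, hs⟩ := exists_field
    (({-1, 2, -7} : Finset ℤ) ∪ R.image (fun r : ℕ => (r : ℤ)))
  let E : Dat L R :=
    { s := s
      θ := θ
      hθ := hθ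
      h1 := hs _ (by simp)
      h2 := hs _ (by simp)
      h7 := hs _ (by simp)
      hr := fun r hr => hs _ (by simp [hr]) }
  set C : Set Gal(L/ℚ) := {g | ∃ h : g ∈ E.G0, P (Multiplicative.toAdd (E.Ψ hR hS ⟨g, h⟩))} with hC
  have hD0 : 0 < 14 * ∏ r ∈ R, r := by
    have : 0 < ∏ r ∈ R, r := Finset.prod_pos fun r hr => (hR r hr).1.pos
    omega
  have hgood : ∀ p : ℕ, p.Prime → ¬ p ∣ 14 * ∏ r ∈ R, r → p ≠ 2 ∧ p ≠ 7 ∧ p ∉ R := by
    intro p hp hpd
    refine ⟨?_, ?_, ?_⟩
    · rintro rfl; exact hpd (Dvd.dvd.mul_right (by norm_num) _)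
    · rintro rfl; exact hpd (Dvd.dvd.mul_right (by norm_num) _)
    · intro h; exact hpd ((Finset.dvd_prod_of_mem (fun r => r) h).mul_left _)
  have d0 := dens_of L (E.G0 : Set Gal(L/ℚ)) Spl (14 * ∏ r ∈ R, r) hD0 (by
    intro p hp hpd φ g hφ
    obtain ⟨h2, h7, hpR⟩ := hgood p hp.out hpd
    exact (E.frob_facts hR h2 h7 hpR hφ).1)
  have d1 := dens_of L C (fun p => Spl p ∧ T p) (14 * ∏ r ∈ R, r) hD0 (by
    intro p hp hpd φ g hφ
    obtain ⟨h2, h7, hpR⟩ := hgood p hp.out hpd
    obtain ⟨f1, f2, f3⟩ := E.frob_facts hR h2 h7 hpR hφ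
    have key : ∀ hsp : Spl p, (T p ↔ P (Multiplicative.toAdd (E.Ψ hR hS ⟨g, f1.1 hsp⟩))) := by
      intro hsp
      rw [hT p hsp hpR]
      have e1 : (fun q : R => nrp p q) = fun q : R => ng g (E.s ((q : ℕ) : ℤ)) := by
        funext q
        exact f2 q (hS q.2)
      have e2 : ∑ r ∈ R, nrp p r + xp1 p = E.dg g := by
        unfold Dat.dg
        rw [f3 hsp, Finset.sum_congr rfl f2]
      rw [e1, e2]
      exact Iff.rfl
    constructor
    · rintro ⟨hsp, hTp⟩
      exact ⟨f1.1 hsp, (key hsp).1 hTp⟩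
    · rintro ⟨hg, hPg⟩
      exact ⟨f1.2 hg, (key (f1.2 hg)).2 hPg⟩)
  have hCcard : Nat.card C = Nat.card {g : E.G0 // P (Multiplicative.toAdd (E.Ψ hR hS g))} := by
    refine Nat.card_congr
      { toFun := fun x => ⟨⟨x.1, x.2.1⟩, x.2.2⟩
        invFun := fun x => ⟨x.1.1, x.1.2, x.2⟩
        left_inv := fun x => rfl
        right_inv := fun x => rfl }
  have hGpos : (0 : ℝ) < Nat.card Gal(L/ℚ) := by
    have := Nat.card_pos (α := Gal(L/ℚ))
    exact_mod_cast this
  have hG0pos : (0 : ℝ) < Nat.card E.G0 := by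
    have := Nat.card_pos (α := E.G0)
    exact_mod_cast this
  have hlim := d1.div d0 (by
    have : (0 : ℝ) < (Nat.card (E.G0 : Set Gal(L/ℚ)) : ℝ) / Nat.card Gal(L/ℚ) :=
      div_pos hG0pos hGpos
    exact this.ne')
  have hval : (Nat.card C : ℝ) / (Nat.card Gal(L/ℚ) : ℝ) /
      ((Nat.card (E.G0 : Set Gal(L/ℚ)) : ℝ) / (Nat.card Gal(L/ℚ) : ℝ)) =
      (Nat.card {x : (R → ZMod 2) × ZMod 2 // P x} : ℝ) / 2 ^ (Fintype.card R + 1) := by
    have h1 := E.ratio hR hS P
    have h2 : (Nat.card (E.G0 : Set Gal(L/ℚ)) : ℝ) = Nat.card E.G0 := rfl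
    rw [div_div_div_cancel_right₀ hGpos.ne', hCcard, h2, h1]
  rw [hval] at hlim
  refine hlim.congr' ?_
  filter_upwards [eventually_ge_atTop 2] with X hX
  have hpc : (Nat.primeCounting X : ℝ) ≠ 0 := by
    have : Nat.primeCounting X ≠ 0 := by
      rw [Ne, Nat.primeCounting_eq_zero_iff]
      omega
    exact_mod_cast this
  have hcount : ∀ Q : ℕ → Prop, (∀ p, Q p → p.Prime) →
      (∑ p ∈ pr X, if Q p then (1 : ℝ) else 0) = (((range (X + 1)).filter fun p => Q p).card : ℝ) := by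
    intro Q hQ
    rw [Finset.sum_boole]
    congr 2
    ext p
    unfold pr
    rw [mem_filter, mem_filter, mem_filter]
    constructor
    · rintro ⟨⟨h1, -⟩, h2⟩; exact ⟨h1, h2⟩
    · rintro ⟨h1, h2⟩; exact ⟨⟨h1, hQ p h2⟩, h2⟩
  show M _ X / M _ X = _
  unfold M
  rw [hcount _ (fun p h => h.1.1), hcount _ (fun p h => h.1), div_div_div_cancel_right₀ hpc]
  congr

open scoped Classical in
/-- the split primes up to `X` -/
noncomputable def spl (X : ℕ) : Finset ℕ := (range (X + 1)).filter fun p => Spl p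

open scoped Classical in
/-- the split primes up to `X` with a given label, not in `R` -/
noncomputable def splL (R : Finset ℕ) (l : Lb R) (X : ℕ) : Finset ℕ :=
  (range (X + 1)).filter fun p => Spl p ∧ p ∉ R ∧ lab R p = l

open scoped Classical in
/-- **Each label has the density `1 / (number of labels)`.** -/
theorem lab_density (R : Finset ℕ) (hR : ∀ r ∈ R, r.Prime ∧ r ≠ 2 ∧ r ≠ 7) (l : Lb R) :
    Tendsto (fun X : ℕ => ((splL R l X).card : ℝ) / ((spl X).card : ℝ)) atTop
      (𝓝 (1 / 2 ^ (R.card + 1))) := by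
  have h := gen_density R hR (fun x => x = (l.1, ∑ r : R, l.1 r + l.2))
    (fun p => p ∉ R ∧ lab R p = l) (by
      intro p hp hpR
      obtain ⟨v, e⟩ := l
      unfold lab
      rw [Prod.mk.injEq, Prod.mk.injEq]
      constructor
      · rintro ⟨-, h1, h2⟩
        refine ⟨h1, ?_⟩
        rw [← h1, h2, Finset.sum_coe_sort R (fun r => nrp p r)]
      · rintro ⟨h1, h2⟩
        refine ⟨hpR, h1, ?_⟩
        rw [← h1] at h2
        simp only at h2
        rw [Finset.sum_coe_sort R (fun r => nrp p r)] at h2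
        exact add_left_cancel h2)
  have e1 : Nat.card {x : (R → ZMod 2) × ZMod 2 // x = (l.1, ∑ r : R, l.1 r + l.2)} = 1 :=
    Nat.card_unique
  rw [e1, Fintype.card_coe] at h
  push_cast at h
  refine h.congr fun X => ?_
  unfold splL spl
  congr

end Q155.KT
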