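import Pool.Agent.Y710.CQ.BIL
import Pool.Agent.Y356.CQ.EQ
import Pool.Agent.Y302.CQ.CHE
import Pool.Agent.Q155.KT.Lab

/-!
# Tuples of split primes with given labels and given symbols
-/

set_option autoImplicit false

namespace Q155.KT

open Finset Filter Topology
open Pool.Agent.Y703.CQ (nr sg prs HB S_EQ S_CHE ext)
open Pool.Agent.Y710.CQ (xi bil sg_xi)
open Q283.TW

open scoped Classical in
theorem nr_eq (p n : ℕ) : nr p n = nrp p n := by
  unfold nr nrp
  congr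

/-- the bound -/
noncomputable def kap (X : ℕ) : ℝ := 4 * (X : ℝ) ^ (-(1 / 12) : ℝ)

theorem nr_self' (p : ℕ) : nr p p = 0 := by
  unfold nr
  rw [if_pos]
  rw [ZMod.natCast_self]
  exact IsSquare.zero

theorem xi_self {p : ℕ} (hp : p.Prime) : xi p p = 0 := by
  unfold xi
  have : NeZero p := ⟨hp.ne_zero⟩
  rw [(jacobiSym.eq_zero_iff_not_coprime (a := (p : ℤ)) (b := p)).2, Int.cast_zero]
  intro h
  rw [Int.gcd_natCast_natCast, Nat.gcd_self] at h
  exact hp.one_lt.ne' h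

theorem bil_box {X : ℕ} (hX : 1 ≤ X) {P Q : Finset ℕ} (hP : ∀ p ∈ P, p.Prime ∧ p ≠ 2 ∧ p ≤ X)
    (hQ : ∀ p ∈ Q, p.Prime ∧ p ≠ 2 ∧ p ≤ X) (c d : ℕ → ℂ) (hc : ∀ p, ‖c p‖ ≤ 1)
    (hd : ∀ q, ‖d q‖ ≤ 1) :
    ‖∑ x ∈ P, ∑ y ∈ Q, c x * d y * sg (nr x y)‖ ≤ kap X * (X * X) := by
  classical
  have hXr : (1 : ℝ) ≤ X := by exact_mod_cast hX
  have hX0 : (0 : ℝ) < X := by linarith
  have h1 := bil hX le_rfl hP hQ c d hc hd
  have e : ∑ x ∈ P, ∑ y ∈ Q, c x * d y * sg (nr x y) =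
      ∑ x ∈ P, ∑ y ∈ Q, c x * d y * xi x y + ∑ x ∈ P, (if x ∈ Q then c x * d x else 0) := by
    rw [← Finset.sum_add_distrib]
    refine Finset.sum_congr rfl fun x hx => ?_
    have e2 : (if x ∈ Q then c x * d x else 0) = ∑ y ∈ Q, if x = y then c x * d y else 0 := by
      rw [Finset.sum_ite_eq]
    rw [e2, ← Finset.sum_add_distrib]
    refine Finset.sum_congr rfl fun y hy => ?_
    by_cases hxy : x = y
    · subst hxy
      rw [if_pos rfl, nr_self', xi_self (hP x hx).1]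
      unfold sg
      rw [if_pos rfl]
      ring
    · rw [if_neg hxy, sg_xi (hP x hx).1 (hQ y hy).1 hxy, add_zero]
  have h2 : ‖∑ x ∈ P, (if x ∈ Q then c x * d x else 0)‖ ≤ X := by
    refine (norm_sum_le _ _).trans ?_
    have h3 : ∀ x ∈ P, ‖(if x ∈ Q then c x * d x else 0)‖ ≤ (1 : ℝ) := by
      intro x _
      by_cases h : x ∈ Q
      · rw [if_pos h, norm_mul]
        exact mul_le_one₀ (hc x) (norm_nonneg _) (hd x)
      · rw [if_neg h, norm_zero]
        exact zero_le_one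
    refine (Finset.sum_le_card_nsmul _ _ _ h3).trans ?_
    rw [nsmul_eq_mul, mul_one]
    have h4 : P ⊆ Finset.Icc 1 X := by
      intro p hp
      obtain ⟨a1, -, a3⟩ := hP p hp
      exact Finset.mem_Icc.2 ⟨a1.one_lt.le, a3⟩
    have h5 := Finset.card_le_card h4
    rw [Nat.card_Icc, Nat.add_sub_cancel] at h5
    exact_mod_cast h5
  have hy : (0 : ℝ) < (X : ℝ) ^ (-(1 / 12) : ℝ) := Real.rpow_pos_of_pos hX0 _
  have hy12 : ((X : ℝ) ^ (-(1 / 12) : ℝ)) ^ 12 = (X : ℝ)⁻¹ := by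
    rw [← Real.rpow_natCast, ← Real.rpow_mul hX0.le]
    norm_num
    exact Real.rpow_neg_one _
  have h6 : ‖∑ x ∈ P, ∑ y ∈ Q, c x * d y * xi x y‖ ≤ 3 * (X : ℝ) ^ (-(1 / 12) : ℝ) * (X * X) := by
    refine (pow_le_pow_iff_left₀ (norm_nonneg _) (by positivity) (by norm_num : (12 : ℕ) ≠ 0)).1 ?_
    refine h1.trans ?_
    have e3 : (3 * (X : ℝ) ^ (-(1 / 12) : ℝ) * (X * X)) ^ 12 =
        3 ^ 12 * (((X : ℝ) ^ (-(1 / 12) : ℝ)) ^ 12 * (X : ℝ)) * (X : ℝ) ^ 23 := by ring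
    rw [e3, hy12, inv_mul_cancel₀ hX0.ne']
    have : (0 : ℝ) ≤ (X : ℝ) ^ 23 := by positivity
    nlinarith
  have h7 : (X : ℝ) ≤ (X : ℝ) ^ (-(1 / 12) : ℝ) * (X * X) := by
    have h8 : (X : ℝ) ^ (-1 : ℝ) ≤ (X : ℝ) ^ (-(1 / 12) : ℝ) :=
      Real.rpow_le_rpow_of_exponent_le hXr (by norm_num)
    rw [Real.rpow_neg_one] at h8
    calc (X : ℝ) = (X : ℝ)⁻¹ * (X * X) := by field_simp
      _ ≤ _ := by gcongr
  rw [e]
  refine (norm_add_le _ _).trans ?_
  unfold kap
  linarith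

open scoped Classical in
theorem mem_spl {X p : ℕ} : p ∈ spl X ↔ p ≤ X ∧ Spl p := by
  unfold spl
  rw [Finset.mem_filter, Finset.mem_range, Nat.lt_succ_iff]

open scoped Classical in
theorem mem_splL {R : Finset ℕ} {l : Lb R} {X p : ℕ} :
    p ∈ splL R l X ↔ p ∈ spl X ∧ p ∉ R ∧ lab R p = l := by
  rw [mem_spl]
  unfold splL
  rw [Finset.mem_filter, Finset.mem_range, Nat.lt_succ_iff]
  tauto

theorem spl_bound {X p : ℕ} (h : p ∈ spl X) : p.Prime ∧ p ≠ 2 ∧ p ≤ X := by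
  obtain ⟨h1, h2⟩ := mem_spl.1 h
  refine ⟨h2.1, ?_, h1⟩
  have := h2.2.1
  omega

/-- the number of split primes up to `X` is at least `c X / log X` -/
theorem spl_lower : ∃ (c : ℝ) (Y₀ : ℕ), 0 < c ∧ ∀ Y : ℕ, Y₀ ≤ Y →
    c * Y / Real.log Y ≤ ((spl Y).card : ℝ) := by
  classical
  obtain ⟨c, Y₀, hc, h⟩ := Pool.Agent.Y302.CQ.t_CHE
  refine ⟨c, Y₀, hc, fun Y hY => (h Y hY 1 (by norm_num)).trans ?_⟩
  have : ((range (Y + 1)).filter fun p => p.Prime ∧ p % 56 = 1 % 56) ⊆ spl Y := by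
    intro p hp
    obtain ⟨h1, h2, h3⟩ := Finset.mem_filter.1 hp
    rw [mem_spl]
    rw [Finset.mem_range] at h1
    exact ⟨by omega, h2, by omega, by omega⟩
  exact_mod_cast Finset.card_le_card this

theorem log_pow_small (c : ℝ) (hc : 0 < c) (k : ℕ) :
    Tendsto (fun X : ℕ => kap X * (Real.log X / c) ^ k) atTop (𝓝 0) := by
  have h1 : Tendsto (fun x : ℝ => Real.log x ^ (k : ℝ) / x ^ (1 / 12 : ℝ)) atTop (𝓝 0) :=
    (isLittleO_log_rpow_rpow_atTop (k : ℝ) (by norm_num : (0 : ℝ) < 1 / 12)).tendsto_div_nhds_zero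
  have h2 := (h1.comp tendsto_natCast_atTop_atTop).const_mul (4 / c ^ k)
  rw [mul_zero] at h2
  refine h2.congr fun X => ?_
  simp only [Function.comp_apply]
  unfold kap
  rw [Real.rpow_natCast, Real.rpow_neg (Nat.cast_nonneg X), div_pow]
  field_simp

theorem err_small (k : ℕ) :
    Tendsto (fun X : ℕ => kap X * (X : ℝ) ^ k / ((spl X).card : ℝ) ^ k) atTop (𝓝 0) := by
  obtain ⟨c, Y₀, hc, h⟩ := spl_lower
  refine squeeze_zero' (Filter.Eventually.of_forall fun X => ?_) ?_ (log_pow_small c hc k)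
  · unfold kap
    positivity
  · filter_upwards [eventually_ge_atTop (max Y₀ 3)] with X hX
    have hX3 : (3 : ℝ) ≤ X := by exact_mod_cast (le_max_right _ _).trans hX
    have hX0 : (0 : ℝ) < X := by linarith
    have hl : 0 < Real.log X := Real.log_pos (by linarith)
    have h1 := h X ((le_max_left _ _).trans hX)
    have h2 : 0 < c * X / Real.log X := by positivity
    have h3 : 0 ≤ kap X := by unfold kap; positivity
    rw [mul_div_assoc, ← div_pow]
    refine mul_le_mul_of_nonneg_left ?_ h3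
    refine pow_le_pow_left₀ (by positivity) ?_ k
    rw [div_le_iff₀ (lt_of_lt_of_le h2 h1)]
    calc (X : ℝ) = Real.log X / c * (c * X / Real.log X) := by field_simp
      _ ≤ _ := by gcongr

theorem spl_tendsto : Tendsto (fun X : ℕ => ((spl X).card : ℝ)) atTop atTop := by
  rw [tendsto_atTop]
  intro B
  obtain ⟨c, Y₀, hc, h⟩ := spl_lower
  have h1 : Tendsto (fun X : ℕ => (X : ℝ) / Real.log X) atTop atTop := by
    have h2 : Tendsto (fun x : ℝ => Real.log x / x) atTop (𝓝 0) :=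
      Real.isLittleO_log_id_atTop.tendsto_div_nhds_zero
    have h3 : Tendsto (fun x : ℝ => Real.log x / x) atTop (𝓝[>] 0) := by
      refine tendsto_nhdsWithin_iff.2 ⟨h2, ?_⟩
      filter_upwards [eventually_gt_atTop 1] with x hx
      exact div_pos (Real.log_pos hx) (by linarith)
    have h4 := (tendsto_inv_nhdsGT_zero.comp h3).comp (tendsto_natCast_atTop_atTop (R := ℝ))
    refine h4.congr fun X => ?_
    simp only [Function.comp_apply, inv_div]
  filter_upwards [(h1.const_mul_atTop hc).eventually_ge_atTop B, eventually_ge_atTop Y₀]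
    with X hX hX'
  have := h X hX'
  rw [mul_div_assoc] at this
  linarith

/-- the pairs `i < j` -/
noncomputable abbrev Pr (k : ℕ) : Finset (Fin k × Fin k) := prs (univ : Finset (Fin k))

open scoped Classical in
/-- the number of the tuples with given labels whose symbols satisfy `Q` -/
noncomputable def cntL (k : ℕ) (R : Finset ℕ) (Q : (Pr k → ZMod 2) → Prop) (l : Fin k → Lb R)
    (X : ℕ) : ℕ :=
  ((Fintype.piFinset fun i => splL R (l i) X).filter fun p =>
    Q fun e => nr (p e.1.1) (p e.1.2)).card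

theorem HB_box (k : ℕ) (R : Finset ℕ) (l : Fin k → Lb R) {X : ℕ} (hX : 1 ≤ X) :
    HB (univ : Finset (Fin k)) (fun i => splL R (l i) X) (fun _ => X) (kap X) := by
  intro i j _ _ c d hc hd
  exact bil_box hX (fun p hp => spl_bound (mem_splL.1 hp).1) (fun p hp => spl_bound (mem_splL.1 hp).1)
    c d hc hd

theorem card_spl_le (X : ℕ) : (spl X).card ≤ X := by
  have h4 : spl X ⊆ Finset.Icc 1 X := by
    intro p hp
    obtain ⟨a1, -, a3⟩ := spl_bound hp
    exact Finset.mem_Icc.2 ⟨a1.one_lt.le, a3⟩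
  have h5 := Finset.card_le_card h4
  rwa [Nat.card_Icc, Nat.add_sub_cancel] at h5

open scoped Classical in
theorem one_label (k : ℕ) (R : Finset ℕ) (hR : ∀ r ∈ R, r.Prime ∧ r ≠ 2 ∧ r ≠ 7)
    (Q : (Pr k → ZMod 2) → Prop) (l : Fin k → Lb R) :
    Tendsto (fun X : ℕ => (cntL k R Q l X : ℝ) / ((spl X).card : ℝ) ^ k) atTop
      (𝓝 (((univ.filter Q).card : ℝ) / 2 ^ (Pr k).card * ∏ _i : Fin k, (1 / 2 ^ (R.card + 1)))) := by
  have hmain : Tendsto (fun X : ℕ => ((univ.filter Q).card : ℝ) / 2 ^ (Pr k).card *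
      ∏ i : Fin k, (((splL R (l i) X).card : ℝ) / ((spl X).card : ℝ))) atTop
      (𝓝 (((univ.filter Q).card : ℝ) / 2 ^ (Pr k).card * ∏ _i : Fin k, (1 / 2 ^ (R.card + 1)))) :=
    (tendsto_finsetProd _ fun i _ => lab_density R hR (l i)).const_mul _
  have herr : Tendsto (fun X : ℕ => (2 : ℝ) ^ (Pr k).card *
      (kap X * (X : ℝ) ^ k / ((spl X).card : ℝ) ^ k)) atTop (𝓝 0) := by
    have := (err_small k).const_mul ((2 : ℝ) ^ (Pr k).card)
    rwa [mul_zero] at this
  have hdiff : Tendsto (fun X : ℕ => (cntL k R Q l X : ℝ) / ((spl X).card : ℝ) ^ k -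
      ((univ.filter Q).card : ℝ) / 2 ^ (Pr k).card *
      ∏ i : Fin k, (((splL R (l i) X).card : ℝ) / ((spl X).card : ℝ))) atTop (𝓝 0) := by
    refine squeeze_zero_norm' ?_ herr
    filter_upwards [eventually_ge_atTop 1] with X hX
    have h1 := Pool.Agent.Y356.CQ.t_EQ (Fin k) univ (fun i => splL R (l i) X) (fun _ => X) (kap X)
      (by unfold kap; positivity)
      (fun i => (Finset.card_le_card (fun p hp => (mem_splL.1 hp).1)).trans (card_spl_le X))
      (HB_box k R l hX) Q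
    rw [Finset.prod_const, Finset.card_univ, Fintype.card_fin] at h1
    rw [Finset.prod_div_distrib, Finset.prod_const, Finset.card_univ, Fintype.card_fin,
      ← mul_div_assoc, ← sub_div, Real.norm_eq_abs, abs_div,
      abs_of_nonneg (by positivity : (0 : ℝ) ≤ ((spl X).card : ℝ) ^ k), ← mul_div_assoc]
    refine div_le_div_of_nonneg_right ?_ (by positivity)
    unfold cntL
    exact h1
  have := hdiff.add hmain
  rw [zero_add] at this
  refine this.congr fun X => ?_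
  ring

end Q155.KT
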