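import Pool.Agent.Q1.PT.Mat
import Pool.Agent.Y948.CQ.C2

/-!
# The chain of the kernels of random borderings of symmetric matrices over `𝔽₂`

`kz N` is the number of the elements of the kernel of `N`. A standard bordering of a symmetric matrix
`N` by a random vector and a random corner changes `kz N = z` to `z / 2`, `z`, `2 z` with the
probabilities `1 - 1/z`, `1/(2z)`, `1/(2z)`. The `k + 1`-fold Laplacian bordering (`Q283.TW.bord`, which
also adds the vector to the diagonal) has the same law as `k` standard borderings of one Laplacian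
bordering. So the probability that the result is nonsingular differs from the limit
`c2 = (1 - 1/2) (1 - 1/8) (1 - 1/32) ⋯` by at most `4 / 2^k` times the mean number of the elements of the
kernel after one bordering.
-/

set_option autoImplicit false
set_option linter.unusedSectionVars false

namespace Q155.KT

open Finset Matrix Q283.TW
open Pool.Agent.Q1.PT (avg avg_equiv avg_prod avg_mono avg_const avg_add avg_sub abs_avg avg_hom)
open Pool.Agent.Y703.CQ (c2)

theorem z2_all (x : ZMod 2) : x = 0 ∨ x = 1 := by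
  revert x
  decide

theorem z2_dbl (x : ZMod 2) : x + x = 0 := by
  revert x
  decide

section
variable {n : Type} [Fintype n] [DecidableEq n]

/-- the number of the elements of the kernel -/
noncomputable def kz (N : Matrix n n (ZMod 2)) : ℕ := Nat.card {x : n → ZMod 2 // N *ᵥ x = 0}

/-- the standard bordering -/
def sb (N : Matrix n n (ZMod 2)) (v : n → ZMod 2) (d : ZMod 2) :
    Matrix (n ⊕ Unit) (n ⊕ Unit) (ZMod 2) :=
  Matrix.fromBlocks N (Matrix.of fun i _ => v i) (Matrix.of fun _ j => v j)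
    (Matrix.of fun _ _ => d)

theorem sb_mulVec (N : Matrix n n (ZMod 2)) (v : n → ZMod 2) (d : ZMod 2) (x : n → ZMod 2)
    (t : ZMod 2) : sb N v d *ᵥ (Sum.elim x fun _ => t) =
      Sum.elim (N *ᵥ x + t • v) fun _ => v ⬝ᵥ x + d * t := by
  unfold sb
  rw [Matrix.fromBlocks_mulVec]
  have e1 : (Sum.elim x fun _ : Unit => t) ∘ Sum.inl = x := rfl
  have e2 : (Sum.elim x fun _ : Unit => t) ∘ Sum.inr = fun _ => t := rfl
  rw [e1, e2]
  congr 1
  · congr 1
    funext i
    simp [Matrix.mulVec, dotProduct, mul_comm]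
  · funext i
    simp [Matrix.mulVec, dotProduct]

/-- the kernel of the standard bordering -/
noncomputable def sbKer (N : Matrix n n (ZMod 2)) (v : n → ZMod 2) (d : ZMod 2) :
    {x : n ⊕ Unit → ZMod 2 // sb N v d *ᵥ x = 0} ≃
      {y : (n → ZMod 2) × ZMod 2 // N *ᵥ y.1 + y.2 • v = 0 ∧ v ⬝ᵥ y.1 + d * y.2 = 0} := by
  refine Equiv.subtypeEquiv ((Equiv.sumArrowEquivProdArrow n Unit (ZMod 2)).trans
    ((Equiv.refl _).prodCongr (Equiv.funUnique Unit (ZMod 2)))) ?_
  intro x
  have hx : x = Sum.elim (x ∘ Sum.inl) fun _ => x (Sum.inr ()) := by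
    funext w
    rcases w with w | w <;> rfl
  have h1 : sb N v d *ᵥ x = 0 ↔ N *ᵥ (x ∘ Sum.inl) + x (Sum.inr ()) • v = 0 ∧
      v ⬝ᵥ (x ∘ Sum.inl) + d * x (Sum.inr ()) = 0 := by
    conv_lhs => rw [hx]
    rw [sb_mulVec]
    constructor
    · intro h
      exact ⟨funext fun u => congrFun h (Sum.inl u), congrFun h (Sum.inr ())⟩
    · rintro ⟨a, b⟩
      funext w
      rcases w with w | w
      · exact congrFun a w
      · exact b
  exact h1

theorem kz_pos (N : Matrix n n (ZMod 2)) : 0 < kz N := by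
  unfold kz
  have : Nonempty {x : n → ZMod 2 // N *ᵥ x = 0} := ⟨⟨0, Matrix.mulVec_zero N⟩⟩
  exact Nat.card_pos

theorem kz_eq_one {N : Matrix n n (ZMod 2)} : kz N = 1 ↔ N.det ≠ 0 := by
  unfold kz
  rw [Nat.card_eq_one_iff_unique, Ne, ← Matrix.exists_mulVec_eq_zero_iff]
  constructor
  · rintro ⟨h, -⟩ ⟨v, hv, hNv⟩
    apply hv
    have := h.elim ⟨v, hNv⟩ ⟨0, Matrix.mulVec_zero N⟩
    exact congrArg Subtype.val this
  · intro h
    refine ⟨⟨fun a b => ?_⟩, ⟨⟨0, Matrix.mulVec_zero N⟩⟩⟩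
    have key : ∀ c : {x : n → ZMod 2 // N *ᵥ x = 0}, c.1 = 0 := by
      intro c
      by_contra hc
      exact h ⟨c.1, hc, c.2⟩
    exact Subtype.ext ((key a).trans (key b).symm)

/-- the image and the kernel -/
theorem card_range_mul (N : Matrix n n (ZMod 2)) :
    kz N * Nat.card {v : n → ZMod 2 // ∃ w, N *ᵥ w = v} = 2 ^ Fintype.card n := by
  have h := AddSubgroup.card_mul_index (N.mulVecLin.toAddMonoidHom.ker)
  rw [AddSubgroup.index_ker] at h
  have e1 : Nat.card N.mulVecLin.toAddMonoidHom.ker = kz N := Nat.card_congr (Equiv.refl _)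
  have e2 : Nat.card N.mulVecLin.toAddMonoidHom.range = Nat.card {v : n → ZMod 2 // ∃ w, N *ᵥ w = v} :=
    Nat.card_congr (Equiv.refl _)
  rw [e1, e2] at h
  rw [h, Nat.card_fun, Nat.card_zmod, Nat.card_eq_fintype_card]

theorem kz_pow (N : Matrix n n (ZMod 2)) : ∃ c, kz N = 2 ^ c := by
  have h : kz N ∣ 2 ^ Fintype.card n := ⟨_, (card_range_mul N).symm⟩
  obtain ⟨c, -, hc⟩ := (Nat.dvd_prime_pow Nat.prime_two).1 h
  exact ⟨c, hc⟩

theorem kz_le (N : Matrix n n (ZMod 2)) : kz N ≤ 2 ^ Fintype.card n :=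
  Nat.le_of_dvd (by positivity) ⟨_, (card_range_mul N).symm⟩

/-- duality -/
theorem exists_ker {N : Matrix n n (ZMod 2)} (hN : N.IsSymm) {v : n → ZMod 2}
    (hv : ¬ ∃ w, N *ᵥ w = v) : ∃ x, N *ᵥ x = 0 ∧ v ⬝ᵥ x = 1 := by
  by_contra hc
  push Not at hc
  apply hv
  let φ : Module.Dual (ZMod 2) (n → ZMod 2) :=
    { toFun := fun x => v ⬝ᵥ x
      map_add' := fun x y => dotProduct_add v x y
      map_smul' := fun a x => dotProduct_smul a v x }
  have hφ : φ ∈ (LinearMap.ker N.mulVecLin).dualAnnihilator := by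
    rw [Submodule.mem_dualAnnihilator]
    intro x hx
    rw [LinearMap.mem_ker, Matrix.mulVecLin_apply] at hx
    rcases z2_all (v ⬝ᵥ x) with h | h
    · exact h
    · exact absurd h (hc x hx)
  rw [← LinearMap.range_dualMap_eq_dualAnnihilator_ker] at hφ
  obtain ⟨ψ, hψ⟩ := LinearMap.mem_range.1 hφ
  refine ⟨fun i => ψ (Pi.single i 1), ?_⟩
  have h1 : ∀ y : n → ZMod 2, ψ y = (fun i => ψ (Pi.single i 1)) ⬝ᵥ y := by
    intro y
    rw [LinearMap.pi_apply_eq_sum_univ ψ y]
    unfold dotProduct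
    refine Finset.sum_congr rfl fun i _ => ?_
    rw [smul_eq_mul, mul_comm]
    congr 2
    funext j
    rw [Pi.single_apply]
    by_cases h : i = j
    · rw [if_pos h, if_pos h.symm]
    · rw [if_neg h, if_neg (fun h' => h h'.symm)]
  funext j
  have h2 : φ (Pi.single j 1) = ψ (N *ᵥ Pi.single j 1) := by
    rw [← hψ]
    rfl
  have h3 : φ (Pi.single j 1) = v j := by
    show v ⬝ᵥ Pi.single j 1 = v j
    rw [dotProduct_single, mul_one]
  rw [h1, h3, Matrix.dotProduct_mulVec, dotProduct_single, mul_one] at h2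
  rw [h2, ← Matrix.vecMul_transpose, hN.eq]

/-- the kernel of a bordering by a vector outside the image -/
theorem kz_sb_out {N : Matrix n n (ZMod 2)} (hN : N.IsSymm) {v : n → ZMod 2}
    (hv : ¬ ∃ w, N *ᵥ w = v) (d : ZMod 2) : kz (sb N v d) = kz N / 2 := by
  obtain ⟨x1, hx1, hv1⟩ := exists_ker hN hv
  have e1 : kz (sb N v d) = Nat.card {x : n → ZMod 2 // N *ᵥ x = 0 ∧ v ⬝ᵥ x = 0} := by
    unfold kz
    rw [Nat.card_congr (sbKer N v d)]
    refine Nat.card_congr ⟨fun y => ⟨y.1.1, ?_⟩, fun x => ⟨(x.1, 0), ?_⟩, ?_, ?_⟩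
    · have h0 : y.1.2 = 0 := by
        rcases z2_all y.1.2 with h | h
        · exact h
        · exfalso
          have h1 := y.2.1
          rw [h, one_smul] at h1
          refine hv ⟨y.1.1, ?_⟩
          funext i
          have h2 := congrFun h1 i
          rw [Pi.add_apply, Pi.zero_apply] at h2
          have h3 := z2_dbl (v i)
          linear_combination h2 - h3
      have h1 := y.2
      rw [h0, zero_smul, add_zero, mul_zero, add_zero] at h1
      exact h1
    · rw [zero_smul, add_zero, mul_zero, add_zero]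
      exact x.2
    · intro y
      have h0 : y.1.2 = 0 := by
        rcases z2_all y.1.2 with h | h
        · exact h
        · exfalso
          have h1 := y.2.1
          rw [h, one_smul] at h1
          refine hv ⟨y.1.1, ?_⟩
          funext i
          have h2 := congrFun h1 i
          rw [Pi.add_apply, Pi.zero_apply] at h2
          have h3 := z2_dbl (v i)
          linear_combination h2 - h3
      exact Subtype.ext (Prod.ext rfl h0.symm)
    · intro x
      rfl
  have e3 : kz N = Nat.card {x : n → ZMod 2 // N *ᵥ x = 0 ∧ v ⬝ᵥ x = 0} * Nat.card (ZMod 2) := by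
    rw [← Nat.card_prod]
    unfold kz
    symm
    refine Nat.card_congr ⟨fun y => ⟨y.1.1 + y.2 • x1, ?_⟩,
      fun x => (⟨x.1 + (v ⬝ᵥ x.1) • x1, ?_, ?_⟩, v ⬝ᵥ x.1), ?_, ?_⟩
    · rw [Matrix.mulVec_add, Matrix.mulVec_smul, hx1, y.1.2.1, smul_zero, add_zero]
    · rw [Matrix.mulVec_add, Matrix.mulVec_smul, hx1, x.2, smul_zero, add_zero]
    · rw [dotProduct_add, dotProduct_smul, hv1, smul_eq_mul, mul_one, z2_dbl]
    · intro y
      have h3 : v ⬝ᵥ (y.1.1 + y.2 • x1) = y.2 := by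
        rw [dotProduct_add, dotProduct_smul, hv1, smul_eq_mul, mul_one, y.1.2.2, zero_add]
      refine Prod.ext (Subtype.ext ?_) h3
      show y.1.1 + y.2 • x1 + (v ⬝ᵥ (y.1.1 + y.2 • x1)) • x1 = y.1.1
      rw [h3, add_assoc, ← add_smul, z2_dbl, zero_smul, add_zero]
    · intro x
      refine Subtype.ext ?_
      show x.1 + (v ⬝ᵥ x.1) • x1 + (v ⬝ᵥ x.1) • x1 = x.1
      rw [add_assoc, ← add_smul, z2_dbl, zero_smul, add_zero]
  have h2 : Nat.card (ZMod 2) = 2 := Nat.card_zmod 2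
  rw [e1, e3, h2, Nat.mul_div_cancel _ (by norm_num)]

/-- the kernel of a bordering by a vector of the image -/
theorem kz_sb_in {N : Matrix n n (ZMod 2)} (hN : N.IsSymm) (w : n → ZMod 2) (d : ZMod 2) :
    kz (sb N (N *ᵥ w) d) = if d = w ⬝ᵥ (N *ᵥ w) then 2 * kz N else kz N := by
  have hdot : ∀ x, (N *ᵥ w) ⬝ᵥ x = w ⬝ᵥ (N *ᵥ x) := by
    intro x
    rw [Matrix.dotProduct_mulVec, ← Matrix.mulVec_transpose, hN.eq]
  have e1 : kz (sb N (N *ᵥ w) d) =
      Nat.card ({x : n → ZMod 2 // N *ᵥ x = 0} × {t : ZMod 2 // t * (d + w ⬝ᵥ (N *ᵥ w)) = 0}) := by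
    unfold kz
    rw [Nat.card_congr (sbKer N (N *ᵥ w) d)]
    have hc : ∀ (x : n → ZMod 2) (t : ZMod 2), N *ᵥ x = 0 →
        (N *ᵥ w) ⬝ᵥ (x + t • w) + d * t = t * (d + w ⬝ᵥ (N *ᵥ w)) := by
      intro x t hx
      rw [hdot, Matrix.mulVec_add, Matrix.mulVec_smul, hx, zero_add, dotProduct_smul, smul_eq_mul]
      ring
    have hk : ∀ (x : n → ZMod 2) (t : ZMod 2), N *ᵥ (x + t • w) = N *ᵥ x + t • (N *ᵥ w) := by
      intro x t
      rw [Matrix.mulVec_add, Matrix.mulVec_smul]
    have hx2 : ∀ (x : n → ZMod 2) (t : ZMod 2), x + t • w + t • w = x := by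
      intro x t
      rw [add_assoc, ← add_smul, z2_dbl, zero_smul, add_zero]
    refine Nat.card_congr ⟨fun y => (⟨y.1.1 + y.1.2 • w, ?_⟩, ⟨y.1.2, ?_⟩),
      fun y => ⟨(y.1.1 + y.2.1 • w, y.2.1), ?_, ?_⟩, ?_, ?_⟩
    · rw [hk]
      exact y.2.1
    · have h1 : N *ᵥ (y.1.1 + y.1.2 • w) = 0 := by
        rw [hk]
        exact y.2.1
      rw [← hc _ _ h1, hx2]
      exact y.2.2
    · show N *ᵥ (y.1.1 + y.2.1 • w) + y.2.1 • (N *ᵥ w) = 0
      rw [← hk, hx2]
      exact y.1.2
    · show (N *ᵥ w) ⬝ᵥ (y.1.1 + y.2.1 • w) + d * y.2.1 = 0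
      rw [hc _ _ y.1.2]
      exact y.2.2
    · intro y
      exact Subtype.ext (Prod.ext (hx2 _ _) rfl)
    · intro y
      exact Prod.ext (Subtype.ext (hx2 _ _)) rfl
  have e2 : Nat.card {t : ZMod 2 // t * (d + w ⬝ᵥ (N *ᵥ w)) = 0} =
      if d = w ⬝ᵥ (N *ᵥ w) then 2 else 1 := by
    generalize w ⬝ᵥ (N *ᵥ w) = c
    revert d c
    intro d _ c
    rcases z2_all d with rfl | rfl <;> rcases z2_all c with rfl | rfl <;>
      rw [Nat.card_eq_fintype_card] <;> decide
  rw [e1, Nat.card_prod, e2]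
  unfold kz
  split_ifs <;> ring

end

end Q155.KT
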