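import Pool.Agent.Q283.TW.Fin

/-!
# The matrix of the twist by `D p_1 ⋯ p_k`
-/

set_option autoImplicit false
set_option linter.style.haveILetI false

namespace Q155.KT

open Finset
open Pool.Agent.Y687.MQ (matD SP IP AdmD)
open Q283.TW
open scoped Classical

/-- the matrix of `D ∏_{i ∈ U} p_i` in terms of the symbols -/
noncomputable def big (D : ℤ) {k : ℕ} (U : Finset (Fin k)) (v : Fin k → ℕ → ZMod 2)
    (e : Fin k → ZMod 2) (a : Fin k → Fin k → ZMod 2) : Matrix (SP D ⊕ U) (SP D ⊕ U) (ZMod 2) :=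
  Matrix.fromBlocks (matD D + Matrix.diagonal fun r : SP D => ∑ i ∈ U, v i r)
    (Matrix.of fun r i => v i r) (Matrix.of fun i r => v i r)
    (Matrix.of fun i j => if i = j then
      ∑ r ∈ D.natAbs.primeFactors, v i r + ∑ l ∈ U.erase i, a i l + e i else a i j)

theorem nrp_self (p : ℕ) : nrp p p = 0 := by
  unfold nrp
  rw [if_pos]
  rw [ZMod.natCast_self]
  exact IsSquare.zero

theorem nrp_symm {p q : ℕ} (hp : Spl p) (hq : Spl q) : nrp p q = nrp q p := by
  haveI : Fact p.Prime := ⟨hp.1⟩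
  haveI : Fact q.Prime := ⟨hq.1⟩
  have h1 := hp.2.1
  have h2 := hq.2.1
  have := ZMod.exists_sq_eq_prime_iff_of_mod_four_eq_one (p := p) (q := q) (by omega) (by omega)
  unfold nrp
  by_cases h : IsSquare (q : ZMod p)
  · rw [if_pos h, if_pos (this.1 h)]
  · rw [if_neg h, if_neg (fun h' => h (this.2 h'))]

theorem spl_of_mem {D : ℤ} (h : AdmD D) {q : ℕ} (hq : q ∈ SP D) : Spl q := by
  obtain ⟨h1, h2⟩ := Finset.mem_filter.1 hq
  have h3 := (h.2.2.2 q (Nat.prime_of_mem_primeFactors h1)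
    (Int.natCast_dvd.2 (Nat.dvd_of_mem_primeFactors h1))).2
  rcases h3 with h3 | h3
  · exact h3
  · have := h3.2.1
    omega

theorem matD_apply {D : ℤ} (h : AdmD D) (i j : SP D) : matD D i j =
    if i = j then ∑ r ∈ D.natAbs.primeFactors, nrp i r + xp1 i else nrp i j := by
  unfold matD
  rw [Matrix.of_apply]
  by_cases hij : i = j
  · rw [if_pos hij, if_pos hij, xp1_eq (spl_of_mem h i.2)]
    congr 1
    rw [Finset.card_filter]
    push_cast
    refine Finset.sum_congr rfl fun r _ => ?_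
    by_cases hr : r = (i : ℕ)
    · rw [hr, nrp_self, if_neg]
      exact fun h' => h'.1 rfl
    · unfold nrp
      by_cases hs : IsSquare (r : ZMod (i : ℕ))
      · rw [if_pos hs, if_neg fun h' => h'.2 hs]
      · rw [if_neg hs, if_pos ⟨hr, hs⟩]
  · rw [if_neg hij, if_neg hij]
    unfold nrp
    rfl

section
variable {D : ℤ} {k : ℕ} {p : Fin k → ℕ}

/-- the product -/
theorem step_mul (U : Finset (Fin k)) {i : Fin k} (hi : i ∉ U) :
    D * ∏ j ∈ insert i U, ((p j : ℕ) : ℤ) = (D * ∏ j ∈ U, ((p j : ℕ) : ℤ)) * (p i : ℤ) := by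
  rw [Finset.prod_insert hi]
  ring

theorem adm_prod (h : AdmD D) (hp : ∀ i, Spl (p i)) (hinj : Function.Injective p)
    (hD : ∀ i, p i ∉ D.natAbs.primeFactors) (U : Finset (Fin k)) :
    AdmD (D * ∏ j ∈ U, ((p j : ℕ) : ℤ)) ∧
      (D * ∏ j ∈ U, ((p j : ℕ) : ℤ)).natAbs.primeFactors = D.natAbs.primeFactors ∪ U.image p := by
  induction U using Finset.induction_on with
  | empty => simpa using h
  | @insert i U hi ih =>
    obtain ⟨ih1, ih2⟩ := ih
    have hne : D * ∏ j ∈ U, ((p j : ℕ) : ℤ) ≠ 0 := ih1.1.ne_zero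
    have hn : p i ∉ (D * ∏ j ∈ U, ((p j : ℕ) : ℤ)).natAbs.primeFactors := by
      rw [ih2, Finset.mem_union, not_or]
      refine ⟨hD i, ?_⟩
      rw [Finset.mem_image]
      rintro ⟨j, hj, hji⟩
      exact hi (hinj hji ▸ hj)
    rw [step_mul U hi]
    refine ⟨admD_mul ih1 (hp i) hn, ?_⟩
    rw [pf_mul hne (hp i), ih2, Finset.image_insert, Finset.union_insert]

theorem SP_prod (h : AdmD D) (hp : ∀ i, Spl (p i)) (hinj : Function.Injective p)
    (hD : ∀ i, p i ∉ D.natAbs.primeFactors) (U : Finset (Fin k)) :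
    SP (D * ∏ j ∈ U, ((p j : ℕ) : ℤ)) = SP D ∪ U.image p := by
  unfold SP
  rw [(adm_prod h hp hinj hD U).2, Finset.filter_union]
  congr 1
  rw [Finset.filter_eq_self]
  intro q hq
  obtain ⟨i, -, rfl⟩ := Finset.mem_image.1 hq
  exact (hp i).2.1

/-- the equivalence of the index sets -/
noncomputable def eqvU (h : AdmD D) (hp : ∀ i, Spl (p i)) (hinj : Function.Injective p)
    (hD : ∀ i, p i ∉ D.natAbs.primeFactors) (U : Finset (Fin k)) :
    SP D ⊕ U ≃ SP (D * ∏ j ∈ U, ((p j : ℕ) : ℤ)) := by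
  refine Equiv.ofBijective (Sum.elim
    (fun q : SP D => (⟨(q : ℕ), by
      rw [SP_prod h hp hinj hD]; exact Finset.mem_union_left _ q.2⟩ :
      SP (D * ∏ j ∈ U, ((p j : ℕ) : ℤ))))
    (fun i : U => ⟨p i, by
      rw [SP_prod h hp hinj hD]
      exact Finset.mem_union_right _ (Finset.mem_image_of_mem p i.2)⟩)) ⟨?_, ?_⟩
  · have hpS : ∀ i, p i ∉ SP D := fun i h => hD i (Finset.mem_filter.1 h).1
    rintro (q | q) (q' | q') h
    · simp only [Sum.elim_inl, Subtype.mk.injEq] at h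
      rw [Subtype.ext h]
    · simp only [Sum.elim_inl, Sum.elim_inr, Subtype.mk.injEq] at h
      exact absurd (h ▸ q.2) (hpS _)
    · simp only [Sum.elim_inl, Sum.elim_inr, Subtype.mk.injEq] at h
      exact absurd (h ▸ q'.2) (hpS _)
    · simp only [Sum.elim_inr, Subtype.mk.injEq] at h
      rw [Subtype.ext (hinj h)]
  · rintro ⟨x, hx⟩
    have hx' := hx
    rw [SP_prod h hp hinj hD] at hx'
    rcases Finset.mem_union.1 hx' with h | h
    · exact ⟨Sum.inl ⟨x, h⟩, rfl⟩
    · obtain ⟨i, hi, rfl⟩ := Finset.mem_image.1 h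
      exact ⟨Sum.inr ⟨i, hi⟩, rfl⟩

theorem det_big (h : AdmD D) (hp : ∀ i, Spl (p i)) (hinj : Function.Injective p)
    (hD : ∀ i, p i ∉ D.natAbs.primeFactors) (U : Finset (Fin k)) :
    (matD (D * ∏ j ∈ U, ((p j : ℕ) : ℤ))).det =
      (big D U (fun i r => nrp (p i) r) (fun i => xp1 (p i))
        (fun i j => nrp (p i) (p j))).det := by
  obtain ⟨h1, h2⟩ := adm_prod h hp hinj hD U
  rw [← Matrix.det_submatrix_equiv_self (eqvU h hp hinj hD U)
    (matD (D * ∏ j ∈ U, ((p j : ℕ) : ℤ)))]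
  congr 1
  have hpS : ∀ i, p i ∉ SP D := fun i h => hD i (Finset.mem_filter.1 h).1
  have hdis : Disjoint D.natAbs.primeFactors (U.image p) := by
    rw [Finset.disjoint_left]
    intro q hq hq'
    obtain ⟨i, -, rfl⟩ := Finset.mem_image.1 hq'
    exact hD i hq
  have e1 : ∀ q : SP D, ((eqvU h hp hinj hD U (Sum.inl q) :
    SP (D * ∏ j ∈ U, ((p j : ℕ) : ℤ))) : ℕ) = q := fun _ => rfl
  have e2 : ∀ i : U, ((eqvU h hp hinj hD U (Sum.inr i) :
    SP (D * ∏ j ∈ U, ((p j : ℕ) : ℤ))) : ℕ) = p i := fun _ => rfl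
  have hsum : ∀ n : ℕ, ∑ r ∈ (D * ∏ j ∈ U, ((p j : ℕ) : ℤ)).natAbs.primeFactors, nrp n r =
      ∑ r ∈ D.natAbs.primeFactors, nrp n r + ∑ i ∈ U, nrp n (p i) := by
    intro n
    rw [h2, Finset.sum_union hdis, Finset.sum_image fun a _ b _ hab => hinj hab]
  ext i j
  rw [Matrix.submatrix_apply, matD_apply h1]
  unfold big
  rcases i with i | i <;> rcases j with j | j
  · rw [Matrix.fromBlocks_apply₁₁, Matrix.add_apply, Matrix.diagonal_apply, matD_apply h, e1, e1]
    by_cases hij : i = j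
    · subst hij
      rw [if_pos rfl, if_pos rfl, if_pos rfl, hsum]
      have : ∑ l ∈ U, nrp (i : ℕ) (p l) = ∑ l ∈ U, nrp (p l) i :=
        Finset.sum_congr rfl fun l _ => nrp_symm (spl_of_mem h i.2) (hp l)
      rw [this]
      ring
    · rw [if_neg (fun h' => hij (Sum.inl_injective ((eqvU h hp hinj hD U).injective h'))),
        if_neg hij, if_neg hij, add_zero]
  · rw [Matrix.fromBlocks_apply₁₂, Matrix.of_apply, e1, e2, if_neg]
    · exact nrp_symm (spl_of_mem h i.2) (hp j)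
    · intro h'
      exact absurd ((eqvU h hp hinj hD U).injective h') (by simp)
  · rw [Matrix.fromBlocks_apply₂₁, Matrix.of_apply, e1, e2, if_neg]
    intro h'
    exact absurd ((eqvU h hp hinj hD U).injective h') (by simp)
  · rw [Matrix.fromBlocks_apply₂₂, Matrix.of_apply, e2, e2]
    by_cases hij : i = j
    · subst hij
      rw [if_pos rfl, if_pos rfl, hsum, ← Finset.add_sum_erase U (fun l => nrp (p i) (p l)) i.2,
        nrp_self, zero_add]
    · rw [if_neg (fun h' => hij (Sum.inr_injective ((eqvU h hp hinj hD U).injective h'))),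
        if_neg hij]

end

end Q155.KT
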