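import Mathlib

/-!
# Laplacian matrices over `𝔽₂` all of whose principal analogues are nonsingular; matchings
-/

set_option autoImplicit false

namespace Q155.KT

open Finset
open scoped Classical

theorem z2_eq_one {x : ZMod 2} (h : x ≠ 0) : x = 1 := by
  revert h
  revert x
  decide

theorem z2_add_self (x : ZMod 2) : x + x = 0 := by
  revert x
  decide

section
variable {k : ℕ}

/-- the matrix of `∏_{i ∈ U} p_i` -/
noncomputable def lap (U : Finset (Fin k)) (e : Fin k → ZMod 2) (a : Fin k → Fin k → ZMod 2) :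
    Matrix U U (ZMod 2) :=
  Matrix.of fun i j => if i = j then ∑ l ∈ U.erase i, a i l + e i else a i j

/-- each point has at most one neighbour -/
def IsMat (a : Fin k → Fin k → ZMod 2) : Prop := ∀ i j l, a i j ≠ 0 → a i l ≠ 0 → j = l

theorem lap_self {U : Finset (Fin k)} {e : Fin k → ZMod 2} {a : Fin k → Fin k → ZMod 2}
    (h0 : ∀ i, a i i = 0) (i : U) : lap U e a i i = ∑ l ∈ U, a i l + e i := by
  unfold lap
  rw [Matrix.of_apply, if_pos rfl, Finset.sum_erase U (h0 i)]

theorem lap_ne {U : Finset (Fin k)} {e : Fin k → ZMod 2} {a : Fin k → Fin k → ZMod 2}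
    {i j : U} (h : i ≠ j) : lap U e a i j = a i j := by
  unfold lap
  rw [Matrix.of_apply, if_neg h]

theorem lap_iff {e : Fin k → ZMod 2} {a : Fin k → Fin k → ZMod 2} (hs : ∀ i j, a i j = a j i)
    (h0 : ∀ i, a i i = 0) :
    (∀ U : Finset (Fin k), (lap U e a).det ≠ 0) ↔ (∀ i, e i = 1) ∧ IsMat a := by
  constructor
  · intro h
    have he : ∀ i, e i = 1 := by
      intro i
      have h1 := h {i}
      have : Subsingleton ((({i} : Finset (Fin k)) : Type)) := by
        refine ⟨fun x y => Subtype.ext ?_⟩
        rw [Finset.mem_singleton.1 x.2, Finset.mem_singleton.1 y.2]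
      rw [Matrix.det_eq_elem_of_subsingleton _ ⟨i, Finset.mem_singleton_self i⟩, lap_self h0,
        Finset.sum_singleton] at h1
      simp only [h0, zero_add] at h1
      exact z2_eq_one h1
    refine ⟨he, ?_⟩
    intro i j l hj hl
    by_contra hjl
    have hij : i ≠ j := by
      rintro rfl
      exact hj (h0 i)
    have hil : i ≠ l := by
      rintro rfl
      exact hl (h0 i)
    apply h {i, j, l}
    have hjU : j ∈ ({i, j, l} : Finset (Fin k)) := by simp
    have hlU : l ∈ ({i, j, l} : Finset (Fin k)) := by simp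
    refine Matrix.det_zero_of_row_eq (i := ⟨j, hjU⟩) (j := ⟨l, hlU⟩)
      (fun hc => hjl (congrArg Subtype.val hc)) ?_
    have hji : a j i = 1 := by rw [hs]; exact z2_eq_one hj
    have hli : a l i = 1 := by rw [hs]; exact z2_eq_one hl
    have hsum : ∀ m : Fin k, ∑ x ∈ ({i, j, l} : Finset (Fin k)), a m x = a m i + (a m j + a m l) := by
      intro m
      rw [Finset.sum_insert (by simp [hij, hil]), Finset.sum_insert (by simp [hjl]),
        Finset.sum_singleton]
    funext x
    obtain ⟨x, hx⟩ := x
    have hx' : x = i ∨ x = j ∨ x = l := by simpa using hx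
    rcases hx' with rfl | rfl | rfl
    · rw [lap_ne (fun hc => hij (congrArg Subtype.val hc).symm),
        lap_ne (fun hc => hil (congrArg Subtype.val hc).symm)]
      show a j x = a l x
      rw [hji, hli]
    · rw [lap_self h0, lap_ne (fun hc => hjl (congrArg Subtype.val hc).symm)]
      show ∑ y ∈ ({i, x, l} : Finset (Fin k)), a x y + e x = a l x
      rw [hsum, hji, h0, he, hs l x, zero_add]
      linear_combination z2_add_self 1
    · rw [lap_self h0, lap_ne (fun hc => hjl (congrArg Subtype.val hc))]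
      show a j x = ∑ y ∈ ({i, j, x} : Finset (Fin k)), a x y + e x
      rw [hsum, hli, h0, he, hs j x, add_zero]
      linear_combination -z2_add_self 1
  · rintro ⟨he, hm⟩ U hdet
    obtain ⟨v, hv0, hv⟩ := Matrix.exists_mulVec_eq_zero_iff.2 hdet
    have hrow : ∀ i : U, (∑ l ∈ U, a i l + 1) * v i + ∑ j : U, a i j * v j = 0 := by
      intro i
      have h1 := congrFun hv i
      have h2 : (lap U e a).mulVec v i = ∑ j : U, lap U e a i j * v j := rfl
      rw [h2, Pi.zero_apply] at h1
      have h3 : ∀ j : U, lap U e a i j * v j =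
          a i j * v j + if j = i then (∑ l ∈ U, a i l + 1) * v i else 0 := by
        intro j
        by_cases hij : i = j
        · subst hij
          rw [if_pos rfl, lap_self h0, he, h0, zero_mul, zero_add]
        · rw [if_neg (fun h' => hij h'.symm), lap_ne hij, add_zero]
      rw [Finset.sum_congr rfl fun j _ => h3 j, Finset.sum_add_distrib,
        Finset.sum_ite_eq' Finset.univ i, if_pos (Finset.mem_univ i)] at h1
      rw [add_comm]
      exact h1
    apply hv0
    funext i
    rw [Pi.zero_apply]
    by_cases hex : ∃ l ∈ U, a i l ≠ 0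
    · obtain ⟨l, hl, hal⟩ := hex
      have h4 := hrow ⟨l, hl⟩
      have hali : a l i ≠ 0 := by rw [hs]; exact hal
      have h5 : ∑ m ∈ U, a l m = 1 := by
        rw [Finset.sum_eq_single (i : Fin k)]
        · exact z2_eq_one hali
        · intro m _ hm'
          by_contra hc
          exact hm' (hm l m i hc hali)
        · intro hc
          exact absurd i.2 hc
      have h6 : ∑ j : U, a l j * v j = v i := by
        rw [Finset.sum_eq_single i]
        · rw [z2_eq_one hali, one_mul]
        · intro m _ hm'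
          have : a l m = 0 := by
            by_contra hc
            exact hm' (Subtype.ext (hm l m i hc hali))
          rw [this, zero_mul]
        · intro hc
          exact absurd (Finset.mem_univ i) hc
      simp only at h4
      rw [h5, h6, z2_add_self, zero_mul, zero_add] at h4
      exact h4
    · push Not at hex
      have h4 := hrow i
      have h5 : ∑ m ∈ U, a i m = 0 := Finset.sum_eq_zero hex
      have h6 : ∑ j : U, a i j * v j = 0 :=
        Finset.sum_eq_zero fun j _ => by rw [hex j j.2, zero_mul]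
      rw [h5, h6, zero_add, one_mul, add_zero] at h4
      exact h4

/-- symmetric functions with zero diagonal -/
abbrev Sy (k : ℕ) : Type := {a : Fin k → Fin k → ZMod 2 // (∀ i j, a i j = a j i) ∧ ∀ i, a i i = 0}

theorem inv_symm {σ : Equiv.Perm (Fin k)} (h : σ * σ = 1) {i j : Fin k} (hij : σ i = j) :
    σ j = i := by
  rw [← hij]
  have : (σ * σ) i = i := by rw [h]; rfl
  exact this

/-- the matching of an involution -/
noncomputable def ofPerm (σ : {σ : Equiv.Perm (Fin k) // σ * σ = 1}) : Sy k :=
  ⟨fun i j => if i ≠ j ∧ σ.1 i = j then 1 else 0, by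
    refine ⟨fun i j => ?_, fun i => ?_⟩
    · show (if i ≠ j ∧ σ.1 i = j then (1 : ZMod 2) else 0) =
        if j ≠ i ∧ σ.1 j = i then (1 : ZMod 2) else 0
      by_cases h : i ≠ j ∧ σ.1 i = j
      · rw [if_pos h, if_pos ⟨h.1.symm, inv_symm σ.2 h.2⟩]
      · rw [if_neg h, if_neg]
        rintro ⟨h1, h2⟩
        exact h ⟨h1.symm, inv_symm σ.2 h2⟩
    · show (if i ≠ i ∧ σ.1 i = i then (1 : ZMod 2) else 0) = 0
      rw [if_neg]
      exact fun h => h.1 rfl⟩

theorem ofPerm_ne {σ : {σ : Equiv.Perm (Fin k) // σ * σ = 1}} {i j : Fin k} :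
    (ofPerm σ).1 i j ≠ 0 ↔ i ≠ j ∧ σ.1 i = j := by
  unfold ofPerm
  simp only
  by_cases h : i ≠ j ∧ σ.1 i = j
  · rw [if_pos h]
    exact ⟨fun _ => h, fun _ => one_ne_zero⟩
  · rw [if_neg h]
    exact ⟨fun h' => absurd rfl h', fun h' => absurd h' h⟩

theorem card_mat : Nat.card {a : Sy k // IsMat a.1} =
    Nat.card {σ : Equiv.Perm (Fin k) // σ * σ = 1} := by
  symm
  refine Nat.card_eq_of_bijective (fun σ => (⟨ofPerm σ, ?_⟩ : {a : Sy k // IsMat a.1})) ⟨?_, ?_⟩
  · intro i j l h1 h2
    rw [← (ofPerm_ne.1 h1).2, ← (ofPerm_ne.1 h2).2]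
  · intro σ τ h
    have h1 : ofPerm σ = ofPerm τ := congrArg Subtype.val h
    refine Subtype.ext (Equiv.ext fun i => ?_)
    by_contra hne
    by_cases hi : σ.1 i = i
    · have h2 : i ≠ τ.1 i := by
        intro hc
        exact hne (hi.trans hc)
      have h3 := (ofPerm_ne (σ := τ) (i := i) (j := τ.1 i)).2 ⟨h2, rfl⟩
      rw [← h1] at h3
      exact hne (ofPerm_ne.1 h3).2
    · have h3 := (ofPerm_ne (σ := σ) (i := i) (j := σ.1 i)).2 ⟨fun hc => hi hc.symm, rfl⟩
      rw [h1] at h3
      exact hne (ofPerm_ne.1 h3).2.symm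
  · rintro ⟨⟨a, hs, h0⟩, hm⟩
    simp only at hm
    have hex : ∀ i, ∃ j, (a i j ≠ 0) ∨ (j = i ∧ ∀ l, a i l = 0) := by
      intro i
      by_cases h : ∃ j, a i j ≠ 0
      · obtain ⟨j, hj⟩ := h
        exact ⟨j, Or.inl hj⟩
      · push Not at h
        exact ⟨i, Or.inr ⟨rfl, h⟩⟩
    choose f hf using hex
    have hff : Function.Involutive f := by
      intro i
      rcases hf i with h1 | ⟨h1, h2⟩
      · have h3 : a (f i) i ≠ 0 := by rw [hs]; exact h1
        rcases hf (f i) with h4 | ⟨-, h5⟩
        · exact hm _ _ _ h4 h3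
        · exact absurd (h5 i) h3
      · rw [h1, h1]
    refine ⟨⟨hff.toPerm f, ?_⟩, ?_⟩
    · refine Equiv.ext fun i => ?_
      exact hff i
    · refine Subtype.ext (Subtype.ext ?_)
      funext i j
      show (if i ≠ j ∧ f i = j then 1 else 0) = a i j
      by_cases haij : a i j = 0
      · rw [haij, if_neg]
        rintro ⟨h1, h2⟩
        rcases hf i with h3 | ⟨h3, -⟩
        · rw [h2] at h3
          exact h3 haij
        · exact h1 (h3.symm.trans h2)
      · rw [z2_eq_one haij, if_pos]
        refine ⟨?_, ?_⟩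
        · rintro rfl
          exact haij (h0 i)
        · rcases hf i with h3 | ⟨-, h3⟩
          · exact hm _ _ _ h3 haij
          · exact absurd (h3 j) haij

end

end Q155.KT
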