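import Pool.Agent.Q155.KT.Cnt
import Pool.Agent.Q155.KT.Mat
import Pool.Agent.Q155.KT.One

/-!
# The proportion of the tuples of split primes for which all the twists are good
-/

set_option autoImplicit false

namespace Q155.KT

open Finset Filter Topology
open Pool.Agent.Y703.CQ (nr sg prs)
open Pool.Agent.Y687.MQ (matD SP IP AdmD)
open Q283.TW
open scoped Classical

section
variable {k : ℕ}

theorem mem_Pr {e : Fin k × Fin k} : e ∈ Pr k ↔ e.1 < e.2 := by
  show e ∈ prs (univ : Finset (Fin k)) ↔ _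
  unfold prs
  simp only [Finset.mem_filter, Finset.mem_univ, true_and, forall_true_left]
  constructor
  · exact fun h => h.2
  · exact fun h => ⟨h.ne', h⟩

/-- the symmetric function of a function on the pairs -/
noncomputable def sy (α : Pr k → ZMod 2) : Sy k :=
  ⟨fun i j => if h : (i, j) ∈ Pr k then α ⟨(i, j), h⟩ else
      if h : (j, i) ∈ Pr k then α ⟨(j, i), h⟩ else 0, by
    refine ⟨fun i j => ?_, fun i => ?_⟩
    · show (if h : (i, j) ∈ Pr k then α ⟨(i, j), h⟩ else
        if h : (j, i) ∈ Pr k then α ⟨(j, i), h⟩ else 0) =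
        if h : (j, i) ∈ Pr k then α ⟨(j, i), h⟩ else
        if h : (i, j) ∈ Pr k then α ⟨(i, j), h⟩ else 0
      by_cases h1 : (i, j) ∈ Pr k
      · have h2 : (j, i) ∉ Pr k := fun h => absurd (mem_Pr.1 h) (lt_asymm (mem_Pr.1 h1))
        rw [dif_pos h1, dif_neg h2, dif_pos h1]
      · rw [dif_neg h1]
        by_cases h2 : (j, i) ∈ Pr k
        · rw [dif_pos h2, dif_pos h2]
        · rw [dif_neg h2, dif_neg h2, dif_neg h1]
    · have h1 : (i, i) ∉ Pr k := fun h => absurd (mem_Pr.1 h) (lt_irrefl _)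
      show (if h : (i, i) ∈ Pr k then α ⟨(i, i), h⟩ else
        if h : (i, i) ∈ Pr k then α ⟨(i, i), h⟩ else 0) = 0
      rw [dif_neg h1, dif_neg h1]⟩

theorem sy_apply (α : Pr k → ZMod 2) (i j : Fin k) : (sy α).1 i j =
    if h : (i, j) ∈ Pr k then α ⟨(i, j), h⟩ else
      if h : (j, i) ∈ Pr k then α ⟨(j, i), h⟩ else 0 := rfl

theorem sy_of (f : Fin k → Fin k → ZMod 2) (hs : ∀ i j, f i j = f j i) (h0 : ∀ i, f i i = 0) :
    (sy fun e : Pr k => f e.1.1 e.1.2).1 = f := by
  funext i j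
  rw [sy_apply]
  rcases lt_trichotomy i j with h | h | h
  · rw [dif_pos (mem_Pr.2 h)]
  · subst h
    have h1 : (i, i) ∉ Pr k := fun h => absurd (mem_Pr.1 h) (lt_irrefl _)
    rw [dif_neg h1, dif_neg h1, h0]
  · rw [dif_neg (fun h' => absurd (mem_Pr.1 h') (lt_asymm h)), dif_pos (mem_Pr.2 h), hs]

/-- functions on the pairs and symmetric functions -/
noncomputable def syEquiv (k : ℕ) : (Pr k → ZMod 2) ≃ Sy k where
  toFun := sy
  invFun a := fun e => a.1 e.1.1 e.1.2
  left_inv α := by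
    funext e
    show (sy α).1 e.1.1 e.1.2 = α e
    rw [sy_apply, dif_pos e.2]
  right_inv a := Subtype.ext (sy_of a.1 a.2.1 a.2.2)

theorem card_Pr (k : ℕ) : (Pr k).card = k * (k - 1) / 2 := by
  have h1 : (Pr k).card = ∑ j : Fin k, (j : ℕ) := by
    rw [Finset.card_eq_sum_card_fiberwise (f := fun e : Fin k × Fin k => e.2) (t := univ)
      (fun _ _ => Finset.mem_coe.2 (Finset.mem_univ _))]
    refine Finset.sum_congr rfl fun j _ => ?_
    have : (Pr k).filter (fun e => e.2 = j) = (Finset.Iio j).image fun i => (i, j) := by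
      ext e
      rw [Finset.mem_filter, mem_Pr, Finset.mem_image]
      constructor
      · rintro ⟨a1, rfl⟩
        exact ⟨e.1, Finset.mem_Iio.2 a1, rfl⟩
      · rintro ⟨i, hi, rfl⟩
        exact ⟨Finset.mem_Iio.1 hi, rfl⟩
    rw [this, Finset.card_image_of_injective _ (fun a b hab => congrArg Prod.fst hab), Fin.card_Iio]
  rw [h1, Fin.sum_univ_eq_sum_range (fun i => i) k, Finset.sum_range_id]

end

/-- the values of a function on `R`, continued by zero -/
noncomputable def val {R : Finset ℕ} (v : R → ZMod 2) (r : ℕ) : ZMod 2 :=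
  if h : r ∈ R then v ⟨r, h⟩ else 0

/-- the data -/
abbrev Dta (R : Finset ℕ) (k : ℕ) : Type := (Fin k → Lb R) × Sy k

/-- the good data -/
def GoodD (𝒟 : Finset ℤ) {R : Finset ℕ} {k : ℕ} (x : Dta R k) : Prop :=
  ∀ D ∈ 𝒟, ∀ U : Finset (Fin k),
    (big D U (fun i => val (x.1 i).1) (fun i => (x.1 i).2) x.2.1).det ≠ 0

/-- the primes dividing the elements of the set -/
def prm (𝒟 : Finset ℤ) : Finset ℕ := 𝒟.biUnion fun D => D.natAbs.primeFactors

theorem card_dta (R : Finset ℕ) (k : ℕ) :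
    Nat.card (Dta R k) = 2 ^ (k * (R.card + 1) + (Pr k).card) := by
  rw [Nat.card_prod, Nat.card_fun, card_lb, ← Nat.card_congr (syEquiv k), Nat.card_fun,
    Nat.card_zmod, Nat.card_eq_fintype_card, Nat.card_eq_fintype_card, Fintype.card_fin,
    Fintype.card_coe, ← pow_mul, pow_add, mul_comm (R.card + 1) k]

theorem big_congr {D : ℤ} {k : ℕ} {U : Finset (Fin k)} {v v' : Fin k → ℕ → ZMod 2}
    {e : Fin k → ZMod 2} {a : Fin k → Fin k → ZMod 2}
    (h : ∀ i, ∀ r ∈ D.natAbs.primeFactors, v i r = v' i r) : big D U v e a = big D U v' e a := by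
  have h' : ∀ i, ∀ r : SP D, v i r = v' i r := fun i r => h i r (Finset.mem_filter.1 r.2).1
  unfold big
  congr 1
  · congr 2
    funext r
    exact Finset.sum_congr rfl fun i _ => h' i r
  · ext r i
    exact h' i r
  · ext i r
    exact h' i r
  · ext i j
    rw [Matrix.of_apply, Matrix.of_apply, Finset.sum_congr rfl (h i)]

/-- **The proportion of the good tuples.** -/
theorem main (𝒟 : Finset ℤ) (h : ∀ D ∈ 𝒟, AdmD D) (k : ℕ) (T : (Fin k → ℕ) → Prop)
    (hT : ∀ p : Fin k → ℕ, (∀ i, Spl (p i)) → (T p ↔ Function.Injective p ∧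
      (∀ i, p i ∉ prm 𝒟) ∧ ∀ D ∈ 𝒟, ∀ U : Finset (Fin k),
        (matD (D * ∏ j ∈ U, ((p j : ℕ) : ℤ))).det ≠ 0)) :
    Tendsto (fun X : ℕ => (((tup k X).filter fun p => T p).card : ℝ) / ((tup k X).card : ℝ)) atTop
      (𝓝 ((Nat.card {x : Dta (prm 𝒟) k // GoodD 𝒟 x} : ℝ) / (Nat.card (Dta (prm 𝒟) k) : ℝ))) := by
  have hR : ∀ r ∈ prm 𝒟, r.Prime ∧ r ≠ 2 ∧ r ≠ 7 := by
    intro r hr
    obtain ⟨D, hD, hr'⟩ := Finset.mem_biUnion.1 hr
    have h1 := (h D hD).2.2.2 r (Nat.prime_of_mem_primeFactors hr')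
      (Int.natCast_dvd.2 (Nat.dvd_of_mem_primeFactors hr'))
    refine ⟨Nat.prime_of_mem_primeFactors hr', ?_, ?_⟩
    · rintro rfl
      rcases h1.2 with h | h
      · have := h.2.1; omega
      · have := h.2.1; omega
    · rintro rfl
      rcases h1.2 with h | h
      · have := h.2.2; omega
      · have := h.2.2; omega
  have h1 := count_inj k (prm 𝒟) hR (fun l α => GoodD 𝒟 (R := prm 𝒟) (l, sy α)) T (by
    intro p hp
    rw [hT p hp]
    refine and_congr_right fun hinj => and_congr_right fun hpR => ?_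
    refine forall_congr' fun D => forall_congr' fun hD => forall_congr' fun U => ?_
    have hpD : ∀ i, p i ∉ D.natAbs.primeFactors := fun i hi =>
      hpR i (Finset.mem_biUnion.2 ⟨D, hD, hi⟩)
    rw [det_big (h D hD) hp hinj hpD U]
    have e1 : (sy fun e : Pr k => nrp (p e.1.1) (p e.1.2)).1 = fun i j => nrp (p i) (p j) :=
      sy_of (fun i j => nrp (p i) (p j)) (fun i j => nrp_symm (hp i) (hp j)) fun i => nrp_self _
    rw [e1]
    rw [big_congr (v' := fun i => val (lab (prm 𝒟) (p i)).1) (fun i r hr => by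
      have hrp : r ∈ prm 𝒟 := Finset.mem_biUnion.2 ⟨D, hD, hr⟩
      unfold val lab
      rw [dif_pos hrp])]
    exact Iff.rfl)
  have h2 : (Nat.card {x : (Fin k → Lb (prm 𝒟)) × (Pr k → ZMod 2) //
      GoodD 𝒟 (R := prm 𝒟) (x.1, sy x.2)} : ℝ) =
      (Nat.card {x : Dta (prm 𝒟) k // GoodD 𝒟 x} : ℝ) := by
    congr 1
    refine Nat.card_congr (Equiv.subtypeEquiv ((Equiv.refl _).prodCongr (syEquiv k)) ?_)
    intro x
    rfl
  rw [h2] at h1
  have h3 : (Nat.card (Dta (prm 𝒟) k) : ℝ) = 2 ^ (k * ((prm 𝒟).card + 1) + (Pr k).card) := by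
    rw [card_dta]
    push_cast
    rfl
  rw [h3]
  exact h1

/-- **Positivity.** -/
theorem good_pos (𝒟 : Finset ℤ) (R : Finset ℕ) (k : ℕ) (h : ∀ D ∈ 𝒟, (matD D).det ≠ 0) :
    0 < Nat.card {x : Dta R k // GoodD 𝒟 x} := by
  have h0 : Nonempty {x : Dta R k // GoodD 𝒟 x} := by
    refine ⟨⟨(fun _ => (0, 1), ⟨0, fun _ _ => rfl, fun _ => rfl⟩), ?_⟩⟩
    intro D hD U
    have hv : ∀ r : ℕ, val (0 : R → ZMod 2) r = 0 := by
      intro r
      unfold val
      by_cases hr : r ∈ R
      · rw [dif_pos hr]; rfl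
      · rw [dif_neg hr]
    have e : big D U (fun _ => val (0 : R → ZMod 2)) (fun _ => 1) 0 =
        Matrix.fromBlocks (matD D) 0 0 1 := by
      unfold big
      congr 1
      · have : (fun r : SP D => ∑ i ∈ U, val (0 : R → ZMod 2) r) = 0 := by
          funext r
          rw [Pi.zero_apply]
          exact Finset.sum_eq_zero fun _ _ => hv r
        have h0 : Matrix.diagonal (0 : SP D → ZMod 2) = 0 := Matrix.diagonal_zero
        rw [this, h0, add_zero]
      · ext r i
        exact hv r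
      · ext i r
        exact hv r
      · ext i j
        rw [Matrix.of_apply, Matrix.one_apply]
        by_cases hij : i = j
        · rw [if_pos hij, if_pos hij, Finset.sum_eq_zero fun r _ => hv r]
          show 0 + ∑ l ∈ U.erase (i : Fin k), (0 : ZMod 2) + 1 = 1
          rw [Finset.sum_const_zero, zero_add, zero_add]
        · rw [if_neg hij, if_neg hij]
          rfl
    show (big D U (fun _ => val (0 : R → ZMod 2)) (fun _ => 1) 0).det ≠ 0
    rw [e, Matrix.det_fromBlocks_zero₂₁, Matrix.det_one, mul_one]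
    exact h D hD
  exact Nat.card_pos

/-! ### the base `D = 1` -/

theorem big_one {k : ℕ} (U : Finset (Fin k)) (v : Fin k → ℕ → ZMod 2) (e : Fin k → ZMod 2)
    (a : Fin k → Fin k → ZMod 2) : (big 1 U v e a).det = (lap U e a).det := by
  have hpf : (1 : ℤ).natAbs.primeFactors = ∅ := by simp
  have : IsEmpty (SP 1) := by
    refine ⟨fun x => ?_⟩
    have := (Finset.mem_filter.1 x.2).1
    rw [hpf] at this
    exact absurd this (Finset.notMem_empty _)
  unfold big
  have e1 : (Matrix.of fun (i : U) (r : SP 1) => v i r) = 0 := by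
    ext i r
    exact (IsEmpty.false r).elim
  rw [e1, Matrix.det_fromBlocks_zero₂₁, Matrix.det_isEmpty, one_mul]
  unfold lap
  congr 1
  ext i j
  rw [Matrix.of_apply, Matrix.of_apply, hpf, Finset.sum_empty, zero_add]

theorem good_one {k : ℕ} {R : Finset ℕ} (x : Dta R k) :
    GoodD {1} x ↔ (∀ i, (x.1 i).2 = 1) ∧ IsMat x.2.1 := by
  unfold GoodD
  rw [← lap_iff x.2.2.1 x.2.2.2]
  constructor
  · intro h U
    rw [← big_one U (fun i => val (x.1 i).1)]
    exact h 1 (Finset.mem_singleton_self 1) U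
  · intro h D hD U
    rw [Finset.mem_singleton] at hD
    subst hD
    rw [big_one]
    exact h U

theorem card_one (k : ℕ) (R : Finset ℕ) (hR : R = ∅) :
    (Nat.card {x : Dta R k // GoodD {1} x} : ℝ) / (Nat.card (Dta R k) : ℝ) =
      (Nat.card {σ : Equiv.Perm (Fin k) // σ * σ = 1} : ℝ) / 2 ^ (k * (k + 1) / 2) := by
  subst hR
  have e1 : Nat.card {x : Dta (∅ : Finset ℕ) k // GoodD {1} x} =
      Nat.card {σ : Equiv.Perm (Fin k) // σ * σ = 1} := by
    rw [← card_mat]
    symm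
    refine Nat.card_eq_of_bijective (fun a => (⟨(fun _ => (0, 1), a.1), ?_⟩ :
      {x : Dta (∅ : Finset ℕ) k // GoodD {1} x})) ⟨?_, ?_⟩
    · rw [good_one]
      exact ⟨fun _ => rfl, a.2⟩
    · intro a b hab
      have h1 := congrArg (fun x => x.1.2) hab
      exact Subtype.ext h1
    · rintro ⟨⟨l, a⟩, hx⟩
      rw [good_one] at hx
      refine ⟨⟨a, hx.2⟩, ?_⟩
      refine Subtype.ext (Prod.ext ?_ rfl)
      funext i
      refine Prod.ext ?_ (hx.1 i).symm
      funext r
      exact absurd r.2 (Finset.notMem_empty _)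
  have e2 : k * (0 + 1) + k * (k - 1) / 2 = k * (k + 1) / 2 := by
    rcases Nat.eq_zero_or_pos k with rfl | hk
    · rfl
    · obtain ⟨m, rfl⟩ : ∃ m, k = m + 1 := ⟨k - 1, by omega⟩
      have h1 : (m + 1) * (m + 1 - 1) = m * (m + 1) := by
        rw [Nat.add_sub_cancel, mul_comm]
      have h2 : (m + 1) * (m + 1 + 1) = m * (m + 1) + 2 * (m + 1) := by ring
      rw [h1, h2]
      omega
  rw [e1, card_dta, card_Pr, Finset.card_empty, e2]
  push_cast
  rfl

end Q155.KT
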