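import Pool.Agent.Q155.KT.Chain

/-!
# The law of the kernel after many borderings
-/

set_option autoImplicit false
set_option linter.unusedSectionVars false

namespace Q155.KT

open Finset Matrix Q283.TW
open Pool.Agent.Q1.PT (avg avg_equiv avg_prod avg_mono avg_const avg_add avg_sub abs_avg avg_hom)
open Pool.Agent.Y703.CQ (c2)

section
variable {n : Type} [Fintype n] [DecidableEq n]

theorem avg_z2 (f : ZMod 2 → ℝ) : avg f = (f 0 + f 1) / 2 := by
  unfold avg
  rw [ZMod.card]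
  congr 1
  exact Fin.sum_univ_two f

theorem avg_ite (P : (n → ZMod 2) → Prop) [DecidablePred P] (A B : ℝ) :
    avg (fun v => if P v then A else B) =
      (Nat.card {v // P v} : ℝ) / 2 ^ Fintype.card n * A +
        (1 - (Nat.card {v // P v} : ℝ) / 2 ^ Fintype.card n) * B := by
  have hc : (Fintype.card (n → ZMod 2) : ℝ) = 2 ^ Fintype.card n := by
    rw [Fintype.card_fun, ZMod.card]
    push_cast
    rfl
  have h0 : (2 : ℝ) ^ Fintype.card n ≠ 0 := by positivity
  have h1 : ∀ v, (if P v then A else B) = B + (if P v then (A - B) else 0) := by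
    intro v
    split_ifs <;> ring
  unfold avg
  simp_rw [h1]
  rw [Finset.sum_add_distrib, Finset.sum_const, ← Finset.sum_filter, Finset.sum_const,
    Finset.card_univ, nsmul_eq_mul, nsmul_eq_mul, Nat.card_eq_fintype_card, Fintype.card_subtype, hc]
  field_simp
  ring

/-- **One standard bordering.** -/
theorem avg_sb {N : Matrix n n (ZMod 2)} (hN : N.IsSymm) (F : ℕ → ℝ) :
    avg (fun x : (n → ZMod 2) × ZMod 2 => F (kz (sb N x.1 x.2))) =
      (1 - 1 / (kz N : ℝ)) * F (kz N / 2) + 1 / (2 * (kz N : ℝ)) * (F (kz N) + F (2 * kz N)) := by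
  classical
  rw [avg_prod]
  have h1 : ∀ v : n → ZMod 2, avg (fun d : ZMod 2 => F (kz (sb N v d))) =
      if ∃ w, N *ᵥ w = v then (F (kz N) + F (2 * kz N)) / 2 else F (kz N / 2) := by
    intro v
    by_cases hv : ∃ w, N *ᵥ w = v
    · rw [if_pos hv]
      obtain ⟨w, rfl⟩ := hv
      rw [avg_z2, kz_sb_in hN, kz_sb_in hN]
      rcases z2_all (w ⬝ᵥ (N *ᵥ w)) with h | h
      · rw [h, if_pos rfl, if_neg one_ne_zero]
        ring
      · rw [h, if_neg zero_ne_one, if_pos rfl]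
    · rw [if_neg hv]
      have : (fun d : ZMod 2 => F (kz (sb N v d))) = fun _ => F (kz N / 2) := by
        funext d
        rw [kz_sb_out hN hv]
      rw [this, avg_const]
  show avg (fun v => avg fun d => F (kz (sb N v d))) = _
  simp_rw [h1]
  rw [avg_ite]
  have h2 := card_range_mul N
  have hz : (0 : ℝ) < kz N := by exact_mod_cast kz_pos N
  have h3 : (Nat.card {v : n → ZMod 2 // ∃ w, N *ᵥ w = v} : ℝ) / 2 ^ Fintype.card n =
      1 / (kz N : ℝ) := by
    have h4 : (kz N : ℝ) * (Nat.card {v : n → ZMod 2 // ∃ w, N *ᵥ w = v} : ℝ) =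
        2 ^ Fintype.card n := by exact_mod_cast h2
    have h0 : (2 : ℝ) ^ Fintype.card n ≠ 0 := by positivity
    rw [div_eq_div_iff h0 hz.ne', ← h4]
    ring
  rw [h3]
  field_simp
  ring

theorem sb_symm {N : Matrix n n (ZMod 2)} (hN : N.IsSymm) (v : n → ZMod 2) (d : ZMod 2) :
    (sb N v d).IsSymm := by
  refine Matrix.IsSymm.ext fun i j => ?_
  unfold sb
  rcases i with i | i <;> rcases j with j | j
  · exact hN.apply i j
  · rfl
  · rfl
  · rfl

theorem bord_symm {N : Matrix n n (ZMod 2)} (hN : N.IsSymm) (v : n → ZMod 2) (d : ZMod 2) :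
    (bord N v d).IsSymm := by
  refine Matrix.IsSymm.ext fun i j => ?_
  unfold bord
  rcases i with i | i <;> rcases j with j | j
  · show N j i + Matrix.diagonal v j i = N i j + Matrix.diagonal v i j
    rw [hN.apply i j, Matrix.diagonal_apply, Matrix.diagonal_apply]
    congr 1
    by_cases h : i = j
    · subst h
      rfl
    · rw [if_neg h, if_neg (fun h' => h h'.symm)]
  · rfl
  · rfl
  · rfl

/-- the iterated transition -/
noncomputable def gF (F : ℕ → ℝ) : ℕ → ℕ → ℝ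
  | 0, z => F z
  | k + 1, z => (1 - 1 / (z : ℝ)) * gF F k (z / 2) + 1 / (2 * (z : ℝ)) * (gF F k z + gF F k (2 * z))

theorem gF_zero (F : ℕ → ℝ) (z : ℕ) : gF F 0 z = F z := rfl

theorem gF_succ (F : ℕ → ℝ) (k z : ℕ) : gF F (k + 1) z =
    (1 - 1 / (z : ℝ)) * gF F k (z / 2) + 1 / (2 * (z : ℝ)) * (gF F k z + gF F k (2 * z)) := rfl

end

/-- the mean of `F (kz N')` over the `k`-fold standard borderings `N'` of `N` -/
noncomputable def aq : (k : ℕ) → (ℕ → ℝ) → {n : Type} → [Fintype n] → [DecidableEq n] →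
    Matrix n n (ZMod 2) → ℝ
  | 0, F, _, _, _, N => F (kz N)
  | k + 1, F, n, _, _, N => avg fun x : (n → ZMod 2) × ZMod 2 => aq k F (sb N x.1 x.2)

/-- the mean of `F (kz N')` over the `k`-fold Laplacian borderings `N'` of `N` -/
noncomputable def ap : (k : ℕ) → (ℕ → ℝ) → {n : Type} → [Fintype n] → [DecidableEq n] →
    Matrix n n (ZMod 2) → ℝ
  | 0, F, _, _, _, N => F (kz N)
  | k + 1, F, n, _, _, N => avg fun x : (n → ZMod 2) × ZMod 2 => ap k F (bord N x.1 x.2)

theorem aq_zero (F : ℕ → ℝ) {n : Type} [Fintype n] [DecidableEq n] (N : Matrix n n (ZMod 2)) :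
    aq 0 F N = F (kz N) := rfl

theorem aq_succ (k : ℕ) (F : ℕ → ℝ) {n : Type} [Fintype n] [DecidableEq n]
    (N : Matrix n n (ZMod 2)) :
    aq (k + 1) F N = avg fun x : (n → ZMod 2) × ZMod 2 => aq k F (sb N x.1 x.2) := rfl

theorem ap_zero (F : ℕ → ℝ) {n : Type} [Fintype n] [DecidableEq n] (N : Matrix n n (ZMod 2)) :
    ap 0 F N = F (kz N) := rfl

theorem ap_succ (k : ℕ) (F : ℕ → ℝ) {n : Type} [Fintype n] [DecidableEq n]
    (N : Matrix n n (ZMod 2)) :
    ap (k + 1) F N = avg fun x : (n → ZMod 2) × ZMod 2 => ap k F (bord N x.1 x.2) := rfl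

theorem aq_eq (F : ℕ → ℝ) (k : ℕ) : ∀ {n : Type} [Fintype n] [DecidableEq n]
    {N : Matrix n n (ZMod 2)}, N.IsSymm → aq k F N = gF F k (kz N) := by
  induction k with
  | zero =>
    intro n _ _ N _
    rfl
  | succ k ih =>
    intro n _ _ N hN
    rw [aq_succ]
    have h : ∀ x : (n → ZMod 2) × ZMod 2, aq k F (sb N x.1 x.2) = gF F k (kz (sb N x.1 x.2)) :=
      fun x => ih (sb_symm hN x.1 x.2)
    simp_rw [h]
    exact avg_sb hN (gF F k)

section
variable {n : Type} [Fintype n] [DecidableEq n]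

theorem bord_mulVec (N : Matrix n n (ZMod 2)) (v : n → ZMod 2) (d : ZMod 2) (x : n → ZMod 2)
    (t : ZMod 2) : bord N v d *ᵥ (Sum.elim x fun _ => t) =
      Sum.elim (N *ᵥ x + v * x + t • v) fun _ => v ⬝ᵥ x + d * t := by
  unfold bord
  rw [Matrix.fromBlocks_mulVec]
  have e1 : (Sum.elim x fun _ : Unit => t) ∘ Sum.inl = x := rfl
  have e2 : (Sum.elim x fun _ : Unit => t) ∘ Sum.inr = fun _ => t := rfl
  rw [e1, e2]
  congr 1
  · rw [Matrix.add_mulVec]
    congr 1
    · congr 1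
      funext i
      rw [Matrix.mulVec_diagonal]
      rfl
    · funext i
      simp [Matrix.mulVec, dotProduct, mul_comm]
  · funext i
    simp [Matrix.mulVec, dotProduct]

/-- two Laplacian borderings and one Laplacian bordering with one standard bordering -/
theorem kz_two (M : Matrix n n (ZMod 2)) (v : n → ZMod 2) (d : ZMod 2) (s : n ⊕ Unit → ZMod 2)
    (d' : ZMod 2) : kz (bord (bord M v d) s d') =
      kz (sb (bord M (v + s ∘ Sum.inl) (d + s (Sum.inr ()) + d'))
        (Sum.elim (s ∘ Sum.inl) fun _ => s (Sum.inr ()) + d') d') := by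
  unfold kz
  symm
  let E : ((n ⊕ Unit) ⊕ Unit → ZMod 2) ≃ ((n ⊕ Unit) ⊕ Unit → ZMod 2) :=
    { toFun := fun x => Sum.elim (x ∘ Sum.inl) fun _ => x (Sum.inr ()) + x (Sum.inl (Sum.inr ()))
      invFun := fun x => Sum.elim (x ∘ Sum.inl) fun _ => x (Sum.inr ()) + x (Sum.inl (Sum.inr ()))
      left_inv := fun x => by
        funext w
        rcases w with w | w
        · rfl
        · show x (Sum.inr ()) + x (Sum.inl (Sum.inr ())) + x (Sum.inl (Sum.inr ())) = x (Sum.inr w)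
          rw [add_assoc, z2_dbl, add_zero]
      right_inv := fun x => by
        funext w
        rcases w with w | w
        · rfl
        · show x (Sum.inr ()) + x (Sum.inl (Sum.inr ())) + x (Sum.inl (Sum.inr ())) = x (Sum.inr w)
          rw [add_assoc, z2_dbl, add_zero] }
  refine Nat.card_congr (Equiv.subtypeEquiv E ?_)
  intro x
  obtain ⟨a, b, c, hx⟩ : ∃ (a : n → ZMod 2) (b c : ZMod 2),
      x = Sum.elim (Sum.elim a fun _ => b) fun _ => c := by
    refine ⟨fun i => x (Sum.inl (Sum.inl i)), x (Sum.inl (Sum.inr ())), x (Sum.inr ()), ?_⟩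
    funext w
    rcases w with (w | w) | w <;> rfl
  obtain ⟨s₁, t, hs⟩ : ∃ (s₁ : n → ZMod 2) (t : ZMod 2), s = Sum.elim s₁ fun _ => t := by
    refine ⟨fun i => s (Sum.inl i), s (Sum.inr ()), ?_⟩
    funext w
    rcases w with w | w <;> rfl
  have hE : E x = Sum.elim (Sum.elim a fun _ => b) fun _ => c + b := by
    rw [hx]
    rfl
  have hs1 : s ∘ Sum.inl = s₁ := by rw [hs]; rfl
  have hs2 : s (Sum.inr ()) = t := by rw [hs]; rfl
  rw [hE, hs1, hs2, hx, sb_mulVec, bord_mulVec, bord_mulVec, bord_mulVec, hs]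
  have e1 : (Sum.elim s₁ fun _ : Unit => t) ⬝ᵥ (Sum.elim a fun _ => b) = s₁ ⬝ᵥ a + t * b := by
    simp [dotProduct, Fintype.sum_sum_type]
  have e2 : (Sum.elim s₁ fun _ : Unit => t + d') ⬝ᵥ (Sum.elim a fun _ => b) =
      s₁ ⬝ᵥ a + (t + d') * b := by
    simp [dotProduct, Fintype.sum_sum_type]
  rw [e1, e2]
  constructor
  · intro h
    have h1 : ∀ i, (M *ᵥ a) i + (v i + s₁ i) * a i + b * (v i + s₁ i) + c * s₁ i = 0 :=
      fun i => congrFun h (Sum.inl (Sum.inl i))
    have h2 : (v + s₁) ⬝ᵥ a + (d + t + d') * b + c * (t + d') = 0 :=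
      congrFun h (Sum.inl (Sum.inr ()))
    have h3 : s₁ ⬝ᵥ a + (t + d') * b + d' * c = 0 := congrFun h (Sum.inr ())
    rw [add_dotProduct] at h2
    funext w
    rcases w with (i | i) | i
    · show (M *ᵥ a) i + v i * a i + b * v i + s₁ i * a i + (c + b) * s₁ i = 0
      linear_combination h1 i
    · show v ⬝ᵥ a + d * b + t * b + (c + b) * t = 0
      linear_combination h2 - h3 + z2_dbl (t * b)
    · show s₁ ⬝ᵥ a + t * b + d' * (c + b) = 0
      linear_combination h3
  · intro h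
    have h1 : ∀ i, (M *ᵥ a) i + v i * a i + b * v i + s₁ i * a i + (c + b) * s₁ i = 0 :=
      fun i => congrFun h (Sum.inl (Sum.inl i))
    have h2 : v ⬝ᵥ a + d * b + t * b + (c + b) * t = 0 := congrFun h (Sum.inl (Sum.inr ()))
    have h3 : s₁ ⬝ᵥ a + t * b + d' * (c + b) = 0 := congrFun h (Sum.inr ())
    funext w
    rcases w with (i | i) | i
    · show (M *ᵥ a) i + (v i + s₁ i) * a i + b * (v i + s₁ i) + c * s₁ i = 0
      linear_combination h1 i
    · show (v + s₁) ⬝ᵥ a + (d + t + d') * b + c * (t + d') = 0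
      rw [add_dotProduct]
      linear_combination h2 + h3 - z2_dbl (t * b)
    · show s₁ ⬝ᵥ a + (t + d') * b + d' * c = 0
      linear_combination h3

/-- the change of variables -/
def tw (n : Type) : (((n → ZMod 2) × ZMod 2) × ((n ⊕ Unit → ZMod 2) × ZMod 2)) ≃
    (((n → ZMod 2) × ZMod 2) × ((n ⊕ Unit → ZMod 2) × ZMod 2)) where
  toFun p := ((p.1.1 + p.2.1 ∘ Sum.inl, p.1.2 + p.2.1 (Sum.inr ()) + p.2.2),
    (Sum.elim (p.2.1 ∘ Sum.inl) fun _ => p.2.1 (Sum.inr ()) + p.2.2, p.2.2))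
  invFun p := ((p.1.1 + p.2.1 ∘ Sum.inl, p.1.2 + p.2.1 (Sum.inr ())),
    (Sum.elim (p.2.1 ∘ Sum.inl) fun _ => p.2.1 (Sum.inr ()) + p.2.2, p.2.2))
  left_inv p := by
    obtain ⟨⟨v, d⟩, s, d'⟩ := p
    refine Prod.ext (Prod.ext ?_ ?_) (Prod.ext ?_ rfl)
    · funext i
      show v i + s (Sum.inl i) + s (Sum.inl i) = v i
      rw [add_assoc, z2_dbl, add_zero]
    · show d + s (Sum.inr ()) + d' + (s (Sum.inr ()) + d') = d
      linear_combination z2_dbl (s (Sum.inr ())) + z2_dbl d'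
    · funext w
      rcases w with w | w
      · rfl
      · show s (Sum.inr ()) + d' + d' = s (Sum.inr w)
        rw [add_assoc, z2_dbl, add_zero]
  right_inv p := by
    obtain ⟨⟨v, d⟩, s, d'⟩ := p
    refine Prod.ext (Prod.ext ?_ ?_) (Prod.ext ?_ rfl)
    · funext i
      show v i + s (Sum.inl i) + s (Sum.inl i) = v i
      rw [add_assoc, z2_dbl, add_zero]
    · show d + s (Sum.inr ()) + (s (Sum.inr ()) + d') + d' = d
      linear_combination z2_dbl (s (Sum.inr ())) + z2_dbl d'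
    · funext w
      rcases w with w | w
      · rfl
      · show s (Sum.inr ()) + d' + d' = s (Sum.inr w)
        rw [add_assoc, z2_dbl, add_zero]

end

/-- **Laplacian borderings in terms of standard borderings.** -/
theorem ap_eq (F : ℕ → ℝ) (k : ℕ) : ∀ {n : Type} [Fintype n] [DecidableEq n]
    {M : Matrix n n (ZMod 2)}, M.IsSymm → ap (k + 1) F M =
      avg fun x : (n → ZMod 2) × ZMod 2 => gF F k (kz (bord M x.1 x.2)) := by
  induction k with
  | zero =>
    intro n _ _ M _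
    rfl
  | succ k ih =>
    intro n _ _ M hM
    rw [ap_succ]
    have h : ∀ x : (n → ZMod 2) × ZMod 2, ap (k + 1) F (bord M x.1 x.2) =
        avg fun y : (n ⊕ Unit → ZMod 2) × ZMod 2 => gF F k (kz (bord (bord M x.1 x.2) y.1 y.2)) :=
      fun x => ih (bord_symm hM x.1 x.2)
    simp_rw [h]
    have h' : ∀ x : (n → ZMod 2) × ZMod 2, gF F (k + 1) (kz (bord M x.1 x.2)) =
        avg fun y : (n ⊕ Unit → ZMod 2) × ZMod 2 => gF F k (kz (sb (bord M x.1 x.2) y.1 y.2)) := by
      intro x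
      rw [avg_sb (bord_symm hM x.1 x.2) (gF F k), gF_succ]
    simp_rw [h']
    rw [← avg_prod (fun p : ((n → ZMod 2) × ZMod 2) × ((n ⊕ Unit → ZMod 2) × ZMod 2) =>
        gF F k (kz (bord (bord M p.1.1 p.1.2) p.2.1 p.2.2))),
      ← avg_prod (fun p : ((n → ZMod 2) × ZMod 2) × ((n ⊕ Unit → ZMod 2) × ZMod 2) =>
        gF F k (kz (sb (bord M p.1.1 p.1.2) p.2.1 p.2.2)))]
    refine Eq.trans ?_ (avg_equiv (tw n)
      (fun p : ((n → ZMod 2) × ZMod 2) × ((n ⊕ Unit → ZMod 2) × ZMod 2) =>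
        gF F k (kz (sb (bord M p.1.1 p.1.2) p.2.1 p.2.2))))
    congr 1
    funext p
    show gF F k (kz (bord (bord M p.1.1 p.1.2) p.2.1 p.2.2)) = _
    rw [kz_two]
    rfl

/-! ### the two functions -/

/-- the mean number of the elements of the kernel -/
theorem gF_id (k : ℕ) : ∀ c : ℕ, gF (fun z => (z : ℝ)) k (2 ^ c) = 2 + (2 ^ c - 2) / 2 ^ k := by
  induction k with
  | zero =>
    intro c
    rw [gF_zero]
    push_cast
    ring
  | succ k ih =>
    intro c
    rw [gF_succ, ih c, show 2 * 2 ^ c = 2 ^ (c + 1) from by ring, ih (c + 1)]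
    rcases c with _ | c
    · norm_num
      field_simp
      ring
    · rw [show (2 ^ (c + 1) / 2 : ℕ) = 2 ^ c from by rw [pow_succ, Nat.mul_div_cancel _ (by norm_num)],
        ih c]
      push_cast
      have h1 : (2 : ℝ) ^ c ≠ 0 := by positivity
      have h2 : (2 : ℝ) ^ k ≠ 0 := by positivity
      rw [pow_succ (2 : ℝ) k, pow_succ (2 : ℝ) (c + 1), pow_succ (2 : ℝ) c]
      field_simp
      ring

/-- the indicator -/
noncomputable def F0 (z : ℕ) : ℝ := if z = 1 then 1 else 0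

/-- the proportion of the nonsingular symmetric matrices -/
noncomputable def kp (m : ℕ) : ℝ := ∏ i ∈ range ((m + 1) / 2), (1 - (1 / 2 : ℝ) ^ (2 * i + 1))

theorem kp_rec (m : ℕ) : 2 * kp (m + 1) = kp m + (1 - (1 / 2 : ℝ) ^ m) * kp (m - 1) := by
  unfold kp
  rcases Nat.even_or_odd' m with ⟨j, rfl | rfl⟩
  · rcases j with _ | j
    · norm_num
    · have h1 : (2 * (j + 1) + 1 + 1) / 2 = j + 2 := by omega
      have h2 : (2 * (j + 1) + 1) / 2 = j + 1 := by omega
      have h3 : (2 * (j + 1) - 1 + 1) / 2 = j + 1 := by omega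
      rw [h1, h2, h3, Finset.prod_range_succ _ (j + 1)]
      rw [show 2 * (j + 1) + 1 = 2 * (j + 1) + 1 from rfl, pow_succ (1 / 2 : ℝ) (2 * (j + 1))]
      ring
  · have h1 : (2 * j + 1 + 1 + 1) / 2 = j + 1 := by omega
    have h2 : (2 * j + 1 + 1) / 2 = j + 1 := by omega
    have h3 : (2 * j + 1 - 1 + 1) / 2 = j := by omega
    rw [h1, h2, h3, Finset.prod_range_succ]
    ring

/-- the probability that a random matrix has full column rank -/
noncomputable def PP (k c : ℕ) : ℝ := ∏ i ∈ range c, (1 - (2 : ℝ) ^ i / 2 ^ k)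

theorem PP_succ (k c : ℕ) : PP k (c + 1) = PP k c * (1 - (2 : ℝ) ^ c / 2 ^ k) :=
  Finset.prod_range_succ _ _

theorem PP_shift (k c : ℕ) : PP (k + 1) (c + 1) = (1 - 1 / (2 : ℝ) ^ (k + 1)) * PP k c := by
  unfold PP
  rw [Finset.prod_range_succ', pow_zero, mul_comm]
  congr 1
  refine Finset.prod_congr rfl fun i _ => ?_
  rw [pow_succ, pow_succ]
  congr 1
  field_simp

theorem PP_zero {k c : ℕ} (h : k < c) : PP k c = 0 := by
  unfold PP
  refine Finset.prod_eq_zero (Finset.mem_range.2 h) ?_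
  rw [div_self (by positivity), sub_self]

theorem gF_F0 (k : ℕ) : ∀ c : ℕ, gF F0 k (2 ^ c) = PP k c * kp (k - c) := by
  induction k with
  | zero =>
    intro c
    rw [gF_zero]
    unfold F0
    rcases c with _ | c
    · norm_num [PP, kp]
    · rw [PP_zero (Nat.succ_pos c), zero_mul, if_neg]
      have : 1 < 2 ^ (c + 1) := Nat.one_lt_two_pow (by omega)
      omega
  | succ k ih =>
    intro c
    rw [gF_succ, ih c, show 2 * 2 ^ c = 2 ^ (c + 1) from by ring, ih (c + 1)]
    rcases c with _ | c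
    · have h := kp_rec k
      have e0 : PP (k + 1) 0 = 1 := by unfold PP; simp
      have e1 : PP k 0 = 1 := by unfold PP; simp
      have e2 : PP k (0 + 1) = 1 - (1 / 2 : ℝ) ^ k := by
        rw [PP_succ, e1, pow_zero, one_mul, div_pow, one_pow]
      rw [e0, e1, e2, Nat.sub_zero, Nat.sub_zero, zero_add]
      norm_num at h ⊢
      linarith
    · rw [show (2 ^ (c + 1) / 2 : ℕ) = 2 ^ c from by rw [pow_succ, Nat.mul_div_cancel _ (by norm_num)],
        ih c, PP_shift, Nat.add_sub_add_right, PP_succ k (c + 1), PP_succ k c]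
      push_cast
      rcases lt_trichotomy k c with h | h | h
      · rw [PP_zero h]
        ring
      · subst h
        have h0 : (2 : ℝ) ^ k / 2 ^ k = 1 := div_self (by positivity)
        rw [h0]
        ring
      · obtain ⟨m, rfl⟩ : ∃ m, k = m + 1 + c := ⟨k - c - 1, by omega⟩
        have h1 : m + 1 + c - c = m + 1 := by omega
        have h2 : m + 1 + c - (c + 1) = m := by omega
        have h3 : m + 1 + c - (c + 1 + 1) = m - 1 := by omega
        rw [h1, h2, h3]
        have h := kp_rec m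
        have h4 : (2 : ℝ) ^ c ≠ 0 := by positivity
        have h5 : (2 : ℝ) ^ m ≠ 0 := by positivity
        have h6 : (2 : ℝ) ^ (m + 1 + c) = 2 * 2 ^ m * 2 ^ c := by ring
        have h7 : (2 : ℝ) ^ (m + 1 + c + 1) = 4 * 2 ^ m * 2 ^ c := by ring
        have h8 : (2 : ℝ) ^ (c + 1) = 2 * 2 ^ c := by ring
        have h9 : (1 / 2 : ℝ) ^ m = 1 / 2 ^ m := by rw [div_pow, one_pow]
        rw [h9] at h
        rw [h6, h7, h8]
        have h10 : kp (m + 1) = (kp m + (1 - 1 / 2 ^ m) * kp (m - 1)) / 2 := by linarith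
        rw [h10]
        field_simp
        ring

theorem kp_bounds (m : ℕ) : 0 ≤ kp m ∧ kp m ≤ 1 := by
  unfold kp
  have h : ∀ i : ℕ, 0 ≤ (1 - (1 / 2 : ℝ) ^ (2 * i + 1)) ∧ (1 - (1 / 2 : ℝ) ^ (2 * i + 1)) ≤ 1 := by
    intro i
    have h1 : (1 / 2 : ℝ) ^ (2 * i + 1) ≤ 1 := pow_le_one₀ (by norm_num) (by norm_num)
    have h2 : (0 : ℝ) ≤ (1 / 2 : ℝ) ^ (2 * i + 1) := by positivity
    constructor <;> linarith
  exact ⟨Finset.prod_nonneg fun i _ => (h i).1, Finset.prod_le_one (fun i _ => (h i).1) fun i _ => (h i).2⟩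

theorem PP_bounds (k : ℕ) : ∀ c : ℕ, c ≤ k → 0 ≤ PP k c ∧ PP k c ≤ 1 ∧ 1 - PP k c ≤ 2 ^ c / 2 ^ k := by
  intro c
  induction c with
  | zero =>
    intro _
    have e1 : PP k 0 = 1 := by unfold PP; simp
    rw [e1]
    refine ⟨zero_le_one, le_rfl, ?_⟩
    rw [sub_self]
    positivity
  | succ c ih =>
    intro hc
    obtain ⟨h1, h2, h3⟩ := ih (by omega)
    have h4 : (2 : ℝ) ^ c / 2 ^ k ≤ 1 := by
      rw [div_le_one (by positivity)]
      exact pow_le_pow_right₀ (by norm_num) (by omega)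
    have h5 : (0 : ℝ) ≤ 2 ^ c / 2 ^ k := by positivity
    rw [PP_succ]
    refine ⟨mul_nonneg h1 (by linarith), mul_le_one₀ h2 (by linarith) (by linarith), ?_⟩
    have h6 : (2 : ℝ) ^ (c + 1) / 2 ^ k = 2 ^ c / 2 ^ k + 2 ^ c / 2 ^ k := by
      rw [pow_succ]
      ring
    rw [h6]
    nlinarith

/-- **The rate.** -/
theorem gF_bound (k c : ℕ) : |gF F0 k (2 ^ c) - c2| ≤ 2 * (2 ^ c / 2 ^ k) := by
  obtain ⟨g1, g2, g3, -, -⟩ := Pool.Agent.Y948.CQ.t_C2
  rw [gF_F0]
  rcases lt_or_ge k c with h | h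
  · rw [PP_zero h, zero_mul, zero_sub, abs_neg, abs_of_pos g2]
    have h4 : (1 : ℝ) ≤ 2 ^ c / 2 ^ k := by
      rw [le_div_iff₀ (by positivity), one_mul]
      exact pow_le_pow_right₀ (by norm_num) h.le
    linarith
  · obtain ⟨h1, h2, h3⟩ := PP_bounds k c h
    obtain ⟨h4, h5⟩ := kp_bounds (k - c)
    have h6 : |kp (k - c) - c2| ≤ 2 ^ c / 2 ^ k := by
      refine (g1 ((k - c + 1) / 2)).trans ?_
      have e : (2 : ℝ) ^ c / 2 ^ k = (1 / 2 : ℝ) ^ (k - c) := by
        rw [div_pow, one_pow, div_eq_div_iff (by positivity) (by positivity), one_mul, ← pow_add]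
        congr 1
        omega
      rw [e, show (1 / 4 : ℝ) = (1 / 2) ^ 2 by norm_num, ← pow_mul]
      exact pow_le_pow_of_le_one (by norm_num) (by norm_num) (by omega)
    have h7 : PP k c * kp (k - c) - c2 = (kp (k - c) - c2) - (1 - PP k c) * kp (k - c) := by ring
    rw [h7]
    refine (abs_sub _ _).trans ?_
    have h8 : |(1 - PP k c) * kp (k - c)| ≤ 2 ^ c / 2 ^ k := by
      rw [abs_of_nonneg (mul_nonneg (by linarith) h4)]
      calc (1 - PP k c) * kp (k - c) ≤ (1 - PP k c) * 1 := by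
            apply mul_le_mul_of_nonneg_left h5 (by linarith)
        _ ≤ _ := by linarith
    linarith

/-- **The limit law for the Laplacian borderings.** -/
theorem ap_bound (a : ℕ) {n : Type} [Fintype n] [DecidableEq n] {M : Matrix n n (ZMod 2)}
    (hM : M.IsSymm) : |ap a F0 M - c2| ≤ 4 / 2 ^ a * ap 1 (fun z => (z : ℝ)) M := by
  obtain ⟨-, g2, g3, -, -⟩ := Pool.Agent.Y948.CQ.t_C2
  have hone : (1 : ℝ) ≤ ap 1 (fun z => (z : ℝ)) M := by
    rw [ap_succ]
    calc (1 : ℝ) = avg (fun _ : (n → ZMod 2) × ZMod 2 => (1 : ℝ)) := (avg_const 1).symm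
      _ ≤ _ := avg_mono fun x => by
        rw [ap_zero]
        exact_mod_cast kz_pos _
  rcases a with _ | a
  · rw [ap_zero, pow_zero, div_one]
    have h1 : |F0 (kz M) - c2| ≤ 1 := by
      unfold F0
      split_ifs
      · rw [abs_le]; constructor <;> linarith
      · rw [abs_le]; constructor <;> linarith
    linarith
  · rw [ap_eq F0 a hM]
    have e : (avg fun x : (n → ZMod 2) × ZMod 2 => gF F0 a (kz (bord M x.1 x.2))) - c2 =
        avg fun x : (n → ZMod 2) × ZMod 2 => (gF F0 a (kz (bord M x.1 x.2)) - c2) := by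
      rw [avg_sub, avg_const]
    rw [e]
    refine (abs_avg _).trans ?_
    have h1 : ∀ x : (n → ZMod 2) × ZMod 2, |gF F0 a (kz (bord M x.1 x.2)) - c2| ≤
        4 / 2 ^ (a + 1) * (kz (bord M x.1 x.2) : ℝ) := by
      intro x
      obtain ⟨c, hc⟩ := kz_pow (bord M x.1 x.2)
      rw [hc]
      refine (gF_bound a c).trans (le_of_eq ?_)
      push_cast
      rw [pow_succ (2 : ℝ) a]
      field_simp
      ring
    refine (avg_mono h1).trans (le_of_eq ?_)
    rw [ap_succ]
    unfold avg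
    rw [← Finset.mul_sum, mul_div_assoc]
    rfl

/-- the mean number of the elements of the kernel stays bounded -/
theorem ap_id_le (w : ℕ) {n : Type} [Fintype n] [DecidableEq n] {M : Matrix n n (ZMod 2)}
    (hM : M.IsSymm) : ap (w + 1) (fun z => (z : ℝ)) M ≤ 2 ^ (Fintype.card n + 1) := by
  rw [ap_eq _ w hM]
  have h1 : ∀ x : (n → ZMod 2) × ZMod 2, gF (fun z => (z : ℝ)) w (kz (bord M x.1 x.2)) ≤
      2 ^ (Fintype.card n + 1) := by
    intro x
    obtain ⟨c, hc⟩ := kz_pow (bord M x.1 x.2)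
    have h2 := kz_le (bord M x.1 x.2)
    rw [Fintype.card_sum, Fintype.card_unit] at h2
    rw [hc] at h2 ⊢
    rw [gF_id]
    have h3 : (2 : ℝ) ^ c ≤ 2 ^ (Fintype.card n + 1) := by exact_mod_cast h2
    have h4 : (2 : ℝ) ≤ 2 ^ (Fintype.card n + 1) := by
      calc (2 : ℝ) = 2 ^ 1 := by norm_num
        _ ≤ _ := pow_le_pow_right₀ (by norm_num) (by omega)
    have h5 : (1 : ℝ) ≤ 2 ^ w := one_le_pow₀ (by norm_num)
    rcases le_or_gt ((2 : ℝ) ^ c) 2 with h6 | h6
    · have : ((2 : ℝ) ^ c - 2) / 2 ^ w ≤ 0 := div_nonpos_of_nonpos_of_nonneg (by linarith) (by positivity)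
      linarith
    · have : ((2 : ℝ) ^ c - 2) / 2 ^ w ≤ 2 ^ c - 2 := div_le_self (by linarith) h5
      linarith
  calc _ ≤ avg (fun _ : (n → ZMod 2) × ZMod 2 => (2 : ℝ) ^ (Fintype.card n + 1)) := avg_mono h1
    _ = _ := avg_const _

end Q155.KT
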