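import Pool.Agent.Q155.KT.Fin

/-!
# Infinite sequences of split primes; the branching of the tree of `X_0(14)`
-/

set_option autoImplicit false

namespace Q155.KT

open Finset Filter Topology
open Pool.Agent.Y687.MQ (matD SP IP AdmD)
open Q283.TW
open scoped Classical

/-- the good discriminants -/
def Gd (D : ℤ) : Prop := AdmD D ∧ (matD D).det ≠ 0

theorem prm_primes {𝒟 : Finset ℤ} (h : ∀ D ∈ 𝒟, AdmD D) : ∀ r ∈ prm 𝒟, r.Prime ∧ r ≠ 2 ∧ r ≠ 7 := by
  intro r hr
  obtain ⟨D, hD, hr'⟩ := Finset.mem_biUnion.1 hr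
  have h1 := (h D hD).2.2.2 r (Nat.prime_of_mem_primeFactors hr')
    (Int.natCast_dvd.2 (Nat.dvd_of_mem_primeFactors hr'))
  refine ⟨Nat.prime_of_mem_primeFactors hr', ?_, ?_⟩
  · rintro rfl
    rcases h1.2 with h | h
    · have := h.2.1; omega
    · have := h.2.1; omega
  · rintro rfl
    rcases h1.2 with h | h
    · have := h.2.2; omega
    · have := h.2.2; omega

/-- large primes with a given label -/
theorem exists_lab (R : Finset ℕ) (hR : ∀ r ∈ R, r.Prime ∧ r ≠ 2 ∧ r ≠ 7) (l : Lb R) (N : ℕ) :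
    ∃ p, N < p ∧ Spl p ∧ p ∉ R ∧ lab R p = l := by
  by_contra hc
  push Not at hc
  have h1 := lab_density R hR l
  have h2 : Tendsto (fun X : ℕ => ((splL R l X).card : ℝ) / ((spl X).card : ℝ)) atTop (𝓝 0) := by
    refine squeeze_zero (fun X => by positivity) (fun X => ?_)
      (Tendsto.div_atTop (tendsto_const_nhds (x := ((N + 1 : ℕ) : ℝ))) spl_tendsto)
    refine div_le_div_of_nonneg_right ?_ (by positivity)
    have h3 : splL R l X ⊆ range (N + 1) := by
      intro p hp
      obtain ⟨a1, a2, a3⟩ := mem_splL.1 hp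
      rw [Finset.mem_range]
      by_contra hlt
      exact hc p (by omega) (mem_spl.1 a1).2 a2 a3
    have := Finset.card_le_card h3
    rw [Finset.card_range] at this
    exact_mod_cast this
  have h3 := tendsto_nhds_unique h1 h2
  have : (0 : ℝ) < 1 / 2 ^ (R.card + 1) := by positivity
  linarith

/-- **One more prime.** -/
theorem one_more (𝒟 : Finset ℤ) (h : ∀ D ∈ 𝒟, Gd D) (N : ℕ) :
    ∃ p, N < p ∧ Spl p ∧ (∀ D ∈ 𝒟, Gd (D * (p : ℤ))) := by
  have hA : ∀ D ∈ 𝒟, AdmD D := fun D hD => (h D hD).1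
  obtain ⟨p, hN, hp, hpR, hl⟩ := exists_lab (prm 𝒟) (prm_primes hA) (0, 1) N
  refine ⟨p, hN, hp, fun D hD => ?_⟩
  have hpD : p ∉ D.natAbs.primeFactors := fun hi =>
    hpR (Finset.mem_biUnion.2 ⟨D, hD, hi⟩)
  refine ⟨admD_mul (hA D hD) hp hpD, ?_⟩
  have hv : ∀ r ∈ D.natAbs.primeFactors, nrp p r = 0 := by
    intro r hr
    have h1 := congrFun (congrArg Prod.fst hl) ⟨r, Finset.mem_biUnion.2 ⟨D, hD, hr⟩⟩
    exact h1
  have he : xp1 p = 1 := congrArg Prod.snd hl
  rw [det_eq (hA D hD) hp hpD]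
  have e : bord (matD D) (fun q : SP D => nrp p q) (∑ r ∈ D.natAbs.primeFactors, nrp p r + xp1 p) =
      Matrix.fromBlocks (matD D) 0 0 1 := by
    unfold bord
    have hv' : (fun q : SP D => nrp p q) = 0 := by
      funext q
      exact hv q (Finset.mem_filter.1 q.2).1
    congr 1
    · have h0 : Matrix.diagonal (0 : SP D → ZMod 2) = 0 := Matrix.diagonal_zero
      rw [hv', h0, add_zero]
    · ext r i
      exact hv r (Finset.mem_filter.1 r.2).1
    · ext i r
      exact hv r (Finset.mem_filter.1 r.2).1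
    · ext i j
      rw [Matrix.of_apply, Matrix.one_apply, if_pos (Subsingleton.elim _ _), he,
        Finset.sum_eq_zero hv, zero_add]
  rw [e, Matrix.det_fromBlocks_zero₂₁, Matrix.det_one, mul_one]
  exact (h D hD).2

/-- the states -/
abbrev St : Type := {x : Finset ℤ × ℕ // ∀ D ∈ x.1, Gd D}

/-- the next state -/
noncomputable def nxt (s : St) : St :=
  ⟨(s.1.1 ∪ s.1.1.image (fun D => D * ((one_more s.1.1 s.2 s.1.2).choose : ℤ)),
    (one_more s.1.1 s.2 s.1.2).choose), by
    intro D hD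
    rcases Finset.mem_union.1 hD with h | h
    · exact s.2 D h
    · obtain ⟨D', hD', rfl⟩ := Finset.mem_image.1 h
      exact (one_more s.1.1 s.2 s.1.2).choose_spec.2.2 D' hD'⟩

theorem nxt_spec (s : St) : s.1.2 < (nxt s).1.2 ∧ Spl (nxt s).1.2 :=
  ⟨(one_more s.1.1 s.2 s.1.2).choose_spec.1, (one_more s.1.1 s.2 s.1.2).choose_spec.2.1⟩

/-- **Infinite sequences.** -/
theorem exists_seq (𝒟 : Finset ℤ) (h : ∀ D ∈ 𝒟, Gd D) (N : ℕ) :
    ∃ p : ℕ → ℕ, StrictMono p ∧ (∀ n, N < p n ∧ Spl (p n)) ∧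
      ∀ D ∈ 𝒟, ∀ U : Finset ℕ, Gd (D * ∏ i ∈ U, (p i : ℤ)) := by
  let s : ℕ → St := fun n => Nat.rec ⟨(𝒟, N), h⟩ (fun _ t => nxt t) n
  have hs : ∀ n, s (n + 1) = nxt (s n) := fun n => rfl
  have hmono : StrictMono fun n => (s n).1.2 := by
    refine strictMono_nat_of_lt_succ fun n => ?_
    rw [hs]
    exact (nxt_spec _).1
  refine ⟨fun n => (s (n + 1)).1.2, ?_, ?_, ?_⟩
  · intro a b hab
    exact hmono (Nat.succ_lt_succ hab)
  · intro n
    refine ⟨?_, ?_⟩
    · have : (s 0).1.2 < (s (n + 1)).1.2 := hmono (Nat.succ_pos n)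
      exact this
    · show Spl (s (n + 1)).1.2
      rw [hs]
      exact (nxt_spec _).2
  · intro D hD U
    have key : ∀ n : ℕ, ∀ V : Finset ℕ, V ⊆ range n →
        D * ∏ i ∈ V, (((s (i + 1)).1.2 : ℕ) : ℤ) ∈ (s n).1.1 := by
      intro n
      induction n with
      | zero =>
        intro V hV
        have : V = ∅ := by
          rw [Finset.range_zero] at hV
          exact Finset.subset_empty.1 hV
        rw [this, Finset.prod_empty, mul_one]
        exact hD
      | succ n ih =>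
        intro V hV
        rw [hs]
        show _ ∈ (s n).1.1 ∪ (s n).1.1.image (fun D => D * ((nxt (s n)).1.2 : ℤ))
        by_cases hn : n ∈ V
        · refine Finset.mem_union_right _ ?_
          rw [Finset.mem_image]
          refine ⟨D * ∏ i ∈ V.erase n, (((s (i + 1)).1.2 : ℕ) : ℤ), ih _ ?_, ?_⟩
          · intro i hi
            have h1 := Finset.mem_range.1 (hV (Finset.mem_of_mem_erase hi))
            have h2 := Finset.ne_of_mem_erase hi
            rw [Finset.mem_range]
            omega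
          · rw [← hs n, mul_assoc, Finset.prod_erase_mul _ _ hn]
        · refine Finset.mem_union_left _ (ih V ?_)
          intro i hi
          have h1 := Finset.mem_range.1 (hV hi)
          have h2 : i ≠ n := by rintro rfl; exact hn hi
          rw [Finset.mem_range]
          omega
    obtain ⟨n, hn⟩ : ∃ n, U ⊆ range n := by
      refine ⟨U.sup id + 1, fun i hi => ?_⟩
      rw [Finset.mem_range, Nat.lt_succ_iff]
      exact Finset.le_sup (f := id) hi
    exact (s n).2 _ (key n U hn)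

end Q155.KT
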