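import Pool.Agent.Q155.KT.Var
import Pool.Agent.Q155.KT.Seq

/-!
# The law of large numbers for the tables and for the primes
-/

set_option autoImplicit false
set_option linter.unusedSectionVars false

namespace Q155.KT

open Finset Matrix Q283.TW Filter Topology
open Pool.Agent.Q1.PT (avg avg_equiv avg_prod avg_mono avg_const avg_add avg_sub abs_avg avg_hom)
open Pool.Agent.Y703.CQ (c2)
open Pool.Agent.Y687.MQ (matD SP IP AdmD)
open scoped Classical

section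
variable {R : Finset ℕ} {k : ℕ}

/-- the symmetric function -/
noncomputable def sm (b : Fin k → Fin k → ZMod 2) : Sy k :=
  ⟨fun i j => b i j + b j i, fun _ _ => add_comm _ _, fun _ => z2_dbl _⟩

/-- the table of the parameters -/
noncomputable def tb (x : Par R k) : Dta R k := (x.1, sm x.2)

theorem avg_ind {α : Type} [Fintype α] (P : α → Prop) :
    avg (fun a => if P a then (1 : ℝ) else 0) = (Nat.card {a // P a} : ℝ) / Nat.card α := by
  unfold avg
  rw [Finset.sum_boole, Nat.card_eq_fintype_card, Nat.card_eq_fintype_card, Fintype.card_subtype]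

/-- **Averages over the tables.** -/
theorem avg_tb (W : Dta R k → Prop) :
    (Nat.card {x : Dta R k // W x} : ℝ) / Nat.card (Dta R k) =
      avg fun x : Par R k => if W (tb x) then (1 : ℝ) else 0 := by
  have h1 : (Nat.card {x : Dta R k // W x} : ℝ) / Nat.card (Dta R k) =
      avg fun x : (Fin k → Lb R) × (Pr k → ZMod 2) => if W (x.1, sy x.2) then (1 : ℝ) else 0 := by
    rw [avg_ind]
    congr 2
    · exact (Nat.card_congr (Equiv.subtypeEquiv ((Equiv.refl _).prodCongr (syEquiv k))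
        fun x => Iff.rfl)).symm
    · exact (Nat.card_congr ((Equiv.refl _).prodCongr (syEquiv k))).symm
  rw [h1]
  let φ : Par R k →+ (Fin k → Lb R) × (Pr k → ZMod 2) :=
    { toFun := fun x => (x.1, fun e => x.2 e.1.1 e.1.2 + x.2 e.1.2 e.1.1)
      map_zero' := by
        refine Prod.ext rfl ?_
        funext e
        show (0 : ZMod 2) + 0 = 0
        rw [add_zero]
      map_add' := fun x y => by
        refine Prod.ext rfl ?_
        funext e
        show (x.2 e.1.1 e.1.2 + y.2 e.1.1 e.1.2) + (x.2 e.1.2 e.1.1 + y.2 e.1.2 e.1.1) =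
          (x.2 e.1.1 e.1.2 + x.2 e.1.2 e.1.1) + (y.2 e.1.1 e.1.2 + y.2 e.1.2 e.1.1)
        ring }
  have hφ : Function.Surjective φ := by
    rintro ⟨l, α⟩
    refine ⟨(l, fun i j => if h : (i, j) ∈ Pr k then α ⟨(i, j), h⟩ else 0), ?_⟩
    refine Prod.ext rfl ?_
    funext e
    show (if h : (e.1.1, e.1.2) ∈ Pr k then α ⟨(e.1.1, e.1.2), h⟩ else 0) +
      (if h : (e.1.2, e.1.1) ∈ Pr k then α ⟨(e.1.2, e.1.1), h⟩ else 0) = α e
    rw [dif_pos e.2, dif_neg (fun h => absurd (mem_Pr.1 h) (lt_asymm (mem_Pr.1 e.2))), add_zero]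
  rw [← avg_hom φ hφ]
  congr 1
  funext x
  have e1 : ((φ x).1, sy (φ x).2) = tb x := by
    refine Prod.ext rfl (Subtype.ext ?_)
    exact sy_of (fun i j => x.2 i j + x.2 j i) (fun _ _ => add_comm _ _) fun _ => z2_dbl _
  rw [e1]

/-- the number of the good `U` -/
noncomputable def ng' (D : ℤ) (x : Dta R k) : ℕ := Nat.card {U : Finset (Fin k) // bdet D x U ≠ 0}

theorem sum_F0 (D : ℤ) (x : Par R k) :
    ∑ U : Finset (Fin k), ap 0 F0 (bg D U x) = (ng' D (tb x) : ℝ) := by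
  unfold ng'
  rw [Nat.card_eq_fintype_card, Fintype.card_subtype, Finset.card_filter]
  push_cast
  refine Finset.sum_congr rfl fun U _ => ?_
  rw [ap_zero]
  unfold F0
  have h : kz (bg D U x) = 1 ↔ bdet D (tb x) U ≠ 0 := kz_eq_one
  by_cases h1 : kz (bg D U x) = 1
  · rw [if_pos h1, if_pos (h.1 h1)]
  · rw [if_neg h1, if_neg (fun h2 => h1 (h.2 h2))]

theorem pdev_tb (D : ℤ) (x : Par R k) : pdev D x = (ng' D (tb x) : ℝ) / 2 ^ k - c2 := by
  unfold pdev
  rw [sum_F0]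

/-- the bound for a finite set of base discriminants -/
noncomputable def Cst (𝒟 : Finset ℤ) : ℝ := ∑ D ∈ 𝒟, 8 * 2 ^ (SP D).card

theorem Cst_nonneg (𝒟 : Finset ℤ) : 0 ≤ Cst 𝒟 := Finset.sum_nonneg fun D _ => by positivity

/-- **The union bound.** -/
theorem bad_le {𝒟 : Finset ℤ} (h : ∀ D ∈ 𝒟, AdmD D) (hR : prm 𝒟 ⊆ R) {ε : ℝ} (hε : 0 < ε) :
    avg (fun x : Par R k => if ∀ D ∈ 𝒟, |pdev D x| < ε then (0 : ℝ) else 1) ≤
      Cst 𝒟 * (7 / 8) ^ k / ε ^ 2 := by
  have h1 : ∀ x : Par R k, (if ∀ D ∈ 𝒟, |pdev D x| < ε then (0 : ℝ) else 1) ≤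
      ∑ D ∈ 𝒟, if |pdev D x| < ε then (0 : ℝ) else 1 := by
    intro x
    have hnn : ∀ D ∈ 𝒟, (0 : ℝ) ≤ if |pdev D x| < ε then (0 : ℝ) else 1 := by
      intro D _
      split_ifs <;> norm_num
    split_ifs with hx
    · exact Finset.sum_nonneg hnn
    · push Not at hx
      obtain ⟨D, hD, hDx⟩ := hx
      refine le_trans (le_of_eq ?_) (Finset.single_le_sum hnn hD)
      rw [if_neg (not_lt.2 hDx)]
  refine (avg_mono h1).trans ?_
  rw [avg_sum]
  unfold Cst
  rw [Finset.sum_mul, Finset.sum_div]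
  refine Finset.sum_le_sum fun D hD => ?_
  have hRD : D.natAbs.primeFactors ⊆ R := fun r hr => hR (Finset.mem_biUnion.2 ⟨D, hD, hr⟩)
  refine (cheb (h D hD) hRD hε).trans (le_of_eq ?_)
  rw [Fintype.card_coe]

end

/-- **The law of large numbers for tuples of primes.** -/
theorem lln (𝒟 : Finset ℤ) (h : ∀ D ∈ 𝒟, AdmD D) (k : ℕ) {ε : ℝ} (hε : 0 < ε)
    (T : (Fin k → ℕ) → Prop)
    (hT : ∀ p : Fin k → ℕ, (∀ i, Spl (p i)) → (T p ↔ Function.Injective p ∧
      (∀ i, p i ∉ prm 𝒟) ∧ ∀ D ∈ 𝒟, |(ng' D (tab (prm 𝒟) p) : ℝ) / 2 ^ k - c2| < ε)) :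
    ∃ ℓ : ℝ, 1 - Cst 𝒟 * (7 / 8) ^ k / ε ^ 2 ≤ ℓ ∧
      Tendsto (fun X : ℕ => (((tup k X).filter fun p => T p).card : ℝ) / ((tup k X).card : ℝ)) atTop
      (𝓝 ℓ) := by
  obtain ⟨W, hW⟩ : ∃ W : Dta (prm 𝒟) k → Prop,
      ∀ x, W x ↔ ∀ D ∈ 𝒟, |(ng' D x : ℝ) / 2 ^ k - c2| < ε := ⟨_, fun _ => Iff.rfl⟩
  have h1 := table_law 𝒟 h k W T (fun p hp => by rw [hT p hp, hW])
  refine ⟨_, ?_, h1⟩
  rw [avg_tb]
  have h2 := bad_le (k := k) h (subset_refl (prm 𝒟)) hε
  have h3 : (fun x : Par (prm 𝒟) k => if W (tb x) then (1 : ℝ) else 0) =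
      fun x => 1 - if ∀ D ∈ 𝒟, |pdev D x| < ε then (0 : ℝ) else 1 := by
    funext x
    have h4 : W (tb x) ↔ ∀ D ∈ 𝒟, |pdev D x| < ε := by
      rw [hW]
      refine forall_congr' fun D => forall_congr' fun _ => ?_
      rw [pdev_tb]
    by_cases h5 : W (tb x)
    · rw [if_pos h5, if_pos (h4.1 h5), sub_zero]
    · rw [if_neg h5, if_neg (fun h6 => h5 (h4.2 h6)), sub_self]
  rw [h3, avg_sub, avg_const]
  linarith

end Q155.KT
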