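import Pool.Agent.Q155.KT.Lln

/-!
# The variance of the proportion of the good twists
-/

set_option autoImplicit false
set_option linter.unusedSectionVars false

namespace Q155.KT

open Finset Matrix Q283.TW
open Pool.Agent.Q1.PT (avg avg_equiv avg_prod avg_mono avg_const avg_add avg_sub abs_avg avg_hom)
open Pool.Agent.Y703.CQ (c2)
open Pool.Agent.Y687.MQ (matD SP IP AdmD)
open scoped Classical

theorem avg_mul_const {α : Type} [Fintype α] (f : α → ℝ) (c : ℝ) :
    avg (fun a => f a * c) = avg f * c := by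
  unfold avg
  rw [← Finset.sum_mul, div_mul_eq_mul_div]

theorem avg_sum {α ι : Type} [Fintype α] (s : Finset ι) (f : ι → α → ℝ) :
    avg (fun a => ∑ i ∈ s, f i a) = ∑ i ∈ s, avg (f i) := by
  unfold avg
  rw [Finset.sum_comm, Finset.sum_div]

section
variable {D : ℤ} {R : Finset ℕ} {k : ℕ}

theorem avg_sh (i : Fin k) (G : Par R k → ℝ) :
    avg G = avg fun x : Par R k => avg fun y : Lb R × (Fin k → ZMod 2) => G (x + sh R i y) := by
  rw [← avg_prod (fun p : Par R k × (Lb R × (Fin k → ZMod 2)) => G (p.1 + sh R i p.2))]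
  let φ : Par R k × (Lb R × (Fin k → ZMod 2)) →+ Par R k :=
    (AddMonoidHom.fst _ _) + (sh R i).comp (AddMonoidHom.snd _ _)
  exact (avg_hom φ (fun x => ⟨(x, 0), by
    show x + sh R i 0 = x
    rw [map_zero, add_zero]⟩) G).symm

/-- **All the steps.** -/
theorem ap_iter (hR : D.natAbs.primeFactors ⊆ R) (F : ℕ → ℝ) (A : Finset (Fin k)) :
    ∀ (j : ℕ) (V : Finset (Fin k)), Disjoint A V → ∀ G : Par R k → ℝ,
      (∀ i ∈ A, ∀ x y, G (x + sh R i y) = G x) →
      avg (fun x : Par R k => ap j F (bg D (V ∪ A) x) * G x) =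
        avg fun x : Par R k => ap (j + A.card) F (bg D V x) * G x := by
  induction A using Finset.induction_on with
  | empty =>
    intro j V _ G _
    rw [Finset.union_empty, Finset.card_empty, add_zero]
  | @insert i A hi ih =>
    intro j V hd G hG
    obtain ⟨h1, h2⟩ := Finset.disjoint_insert_left.1 hd
    have hni : i ∉ V ∪ A := by
      rw [Finset.mem_union, not_or]
      exact ⟨h1, hi⟩
    have e : V ∪ insert i A = insert i (V ∪ A) := Finset.union_insert _ _ _
    rw [e, avg_sh i]
    have h3 : ∀ x : Par R k, avg (fun y : Lb R × (Fin k → ZMod 2) =>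
        ap j F (bg D (insert i (V ∪ A)) (x + sh R i y)) * G (x + sh R i y)) =
        ap (j + 1) F (bg D (V ∪ A) x) * G x := by
      intro x
      simp_rw [hG i (Finset.mem_insert_self i A) x]
      rw [avg_mul_const, ap_step hR hni]
    simp_rw [h3]
    rw [ih (j + 1) V h2 G (fun l hl => hG l (Finset.mem_insert_of_mem hl)),
      Finset.card_insert_of_notMem hi]
    have : j + 1 + A.card = j + (A.card + 1) := by omega
    rw [this]

theorem matD_sym (h : AdmD D) : (matD D).IsSymm := by
  refine Matrix.IsSymm.ext fun i j => ?_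
  rw [matD_apply h, matD_apply h]
  by_cases hij : i = j
  · subst hij
    rfl
  · rw [if_neg hij, if_neg (fun h' => hij h'.symm)]
    exact nrp_symm (spl_of_mem h j.2) (spl_of_mem h i.2)

theorem bg_symm (h : AdmD D) (U : Finset (Fin k)) (x : Par R k) : (bg D U x).IsSymm := by
  refine Matrix.IsSymm.ext fun i j => ?_
  unfold bg big
  rcases i with i | i <;> rcases j with j | j
  · rw [Matrix.fromBlocks_apply₁₁, Matrix.fromBlocks_apply₁₁, Matrix.add_apply, Matrix.add_apply,
      (matD_sym h).apply i j, Matrix.diagonal_apply, Matrix.diagonal_apply]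
    by_cases hij : i = j
    · subst hij
      rfl
    · rw [if_neg hij, if_neg (fun h' => hij h'.symm)]
  · rfl
  · rfl
  · rw [Matrix.fromBlocks_apply₂₂, Matrix.fromBlocks_apply₂₂, Matrix.of_apply, Matrix.of_apply]
    by_cases hij : i = j
    · subst hij
      rfl
    · rw [if_neg hij, if_neg (fun h' => hij h'.symm)]
      exact add_comm _ _

/-- the deviation of the indicator of a good twist -/
noncomputable def dev (D : ℤ) {R : Finset ℕ} {k : ℕ} (U : Finset (Fin k)) (x : Par R k) : ℝ :=
  ap 0 F0 (bg D U x) - c2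

theorem dev_abs (U : Finset (Fin k)) (x : Par R k) : |dev D U x| ≤ 1 := by
  obtain ⟨-, g2, g3, -, -⟩ := Pool.Agent.Y948.CQ.t_C2
  unfold dev
  rw [ap_zero]
  unfold F0
  split_ifs
  · rw [abs_le]; constructor <;> linarith
  · rw [abs_le]; constructor <;> linarith

/-- **The correlations.** -/
theorem corr (h : AdmD D) (hR : D.natAbs.primeFactors ⊆ R) (U V : Finset (Fin k)) :
    avg (fun x : Par R k => dev D U x * dev D V x) ≤
      8 * 2 ^ Fintype.card (SP D) * (1 / 2) ^ (U \ V).card := by
  have hG : ∀ i ∈ U \ V, ∀ (x : Par R k) (y : Lb R × (Fin k → ZMod 2)),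
      dev D V (x + sh R i y) = dev D V x := by
    intro i hi x y
    unfold dev
    rw [bg_sh (Finset.mem_sdiff.1 hi).2]
  have hd : Disjoint (U \ V) (U ∩ V) := Finset.disjoint_sdiff_inter U V
  have hU : U ∩ V ∪ U \ V = U := by
    rw [Finset.union_comm, Finset.sdiff_union_inter]
  have h1 := ap_iter hR F0 (U \ V) 0 (U ∩ V) hd (dev D V) hG
  rw [hU, zero_add] at h1
  have h2 : avg (fun x : Par R k => dev D U x * dev D V x) =
      avg fun x : Par R k => (ap (U \ V).card F0 (bg D (U ∩ V) x) - c2) * dev D V x := by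
    have e1 : (fun x : Par R k => dev D U x * dev D V x) =
        fun x => ap 0 F0 (bg D U x) * dev D V x - dev D V x * c2 := by
      funext x
      show (ap 0 F0 (bg D U x) - c2) * dev D V x = _
      ring
    have e2 : (fun x : Par R k => (ap (U \ V).card F0 (bg D (U ∩ V) x) - c2) * dev D V x) =
        fun x => ap (U \ V).card F0 (bg D (U ∩ V) x) * dev D V x - dev D V x * c2 := by
      funext x
      ring
    rw [e1, e2, avg_sub, avg_sub, h1]
  rw [h2]
  have h3 : ∀ x : Par R k, (ap (U \ V).card F0 (bg D (U ∩ V) x) - c2) * dev D V x ≤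
      ap 1 (fun z => (z : ℝ)) (bg D (U ∩ V) x) * (4 / 2 ^ (U \ V).card) := by
    intro x
    refine (le_abs_self _).trans ?_
    rw [abs_mul]
    calc |ap (U \ V).card F0 (bg D (U ∩ V) x) - c2| * |dev D V x| ≤
          |ap (U \ V).card F0 (bg D (U ∩ V) x) - c2| * 1 :=
          mul_le_mul_of_nonneg_left (dev_abs V x) (abs_nonneg _)
      _ ≤ _ := by
          rw [mul_one]
          refine (ap_bound _ (bg_symm h _ _)).trans (le_of_eq (mul_comm _ _))
  refine (avg_mono h3).trans ?_
  rw [avg_mul_const]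
  have h4 := ap_iter hR (fun z => (z : ℝ)) (U ∩ V) 1 ∅ (Finset.disjoint_empty_right _)
    (fun _ : Par R k => (1 : ℝ)) (fun _ _ _ _ => rfl)
  simp only [mul_one] at h4
  have e0 : (∅ : Finset (Fin k)) ∪ U ∩ V = U ∩ V := Finset.empty_union _
  rw [e0] at h4
  rw [h4]
  have h5 : avg (fun x : Par R k => ap (1 + (U ∩ V).card) (fun z => (z : ℝ)) (bg D ∅ x)) ≤
      2 ^ (Fintype.card (SP D) + 1) := by
    have h6 : ∀ x : Par R k, ap (1 + (U ∩ V).card) (fun z => (z : ℝ)) (bg D ∅ x) ≤
        2 ^ (Fintype.card (SP D) + 1) := by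
      intro x
      rw [add_comm 1]
      refine (ap_id_le (U ∩ V).card (bg_symm h ∅ x)).trans (le_of_eq ?_)
      rw [Fintype.card_sum]
      simp
    calc _ ≤ avg (fun _ : Par R k => (2 : ℝ) ^ (Fintype.card (SP D) + 1)) := avg_mono h6
      _ = _ := avg_const _
  calc _ ≤ (2 : ℝ) ^ (Fintype.card (SP D) + 1) * (4 / 2 ^ (U \ V).card) :=
        mul_le_mul_of_nonneg_right h5 (by positivity)
    _ = _ := by
        rw [pow_succ, div_pow, one_pow]
        ring

/-- the sum of the bounds of the correlations -/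
theorem sum_pairs (k : ℕ) : ∑ U : Finset (Fin k), ∑ V : Finset (Fin k), (1 / 2 : ℝ) ^ (U \ V).card =
    (7 / 2) ^ k := by
  rw [Finset.sum_comm]
  have h1 : ∀ V : Finset (Fin k), ∑ U : Finset (Fin k), (1 / 2 : ℝ) ^ (U \ V).card =
      ∏ i : Fin k, if i ∈ V then (2 : ℝ) else 3 / 2 := by
    intro V
    have e : ∀ i : Fin k, (if i ∈ V then (2 : ℝ) else 3 / 2) =
        (if i ∈ V then (1 : ℝ) else 1 / 2) + 1 := by
      intro i
      split_ifs <;> norm_num
    simp_rw [e]
    rw [Finset.prod_add, ← Finset.powerset_univ]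
    refine Finset.sum_congr rfl fun U _ => ?_
    rw [Finset.prod_const_one, mul_one, Finset.prod_ite, Finset.prod_const_one, one_mul,
      Finset.prod_const]
    congr 1
    congr 1
    ext i
    rw [Finset.mem_sdiff, Finset.mem_filter]
  simp_rw [h1]
  have h2 : ∀ V : Finset (Fin k), (∏ i : Fin k, if i ∈ V then (2 : ℝ) else 3 / 2) =
      (∏ i ∈ V, (2 : ℝ)) * ∏ i ∈ univ \ V, (3 / 2 : ℝ) := by
    intro V
    rw [Finset.prod_ite, Finset.prod_const, Finset.prod_const, Finset.prod_const,
      Finset.prod_const]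
    congr 2
    · congr 1
      ext i
      simp
    · congr 1
      ext i
      simp
  simp_rw [h2]
  rw [← Finset.powerset_univ, ← Finset.prod_add, Finset.prod_const, Finset.card_univ,
    Fintype.card_fin]
  norm_num

/-- the deviation of the proportion of the good twists -/
noncomputable def pdev (D : ℤ) {R : Finset ℕ} {k : ℕ} (x : Par R k) : ℝ :=
  (∑ U : Finset (Fin k), ap 0 F0 (bg D U x)) / 2 ^ k - c2

theorem pdev_eq (x : Par R k) : pdev D x = (∑ U : Finset (Fin k), dev D U x) / 2 ^ k := by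
  unfold pdev dev
  rw [Finset.sum_sub_distrib, Finset.sum_const, Finset.card_univ, Fintype.card_finset,
    Fintype.card_fin, nsmul_eq_mul]
  have : (2 : ℝ) ^ k ≠ 0 := by positivity
  push_cast
  field_simp

/-- **The variance.** -/
theorem variance (h : AdmD D) (hR : D.natAbs.primeFactors ⊆ R) :
    avg (fun x : Par R k => pdev D x ^ 2) ≤ 8 * 2 ^ Fintype.card (SP D) * (7 / 8) ^ k := by
  have h1 : (fun x : Par R k => pdev D x ^ 2) = fun x => (∑ U : Finset (Fin k),
      ∑ V : Finset (Fin k), dev D U x * dev D V x) * (1 / 4 ^ k) := by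
    funext x
    rw [pdev_eq, div_pow, ← Finset.sum_mul_sum, ← pow_mul, mul_comm k 2, pow_mul]
    norm_num
    ring
  rw [h1, avg_mul_const, avg_sum]
  simp_rw [avg_sum]
  have h2 : ∑ U : Finset (Fin k), ∑ V : Finset (Fin k), avg (fun x : Par R k => dev D U x * dev D V x) ≤
      ∑ U : Finset (Fin k), ∑ V : Finset (Fin k),
        8 * 2 ^ Fintype.card (SP D) * (1 / 2) ^ (U \ V).card :=
    Finset.sum_le_sum fun U _ => Finset.sum_le_sum fun V _ => corr h hR U V
  have h3 : ∑ U : Finset (Fin k), ∑ V : Finset (Fin k),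
      8 * 2 ^ Fintype.card (SP D) * (1 / 2 : ℝ) ^ (U \ V).card =
      8 * 2 ^ Fintype.card (SP D) * (7 / 2) ^ k := by
    rw [← sum_pairs k, Finset.mul_sum]
    refine Finset.sum_congr rfl fun U _ => ?_
    rw [Finset.mul_sum]
  rw [h3] at h2
  calc _ ≤ (8 * 2 ^ Fintype.card (SP D) * (7 / 2) ^ k) * (1 / 4 ^ k : ℝ) :=
        mul_le_mul_of_nonneg_right h2 (by positivity)
    _ = _ := by
        have e : (7 / 8 : ℝ) ^ k = (7 / 2) ^ k * (1 / 4 ^ k) := by
          rw [one_div, ← inv_pow, ← mul_pow]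
          norm_num
        rw [e]
        ring

/-- **Chebyshev.** -/
theorem cheb (h : AdmD D) (hR : D.natAbs.primeFactors ⊆ R) {ε : ℝ} (hε : 0 < ε) :
    avg (fun x : Par R k => if |pdev D x| < ε then (0 : ℝ) else 1) ≤
      8 * 2 ^ Fintype.card (SP D) * (7 / 8) ^ k / ε ^ 2 := by
  have h1 : ∀ x : Par R k, (if |pdev D x| < ε then (0 : ℝ) else 1) ≤ pdev D x ^ 2 * (1 / ε ^ 2) := by
    intro x
    split_ifs with hx
    · positivity
    · rw [mul_one_div, le_div_iff₀ (by positivity), one_mul, ← sq_abs (pdev D x)]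
      exact pow_le_pow_left₀ hε.le (not_lt.1 hx) 2
  refine (avg_mono h1).trans ?_
  rw [avg_mul_const, ← div_eq_mul_one_div]
  exact div_le_div_of_nonneg_right (variance h hR) (by positivity)

end

end Q155.KT
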